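import Pool.Agent.R901.QZ.Glue

/-!
# Lattices in free modules over the ring of power series over a finite field
-/

set_option autoImplicit false
set_option linter.unusedSectionVars false
set_option linter.style.haveILetI false

open scoped ENNReal
open PowerSeries

namespace Pool.Agent.R901.QZ

universe u v w

section hom

variable {A : Type u} {F : Type v} {N : Type w} [Ring A] [AddCommGroup F] [Module A F]
  [AddCommGroup N] [Module A N] {r : ℕ}

theorem card_hom (b : Module.Basis (Fin r) A F) : Nat.card (F →ₗ[A] N) = Nat.card N ^ r := by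
  rw [← Nat.card_congr (b.constr ℕ (M' := N)).toEquiv, Nat.card_fun, Nat.card_fin]

theorem finite_hom (b : Module.Basis (Fin r) A F) [Finite N] : Finite (F →ₗ[A] N) :=
  Finite.of_equiv _ (b.constr ℕ (M' := N)).toEquiv

end hom

variable (k : Type u) [Field k]

theorem isQ_card' (M : Type v) [AddCommGroup M] [Module k M] : IsQ (Nat.card k) (Nat.card M) := by
  by_cases h : Finite M
  · have : Module.Finite k M := Module.Finite.of_finite
    exact Or.inr ⟨Module.finrank k M, Module.natCard_eq_pow_finrank⟩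
  · rw [not_finite_iff_infinite] at h
    exact Or.inl Nat.card_eq_zero_of_infinite

theorem isQ_card (M : Type v) [AddCommGroup M] [Module k⟦X⟧ M] :
    IsQ (Nat.card k) (Nat.card M) := by
  letI := Module.compHom M (PowerSeries.C : k →+* k⟦X⟧)
  exact isQ_card' k M

/-- The generating function of the submodules of finite index. -/
noncomputable def Z (M : Type v) [AddCommGroup M] [Module k⟦X⟧ M] : PowerSeries ℝ≥0∞ :=
  S fun L : Submodule k⟦X⟧ M => wt (Nat.card k) (Nat.card (M ⧸ L))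

variable {k} in
theorem Z_congr {M : Type v} {N : Type w} [AddCommGroup M] [Module k⟦X⟧ M] [AddCommGroup N]
    [Module k⟦X⟧ N] (e : M ≃ₗ[k⟦X⟧] N) : Z k M = Z k N := by
  rw [Z, Z, ← S_equiv (Submodule.orderIsoMapComap e).toEquiv]
  refine S_congr fun L => ?_
  congr 1
  exact Nat.card_congr (Submodule.Quotient.equiv L _ e rfl).toEquiv

variable [Finite k]

theorem one_lt_q : 1 < Nat.card k := Finite.one_lt_card

theorem card_quot_X_pow (n : ℕ) :
    Nat.card (k⟦X⟧ ⧸ Ideal.span {(X : k⟦X⟧) ^ n}) = Nat.card k ^ n := by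
  let f : k⟦X⟧ →ₗ[k] (Fin n → k) := LinearMap.pi fun i => coeff (R := k) (i : ℕ)
  have hf : Function.Surjective f := by
    intro c
    refine ⟨PowerSeries.mk fun j => if h : j < n then c ⟨j, h⟩ else 0, ?_⟩
    ext i
    simp [f]
  have hk : LinearMap.ker f = (Ideal.span {(X : k⟦X⟧) ^ n}).restrictScalars k := by
    ext g
    rw [LinearMap.mem_ker, Submodule.restrictScalars_mem, Ideal.mem_span_singleton,
      X_pow_dvd_iff]
    constructor
    · intro h m hm
      exact congrFun h ⟨m, hm⟩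
    · intro h
      ext i
      exact h i i.2
  have h1 := Nat.card_congr (f.quotKerEquivOfSurjective hf).toEquiv
  rw [hk] at h1
  have h2 := Nat.card_congr (Submodule.Quotient.restrictScalarsEquiv k
    (Ideal.span {(X : k⟦X⟧) ^ n})).toEquiv
  rw [Nat.card_fun, Nat.card_eq_fintype_card (α := Fin n), Fintype.card_fin] at h1
  exact h2.symm.trans h1

theorem exists_eq_span (L : Ideal k⟦X⟧) (hL : L ≠ ⊥) : ∃ n : ℕ, L = Ideal.span {(X : k⟦X⟧) ^ n} :=
  IsDiscreteValuationRing.ideal_eq_span_pow_irreducible hL X_prime.irreducible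

instance infinite_S : Infinite k⟦X⟧ := by
  refine Infinite.of_injective (fun n : ℕ => (X : k⟦X⟧) ^ n) fun a b h => ?_
  have h1 := congrArg (coeff a) h
  simp only [coeff_X_pow, if_true] at h1
  by_contra hab
  rw [if_neg hab] at h1
  exact one_ne_zero h1

theorem Z_self : Z k k⟦X⟧ = geo 1 := by
  ext n
  rw [Z, coeff_S, tsum_eq_single (Ideal.span {(X : k⟦X⟧) ^ n})]
  · rw [card_quot_X_pow, wt_pow (one_lt_q k), coeff_X_pow, if_pos rfl, geo, coeff_mk, one_pow]
  · intro L hL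
    by_cases hb : L = ⊥
    · have h0 : Nat.card (k⟦X⟧ ⧸ L) = 0 := by
        rw [hb]
        have : Infinite (k⟦X⟧ ⧸ (⊥ : Ideal k⟦X⟧)) :=
          Infinite.of_injective _ (Submodule.quotEquivOfEqBot (⊥ : Submodule k⟦X⟧ k⟦X⟧) rfl).symm.injective
        exact Nat.card_eq_zero_of_infinite
      rw [h0, wt_zero (one_lt_q k), map_zero]
    · obtain ⟨a, rfl⟩ := exists_eq_span k L hb
      rw [card_quot_X_pow, wt_pow (one_lt_q k), coeff_X_pow, if_neg]
      rintro rfl
      exact hL rfl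

/-- A submodule of rank one. -/
theorem nonempty_basis_ideal (L : Submodule k⟦X⟧ k⟦X⟧) (hL : L ≠ ⊥) :
    Nonempty (Module.Basis (Fin 1) k⟦X⟧ L) := by
  obtain ⟨n, rfl⟩ := exists_eq_span k L hL
  exact ⟨(Module.Basis.singleton (Fin 1) k⟦X⟧).map
    (LinearEquiv.toSpanNonzeroSingleton k⟦X⟧ k⟦X⟧ _ (pow_ne_zero n X_ne_zero))⟩

variable {k} in
/-- The sum over the gluings. -/
theorem S_hom {V : Type v} {W : Type w} [AddCommGroup V] [Module k⟦X⟧ V] [AddCommGroup W]
    [Module k⟦X⟧ W] {L₁ : Submodule k⟦X⟧ V} {r : ℕ} (b : Module.Basis (Fin r) k⟦X⟧ L₁)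
    (L₂ : Submodule k⟦X⟧ W) :
    (S fun φ : L₁ →ₗ[k⟦X⟧] W ⧸ L₂ => wt (Nat.card k) (Nat.card ((V × W) ⧸ glue L₁ L₂ φ))) =
      wt (Nat.card k) (Nat.card (V ⧸ L₁)) *
        rescale ((Nat.card k : ℝ≥0∞) ^ r) (wt (Nat.card k) (Nat.card (W ⧸ L₂))) := by
  have h1 : ∀ φ : L₁ →ₗ[k⟦X⟧] W ⧸ L₂, wt (Nat.card k) (Nat.card ((V × W) ⧸ glue L₁ L₂ φ)) =
      wt (Nat.card k) (Nat.card (V ⧸ L₁)) * wt (Nat.card k) (Nat.card (W ⧸ L₂)) := fun φ => by
    rw [card_quotient, pr_glue, ke_glue, wt_mul (one_lt_q k) (isQ_card k _) (isQ_card k _)]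
  rw [S_congr h1]
  by_cases hfin : Finite (W ⧸ L₂)
  · have := finite_hom (N := W ⧸ L₂) b
    rw [S_const, card_hom b, rescale_wt]
    ring
  · rw [not_finite_iff_infinite] at hfin
    rw [Nat.card_eq_zero_of_infinite (α := W ⧸ L₂), wt_zero (one_lt_q k), mul_zero, S_zero,
      map_zero, mul_zero]

theorem Z_prod (W : Type w) [AddCommGroup W] [Module k⟦X⟧ W] :
    Z k (k⟦X⟧ × W) = geo 1 * rescale (Nat.card k : ℝ≥0∞) (Z k W) := by
  rw [Z, S_glue, ← Z_self k, Z, ← S_mul_right]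
  refine S_congr fun L₁ => ?_
  rw [Z, rescale_S, ← S_mul_left]
  refine S_congr fun L₂ => ?_
  by_cases hb : L₁ = ⊥
  · have h0 : Nat.card (k⟦X⟧ ⧸ L₁) = 0 := by
      rw [hb]
      have : Infinite (k⟦X⟧ ⧸ (⊥ : Ideal k⟦X⟧)) :=
        Infinite.of_injective _
          (Submodule.quotEquivOfEqBot (⊥ : Submodule k⟦X⟧ k⟦X⟧) rfl).symm.injective
      exact Nat.card_eq_zero_of_infinite
    rw [h0, wt_zero (one_lt_q k), zero_mul]
    rw [← S_zero (α := L₁ →ₗ[k⟦X⟧] W ⧸ L₂)]
    refine S_congr fun φ => ?_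
    rw [card_quotient, pr_glue, h0, zero_mul, wt_zero (one_lt_q k)]
  · obtain ⟨b⟩ := nonempty_basis_ideal k L₁ hb
    rw [S_hom b L₂, pow_one]

theorem Z_fin (d : ℕ) : Z k (Fin d → k⟦X⟧) =
    ∏ i ∈ Finset.range d, geo ((Nat.card k : ℝ≥0∞) ^ i) := by
  induction d with
  | zero =>
    rw [Finset.range_zero, Finset.prod_empty, Z, S_single ⊤]
    · have h1 : Nat.card ((Fin 0 → k⟦X⟧) ⧸ (⊤ : Submodule k⟦X⟧ (Fin 0 → k⟦X⟧))) = 1 :=
        Nat.card_unique
      rw [h1, wt_one (one_lt_q k)]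
    · intro L hL
      exact absurd (Subsingleton.elim _ _) hL
  | succ d ih =>
    rw [Z_congr (Fin.consLinearEquiv k⟦X⟧ (fun _ : Fin (d + 1) => k⟦X⟧)).symm, Z_prod, ih,
      Finset.prod_range_succ', map_prod, mul_comm]
    simp only [rescale_geo, pow_zero, pow_succ']

theorem Z_free {M : Type v} [AddCommGroup M] [Module k⟦X⟧ M] {d : ℕ}
    (b : Module.Basis (Fin d) k⟦X⟧ M) :
    Z k M = ∏ i ∈ Finset.range d, geo ((Nat.card k : ℝ≥0∞) ^ i) := by
  rw [Z_congr b.equivFun, Z_fin]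

variable {k} in
/-- Submodules of finite index of a free module of rank `d` are free of rank `d`. -/
theorem nonempty_basis_of_finite {M : Type v} [AddCommGroup M] [Module k⟦X⟧ M] {d : ℕ}
    (b : Module.Basis (Fin d) k⟦X⟧ M) (L : Submodule k⟦X⟧ M) (hL : Finite (M ⧸ L)) :
    Nonempty (Module.Basis (Fin d) k⟦X⟧ L) := by
  obtain ⟨n, ⟨c⟩⟩ := Submodule.nonempty_basis_of_pid b L
  have h1 : Module.rank k⟦X⟧ (M ⧸ L) = 0 := by
    rw [rank_eq_zero_iff]
    intro x
    by_contra! h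
    have : Function.Injective fun a : k⟦X⟧ => a • x := by
      intro a a' haa
      by_contra hne
      refine h (a - a') (sub_ne_zero.2 hne) ?_
      rw [sub_smul, sub_eq_zero]
      exact haa
    exact not_finite_iff_infinite.2 (Infinite.of_injective _ this) hL
  have h2 := rank_quotient_add_rank_of_isDomain L
  rw [h1, zero_add, rank_eq_card_basis b, rank_eq_card_basis c] at h2
  have h3 : n = d := by simpa using h2
  exact ⟨h3 ▸ c⟩

end Pool.Agent.R901.QZ
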