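import Pool.Agent.R901.QZ.Ring

/-!
# The number of submodules of given codimension
-/

set_option autoImplicit false
set_option linter.unusedSectionVars false
set_option linter.style.haveILetI false

open scoped ENNReal
open PowerSeries

namespace Pool.Agent.R901.QZ

universe u v w

open scoped Classical in
theorem card_of_tsum {α : Type u} (p : α → Prop) (c : ℕ)
    (h : (∑' a, if p a then (1 : ℝ≥0∞) else 0) = c) :
    Finite {a // p a} ∧ Nat.card {a // p a} = c := by
  have h1 : (∑' _ : {a // p a}, (1 : ℝ≥0∞)) = c := by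
    rw [← h]
    refine (tsum_subtype {a | p a} (fun _ => (1 : ℝ≥0∞))).trans ?_
    refine tsum_congr fun a => ?_
    by_cases ha : p a
    · rw [if_pos ha, Set.indicator_of_mem (by exact ha)]
    · rw [if_neg ha, Set.indicator_of_notMem (by exact ha)]
  by_cases hf : Finite {a // p a}
  · have := Fintype.ofFinite {a // p a}
    rw [tsum_fintype, Finset.sum_const, Finset.card_univ, nsmul_eq_mul, mul_one] at h1
    rw [Nat.card_eq_fintype_card]
    exact ⟨hf, by exact_mod_cast h1⟩
  · rw [not_finite_iff_infinite] at hf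
    rw [ENNReal.tsum_const_eq_top_of_ne_zero one_ne_zero] at h1
    exact absurd h1.symm (ENNReal.natCast_ne_top c)

variable (k : Type u) [Field k]

/-- The power basis of the local ring. -/
noncomputable def bas (m : ℕ) : Module.Basis (Fin 2) k⟦X⟧ (AdjoinRoot (gp k m)) :=
  (AdjoinRoot.powerBasis' (gp_monic k m)).basis.reindex (finCongr (by
    rw [AdjoinRoot.powerBasis'_dim, gp,
      Polynomial.monic_X.natDegree_mul (Polynomial.monic_X_sub_C _), Polynomial.natDegree_X,
      Polynomial.natDegree_X_sub_C]))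

theorem bas_apply (m : ℕ) (i : Fin 2) : bas k m i = AdjoinRoot.root (gp k m) ^ (i : ℕ) := by
  rw [bas, Module.Basis.reindex_apply, PowerBasis.coe_basis, AdjoinRoot.powerBasis'_gen]
  rfl

/-- The coordinates. -/
noncomputable def coord (m : ℕ) : AdjoinRoot (gp k m) ≃ₗ[k⟦X⟧] k⟦X⟧ × k⟦X⟧ :=
  (bas k m).equivFun.trans (LinearEquiv.finTwoArrow k⟦X⟧ k⟦X⟧)

theorem coord_symm (m : ℕ) (a b : k⟦X⟧) :
    (coord k m).symm (a, b) = AdjoinRoot.of (gp k m) a + AdjoinRoot.of (gp k m) b *
      AdjoinRoot.root (gp k m) := by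
  show (bas k m).equivFun.symm ((LinearEquiv.finTwoArrow k⟦X⟧ k⟦X⟧).symm (a, b)) = _
  rw [Module.Basis.equivFun_symm_apply, Fin.sum_univ_two, bas_apply, bas_apply]
  simp [Algebra.smul_def]

theorem root_mul_root (m : ℕ) : AdjoinRoot.root (gp k m) * AdjoinRoot.root (gp k m) =
    AdjoinRoot.of (gp k m) ((X : k⟦X⟧) ^ m) * AdjoinRoot.root (gp k m) := by
  have h := AdjoinRoot.mk_self (f := gp k m)
  have h1 : AdjoinRoot.mk (gp k m) (gp k m) = AdjoinRoot.root (gp k m) *
      (AdjoinRoot.root (gp k m) - AdjoinRoot.of (gp k m) ((X : k⟦X⟧) ^ m)) := by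
    show AdjoinRoot.mk (gp k m) (Polynomial.X * (Polynomial.X - Polynomial.C ((X : k⟦X⟧) ^ m))) = _
    rw [map_mul, map_sub, AdjoinRoot.mk_X, AdjoinRoot.mk_C]
  rw [h1, mul_sub, sub_eq_zero, mul_comm (AdjoinRoot.root (gp k m)) (AdjoinRoot.of _ _)] at h
  exact h

theorem root_mul (m : ℕ) (x : AdjoinRoot (gp k m)) :
    coord k m (AdjoinRoot.root (gp k m) * x) =
      (0, (coord k m x).1 + (X : k⟦X⟧) ^ m * (coord k m x).2) := by
  rw [← LinearEquiv.eq_symm_apply, coord_symm, map_zero, zero_add, map_add, map_mul]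
  have h1 : x = AdjoinRoot.of (gp k m) (coord k m x).1 + AdjoinRoot.of (gp k m) (coord k m x).2 *
      AdjoinRoot.root (gp k m) := by
    rw [← coord_symm]
    simp
  conv_lhs => rw [h1]
  rw [mul_add, ← mul_assoc, mul_comm (AdjoinRoot.root (gp k m)) (AdjoinRoot.of _ _),
    mul_comm (AdjoinRoot.root (gp k m)) (AdjoinRoot.of _ _), mul_assoc, root_mul_root]
  ring

/-- The coordinates of the local ring. -/
noncomputable def crd {m : ℕ} (hm : 1 ≤ m) : Germ k m ≃+ k⟦X⟧ × k⟦X⟧ :=
  (germEquiv k hm).toAddEquiv.trans (coord k m).toAddEquiv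

theorem crd_apply {m : ℕ} (hm : 1 ≤ m) (x : Germ k m) :
    crd k hm x = coord k m (germEquiv k hm x) := rfl

/-- The coordinates of the elements of the free module. -/
noncomputable def Psi {m : ℕ} (hm : 1 ≤ m) (d : ℕ) :
    (Fin d → Germ k m) ≃+ (Fin d → k⟦X⟧) × (Fin d → k⟦X⟧) where
  toFun x := (fun i => (crd k hm (x i)).1, fun i => (crd k hm (x i)).2)
  invFun y := fun i => (crd k hm).symm (y.1 i, y.2 i)
  left_inv x := by
    funext i
    exact (crd k hm).symm_apply_apply (x i)
  right_inv y := by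
    refine Prod.ext ?_ ?_
    · funext i
      show (crd k hm ((crd k hm).symm (y.1 i, y.2 i))).1 = _
      rw [AddEquiv.apply_symm_apply]
    · funext i
      show (crd k hm ((crd k hm).symm (y.1 i, y.2 i))).2 = _
      rw [AddEquiv.apply_symm_apply]
  map_add' x y := by
    refine Prod.ext ?_ ?_
    · funext i
      show (crd k hm (x i + y i)).1 = _
      rw [map_add]
      rfl
    · funext i
      show (crd k hm (x i + y i)).2 = _
      rw [map_add]
      rfl

/-- The inclusion of `k[[x]]`. -/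
noncomputable def incl {m : ℕ} (hm : 1 ≤ m) : k⟦X⟧ →+* Germ k m :=
  ((germEquiv k hm).symm : AdjoinRoot (gp k m) →+* Germ k m).comp (AdjoinRoot.of (gp k m))

theorem germ_incl {m : ℕ} (hm : 1 ≤ m) (s : k⟦X⟧) :
    germEquiv k hm (incl k hm s) = AdjoinRoot.of (gp k m) s := by
  rw [incl]
  simp

theorem crd_incl_mul {m : ℕ} (hm : 1 ≤ m) (s : k⟦X⟧) (x : Germ k m) :
    crd k hm (incl k hm s * x) = s • crd k hm x := by
  rw [crd_apply, map_mul, germ_incl, crd_apply, ← map_smul]
  congr 1
  rw [Algebra.smul_def]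
  rfl

theorem crd_y_mul {m : ℕ} (hm : 1 ≤ m) (x : Germ k m) :
    crd k hm (Ideal.Quotient.mk _ (MvPowerSeries.X 0) * x) =
      (0, (crd k hm x).1 + (X : k⟦X⟧) ^ m * (crd k hm x).2) := by
  rw [crd_apply, map_mul, germEquiv_y, crd_apply, root_mul]

theorem exists_submodule_equiv {m : ℕ} (hm : 1 ≤ m) (d : ℕ) :
    ∃ e : Submodule (Germ k m) (Fin d → Germ k m) ≃
      {L : Submodule k⟦X⟧ ((Fin d → k⟦X⟧) × (Fin d → k⟦X⟧)) // Stable m L},
      ∀ L, Nat.card (((Fin d → k⟦X⟧) × (Fin d → k⟦X⟧)) ⧸ (e L).1) =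
        Nat.card ((Fin d → Germ k m) ⧸ L) := by
  refine exists_transport (Psi k hm d) (incl k hm) (Ideal.Quotient.mk _ (MvPowerSeries.X 0))
    (fun x => ((0 : Fin d → k⟦X⟧), x.1 + (X : k⟦X⟧) ^ m • x.2)) ?_ ?_ ?_
  · intro s x
    refine Prod.ext ?_ ?_
    · funext i
      show (crd k hm (incl k hm s * x i)).1 = s * (crd k hm (x i)).1
      rw [crd_incl_mul]
      rfl
    · funext i
      show (crd k hm (incl k hm s * x i)).2 = s * (crd k hm (x i)).2
      rw [crd_incl_mul]
      rfl
  · intro x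
    refine Prod.ext ?_ ?_
    · funext i
      show (crd k hm (Ideal.Quotient.mk _ (MvPowerSeries.X 0) * x i)).1 = 0
      rw [crd_y_mul]
    · funext i
      show (crd k hm (Ideal.Quotient.mk _ (MvPowerSeries.X 0) * x i)).2 =
        (crd k hm (x i)).1 + (X : k⟦X⟧) ^ m * (crd k hm (x i)).2
      rw [crd_y_mul]
  · intro r
    refine ⟨(crd k hm r).1, (crd k hm r).2, ?_⟩
    refine (germEquiv k hm).injective ?_
    rw [map_add, map_mul, germ_incl, germ_incl, germEquiv_y, ← coord_symm, crd_apply]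
    simp

variable [Finite k]

theorem count {m : ℕ} (hm : 1 ≤ m) (d n : ℕ) :
    Finite {L : Submodule (Germ k m) (Fin d → Germ k m) //
      Nat.card ((Fin d → Germ k m) ⧸ L) = Nat.card k ^ n} ∧
    Nat.card {L : Submodule (Germ k m) (Fin d → Germ k m) //
      Nat.card ((Fin d → Germ k m) ⧸ L) = Nat.card k ^ n} = coeff n (ZN (Nat.card k) d m) := by
  classical
  obtain ⟨e, he⟩ := exists_submodule_equiv k hm d
  have h1 := congrArg (coeff n) (ZS_eq_map (k := k) (Pi.basisFun k⟦X⟧ (Fin d)) m)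
  rw [ZS, ← S_equiv e, coeff_S, coeff_map] at h1
  refine card_of_tsum _ _ (Eq.trans ?_ h1)
  refine tsum_congr fun L => ?_
  rw [he, wt, coeff_mk]
  split_ifs <;> rfl

theorem rank_eq_iff (M : Type v) [AddCommGroup M] [Module k M] (n : ℕ) :
    Module.rank k M = n ↔ Nat.card M = Nat.card k ^ n := by
  have hq : 1 < Nat.card k := Finite.one_lt_card
  constructor
  · intro h
    have hf : Module.Finite k M := by
      rw [← Module.rank_lt_aleph0_iff, h]
      exact Cardinal.natCast_lt_aleph0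
    rw [Module.natCard_eq_pow_finrank (K := k)]
    congr 1
    exact Module.finrank_eq_of_rank_eq h
  · intro h
    have hf : Finite M := Nat.finite_of_card_ne_zero (by
      rw [h]; exact pow_ne_zero _ (zero_lt_one.trans hq).ne')
    have : Module.Finite k M := Module.Finite.of_finite
    rw [← Module.finrank_eq_rank]
    rw [Module.natCard_eq_pow_finrank (K := k)] at h
    exact_mod_cast Nat.pow_right_injective hq h

/-- The two descriptions of the points. -/
noncomputable def pointsEquiv (m d n : ℕ) : QuotPoints k m d n ≃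
    {L : Submodule (Germ k m) (Fin d → Germ k m) //
      Nat.card ((Fin d → Germ k m) ⧸ L) = Nat.card k ^ n} :=
  Equiv.subtypeEquivRight fun L => rank_eq_iff k _ n

theorem finite_points {m : ℕ} (hm : 1 ≤ m) (d n : ℕ) : Finite (QuotPoints k m d n) := by
  have := (count k hm d n).1
  exact Finite.of_equiv _ (pointsEquiv k m d n).symm

theorem card_points {m : ℕ} (hm : 1 ≤ m) (d n : ℕ) :
    Nat.card (QuotPoints k m d n) = coeff n (ZN (Nat.card k) d m) := by
  rw [Nat.card_congr (pointsEquiv k m d n), (count k hm d n).2]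

theorem NZ_eq {m : ℕ} (hm : 1 ≤ m) (d : ℕ) : NZ k m d =
    D (Nat.card k) d ^ 2 * PowerSeries.map (Nat.castRingHom ℤ) (ZN (Nat.card k) d m) := by
  rw [NZ, D]
  congr 1
  ext n
  rw [coeff_mk, coeff_map, card_points k hm]
  rfl

theorem main_Q1 {m : ℕ} (hm : 1 ≤ m) (d n : ℕ) :
    (-1) ^ n * coeff n (NZ k m d) = ((((num m d).coeff n).eval (Nat.card k) : ℕ) : ℤ) := by
  rw [NZ_eq k hm, main_numerator]

end Pool.Agent.R901.QZ
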