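import Mathlib

/-!
# Module structures and quotients of free modules
-/

set_option autoImplicit false
set_option linter.unusedSectionVars false
set_option linter.style.haveILetI false

namespace Pool.Agent.R901.QZ

universe u v w

section ev

variable {k : Type u} [Field k] {A : Type v} [CommRing A] [Algebra k A] {M : Type w}
  [AddCommGroup M] [Module k M] {d : ℕ}

/-- The map `A ^ d → M` given by a module structure and a family of elements. -/
noncomputable def ev (ρ : A →ₐ[k] Module.End k M) (v : Fin d → M) : (Fin d → A) →ₗ[k] M where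
  toFun a := ∑ i, ρ (a i) (v i)
  map_add' a b := by
    rw [← Finset.sum_add_distrib]
    refine Finset.sum_congr rfl fun i _ => ?_
    rw [Pi.add_apply, map_add, LinearMap.add_apply]
  map_smul' c a := by
    rw [RingHom.id_apply, Finset.smul_sum]
    refine Finset.sum_congr rfl fun i _ => ?_
    rw [Pi.smul_apply, map_smul, LinearMap.smul_apply]

theorem ev_apply (ρ : A →ₐ[k] Module.End k M) (v : Fin d → M) (a : Fin d → A) :
    ev ρ v a = ∑ i, ρ (a i) (v i) := rfl

theorem ev_smul (ρ : A →ₐ[k] Module.End k M) (v : Fin d → M) (c : A) (a : Fin d → A) :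
    ev ρ v (c • a) = ρ c (ev ρ v a) := by
  rw [ev_apply, ev_apply, map_sum]
  refine Finset.sum_congr rfl fun i _ => ?_
  rw [Pi.smul_apply, smul_eq_mul, map_mul]
  rfl

theorem ev_single (ρ : A →ₐ[k] Module.End k M) (v : Fin d → M) (i : Fin d) :
    ev ρ v (Pi.single i 1) = v i := by
  classical
  rw [ev_apply, Finset.sum_eq_single i]
  · rw [Pi.single_eq_same, map_one]
    rfl
  · intro j _ hj
    rw [Pi.single_eq_of_ne hj, map_zero]
    rfl
  · intro h
    exact absurd (Finset.mem_univ i) h

/-- The kernel. -/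
noncomputable def evKer (ρ : A →ₐ[k] Module.End k M) (v : Fin d → M) : Submodule A (Fin d → A) where
  carrier := {a | ev ρ v a = 0}
  zero_mem' := map_zero _
  add_mem' {a b} ha hb := by
    show ev ρ v (a + b) = 0
    rw [map_add, show ev ρ v a = 0 from ha, show ev ρ v b = 0 from hb, add_zero]
  smul_mem' c a ha := by
    show ev ρ v (c • a) = 0
    rw [ev_smul, show ev ρ v a = 0 from ha, map_zero]

/-- The isomorphism of the quotient with `M`. -/
noncomputable def evIso (ρ : A →ₐ[k] Module.End k M) (v : Fin d → M)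
    (h : Function.Surjective (ev ρ v)) : ((Fin d → A) ⧸ evKer ρ v) ≃ₗ[k] M :=
  (Submodule.Quotient.restrictScalarsEquiv k (evKer ρ v)).symm.trans
    ((Submodule.quotEquivOfEq _ _ (by
      ext a
      rfl)).trans ((ev ρ v).quotKerEquivOfSurjective h))

theorem evIso_mk (ρ : A →ₐ[k] Module.End k M) (v : Fin d → M)
    (h : Function.Surjective (ev ρ v)) (a : Fin d → A) :
    evIso ρ v h (Submodule.Quotient.mk a) = ev ρ v a := rfl

/-- The module structure on `M` given by an isomorphism with a quotient of `A ^ d`. -/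
noncomputable def ofIso (L : Submodule A (Fin d → A)) (φ : ((Fin d → A) ⧸ L) ≃ₗ[k] M) :
    A →ₐ[k] Module.End k M :=
  (φ.conjAlgEquiv k).toAlgHom.comp (Algebra.lsmul k k ((Fin d → A) ⧸ L))

theorem ofIso_apply (L : Submodule A (Fin d → A)) (φ : ((Fin d → A) ⧸ L) ≃ₗ[k] M) (a : A)
    (x : M) : ofIso L φ a x = φ (a • φ.symm x) := rfl

theorem ev_ofIso (L : Submodule A (Fin d → A)) (φ : ((Fin d → A) ⧸ L) ≃ₗ[k] M)
    (a : Fin d → A) :
    ev (ofIso L φ) (fun i => φ (Submodule.Quotient.mk (Pi.single i 1))) a =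
      φ (Submodule.Quotient.mk a) := by
  classical
  rw [ev_apply]
  have h1 : ∀ i, ofIso L φ (a i) (φ (Submodule.Quotient.mk (Pi.single i 1))) =
      φ (Submodule.Quotient.mk (Pi.single i (a i))) := by
    intro i
    rw [ofIso_apply, LinearEquiv.symm_apply_apply, ← Submodule.Quotient.mk_smul]
    congr 2
    rw [← Pi.single_smul, smul_eq_mul, mul_one]
  rw [Finset.sum_congr rfl fun i _ => h1 i, ← map_sum]
  congr 1
  have h2 : (∑ i, (Submodule.Quotient.mk (Pi.single i (a i)) : (Fin d → A) ⧸ L)) =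
      L.mkQ (∑ i, Pi.single i (a i)) := by
    rw [map_sum]
    rfl
  rw [h2, Finset.univ_sum_single]
  rfl

variable (k A M d) in
/-- Module structures on `M` with `d` generators. -/
def GenPairs : Type _ :=
  {x : (A →ₐ[k] Module.End k M) × (Fin d → M) // Function.Surjective (ev x.1 x.2)}

variable (k A M d) in
/-- Quotients of `A ^ d` isomorphic to `M`. -/
def Quots : Type _ :=
  {L : Submodule A (Fin d → A) // Nonempty (((Fin d → A) ⧸ L) ≃ₗ[k] M)}

/-- From quotients to pairs. -/
noncomputable def toPair (x : Σ L : Quots k A M d, ((Fin d → A) ⧸ L.1) ≃ₗ[k] M) :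
    GenPairs k A M d :=
  ⟨(ofIso x.1.1 x.2, fun i => x.2 (Submodule.Quotient.mk (Pi.single i 1))), by
    intro y
    obtain ⟨a, ha⟩ := Submodule.Quotient.mk_surjective _ (x.2.symm y)
    refine ⟨a, ?_⟩
    show ev (ofIso x.1.1 x.2) (fun i => x.2 (Submodule.Quotient.mk (Pi.single i 1))) a = y
    rw [ev_ofIso, ha, LinearEquiv.apply_symm_apply]⟩

theorem toPair_bijective : Function.Bijective (toPair (k := k) (A := A) (M := M) (d := d)) := by
  constructor
  · rintro ⟨⟨L, hL⟩, φ⟩ ⟨⟨L', hL'⟩, φ'⟩ h
    have h1 : ofIso L φ = ofIso L' φ' := congrArg (fun x => x.1.1) h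
    have h2 : (fun i => φ (Submodule.Quotient.mk (Pi.single i 1))) =
        fun i => φ' (Submodule.Quotient.mk (Pi.single i 1)) := congrArg (fun x => x.1.2) h
    have h3 : ∀ a, φ (Submodule.Quotient.mk a) = φ' (Submodule.Quotient.mk a) := by
      intro a
      rw [← ev_ofIso, ← ev_ofIso, h1, h2]
    have h4 : L = L' := by
      ext a
      rw [← Submodule.Quotient.mk_eq_zero, ← Submodule.Quotient.mk_eq_zero (p := L'),
        ← φ.map_eq_zero_iff, ← φ'.map_eq_zero_iff, h3]
    subst h4
    have h5 : φ = φ' := by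
      ext x
      obtain ⟨a, rfl⟩ := Submodule.Quotient.mk_surjective _ x
      exact h3 a
    subst h5
    rfl
  · rintro ⟨⟨ρ, v⟩, h⟩
    refine ⟨⟨⟨evKer ρ v, ⟨evIso ρ v h⟩⟩, evIso ρ v h⟩, ?_⟩
    refine Subtype.ext (Prod.ext ?_ ?_)
    · ext a y
      show evIso ρ v h (a • (evIso ρ v h).symm y) = ρ a y
      obtain ⟨b, rfl⟩ := h y
      have h1 : (evIso ρ v h).symm (ev ρ v b) = Submodule.Quotient.mk b := by
        rw [LinearEquiv.symm_apply_eq, evIso_mk]
      show evIso ρ v h (a • (evIso ρ v h).symm (ev ρ v b)) = ρ a (ev ρ v b)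
      rw [h1, ← Submodule.Quotient.mk_smul, evIso_mk, ev_smul]
    · funext i
      show evIso ρ v h (Submodule.Quotient.mk (Pi.single i 1)) = v i
      rw [evIso_mk, ev_single]

/-- Pairs and quotients. -/
noncomputable def pairEquiv : GenPairs k A M d ≃ Quots k A M d × (M ≃ₗ[k] M) :=
  (Equiv.ofBijective _ toPair_bijective).symm.trans
    ((Equiv.sigmaCongrRight fun L =>
      { toFun := fun φ => (Classical.choice L.2).symm.trans φ
        invFun := fun ψ => (Classical.choice L.2).trans ψ
        left_inv := fun φ => by ext x; simp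
        right_inv := fun ψ => by ext x; simp }).trans (Equiv.sigmaEquivProd _ _))

end ev

section limit

variable {k : Type u} [Field k] [Finite k] {A : Type v} [CommRing A] [Algebra k A] {M : Type w}
  [AddCommGroup M] [Module k M] [Finite M]

theorem finite_structures {n : ℕ} (v : Fin n → M) (hv : Submodule.span k (Set.range v) = ⊤)
    (h : Finite (Quots k A M n)) : Finite (A →ₐ[k] Module.End k M) := by
  have h1 : Finite (M ≃ₗ[k] M) := Finite.of_injective (fun φ : M ≃ₗ[k] M => (φ : M → M))
    DFunLike.coe_injective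
  have h2 : Finite (GenPairs k A M n) := Finite.of_equiv _ pairEquiv.symm
  have h3 : ∀ ρ : A →ₐ[k] Module.End k M, Function.Surjective (ev ρ v) := by
    intro ρ
    rw [← LinearMap.range_eq_top, ← top_le_iff, ← hv, Submodule.span_le]
    rintro x ⟨i, rfl⟩
    exact ⟨Pi.single i 1, ev_single ρ v i⟩
  exact Finite.of_injective (β := GenPairs k A M n) (fun ρ : A →ₐ[k] Module.End k M =>
    (⟨(ρ, v), h3 ρ⟩ : GenPairs k A M n)) fun ρ ρ' h =>
      congrArg (fun x : GenPairs k A M n => x.1.1) h

/-- The number of the families of `d` elements that generate `M`. -/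
noncomputable def spanCount (k : Type u) (M : Type w) [Field k] [AddCommGroup M] [Module k M]
    (d : ℕ) : ℕ := Nat.card {v : Fin d → M // Submodule.span k (Set.range v) = ⊤}

theorem spanCount_le (d : ℕ) :
    (Nat.card M : ℝ) ^ d - ∑ᶠ W : {W : Submodule k M // W ≠ ⊤}, (Nat.card W.1 : ℝ) ^ d ≤
      spanCount k M d := by
  classical
  have := Fintype.ofFinite M
  have hfin : Finite (Submodule k M) :=
    Finite.of_injective (fun W : Submodule k M => (W : Set M)) SetLike.coe_injective
  have := Fintype.ofFinite {W : Submodule k M // W ≠ ⊤}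
  rw [finsum_eq_sum_of_fintype]
  have h1 : Nat.card (Fin d → M) = Nat.card {v : Fin d → M // Submodule.span k (Set.range v) = ⊤} +
      Nat.card {v : Fin d → M // ¬ Submodule.span k (Set.range v) = ⊤} := by
    rw [← Nat.card_sum]
    exact Nat.card_congr (Equiv.sumCompl _).symm
  have h2 : Nat.card {v : Fin d → M // ¬ Submodule.span k (Set.range v) = ⊤} ≤
      Nat.card (Σ W : {W : Submodule k M // W ≠ ⊤}, (Fin d → W.1)) := by
    refine Nat.card_le_card_of_injective (fun v => ⟨⟨_, v.2⟩, fun i =>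
      ⟨v.1 i, Submodule.subset_span ⟨i, rfl⟩⟩⟩) ?_
    rintro ⟨v, hv⟩ ⟨v', hv'⟩ h
    refine Subtype.ext (funext fun i => ?_)
    have h3 := congrArg (fun x : (Σ W : {W : Submodule k M // W ≠ ⊤}, (Fin d → W.1)) =>
      ((x.2 i : x.1.1) : M)) h
    exact h3
  rw [Nat.card_sigma] at h2
  have h3 : ∀ W : {W : Submodule k M // W ≠ ⊤}, Nat.card (Fin d → W.1) = Nat.card W.1 ^ d := by
    intro W
    rw [Nat.card_fun, Nat.card_fin]
  rw [Finset.sum_congr rfl fun W _ => h3 W] at h2
  rw [Nat.card_fun, Nat.card_fin] at h1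
  have h4 : (Nat.card M : ℝ) ^ d = spanCount k M d +
      Nat.card {v : Fin d → M // ¬ Submodule.span k (Set.range v) = ⊤} := by
    rw [spanCount]
    exact_mod_cast h1
  have h5 : (Nat.card {v : Fin d → M // ¬ Submodule.span k (Set.range v) = ⊤} : ℝ) ≤
      ∑ W : {W : Submodule k M // W ≠ ⊤}, (Nat.card W.1 : ℝ) ^ d := by
    exact_mod_cast h2
  linarith

theorem tendsto_spanCount :
    Filter.Tendsto (fun d => (spanCount k M d : ℝ) / (Nat.card M : ℝ) ^ d) Filter.atTop
      (nhds 1) := by
  classical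
  have hM : (0 : ℝ) < Nat.card M := by exact_mod_cast Nat.card_pos
  have hfin : Finite (Submodule k M) :=
    Finite.of_injective (fun W : Submodule k M => (W : Set M)) SetLike.coe_injective
  have := Fintype.ofFinite {W : Submodule k M // W ≠ ⊤}
  have h1 : Filter.Tendsto (fun d : ℕ => 1 - ∑ W : {W : Submodule k M // W ≠ ⊤},
      ((Nat.card W.1 : ℝ) / Nat.card M) ^ d) Filter.atTop (nhds (1 - ∑ W : {W : Submodule k M // W ≠ ⊤},
        (0 : ℝ))) := by
    refine Filter.Tendsto.const_sub 1 (tendsto_finsetSum _ fun W _ => ?_)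
    refine tendsto_pow_atTop_nhds_zero_of_lt_one (by positivity) ?_
    rw [div_lt_one hM]
    have h2 : Nat.card W.1 < Nat.card M := by
      have h3 : (W.1 : Set M) ≠ Set.univ := fun h => W.2 (SetLike.coe_injective h)
      have h4 := Set.ncard_lt_ncard (Set.ssubset_univ_iff.2 h3) (Set.toFinite _)
      rwa [Set.ncard_univ] at h4
    exact_mod_cast h2
  rw [Finset.sum_const_zero, sub_zero] at h1
  refine tendsto_of_tendsto_of_tendsto_of_le_of_le h1 tendsto_const_nhds ?_ ?_
  · intro d
    have h2 := spanCount_le (k := k) (M := M) d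
    rw [finsum_eq_sum_of_fintype] at h2
    show 1 - ∑ W : {W : Submodule k M // W ≠ ⊤}, ((Nat.card W.1 : ℝ) / Nat.card M) ^ d ≤ _
    rw [le_div_iff₀ (by positivity), sub_mul, one_mul, Finset.sum_mul]
    refine le_trans (le_of_eq ?_) h2
    congr 1
    refine Finset.sum_congr rfl fun W _ => ?_
    rw [div_pow, div_mul_cancel₀ _ (by positivity)]
  · intro d
    show (spanCount k M d : ℝ) / (Nat.card M : ℝ) ^ d ≤ 1
    rw [div_le_one (by positivity)]
    have h2 : spanCount k M d ≤ Nat.card M ^ d := by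
      have h3 : Nat.card M ^ d = Nat.card (Fin d → M) := by rw [Nat.card_fun, Nat.card_fin]
      rw [h3]
      exact Nat.card_le_card_of_injective (fun v => v.1) Subtype.val_injective
    exact_mod_cast h2

theorem card_pairs (d : ℕ) : Nat.card (GenPairs k A M d) =
    Nat.card (Quots k A M d) * Nat.card (M ≃ₗ[k] M) := by
  rw [Nat.card_congr pairEquiv, Nat.card_prod]

/-- **The stacky count as a limit.** -/
theorem tendsto_quots (hf : Finite (A →ₐ[k] Module.End k M)) :
    Filter.Tendsto (fun d => (Nat.card (Quots k A M d) : ℝ) / (Nat.card M : ℝ) ^ d) Filter.atTop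
      (nhds ((Nat.card (A →ₐ[k] Module.End k M) : ℝ) / Nat.card (M ≃ₗ[k] M))) := by
  have hM : (0 : ℝ) < Nat.card M := by exact_mod_cast Nat.card_pos
  have hG' : Finite (M ≃ₗ[k] M) := Finite.of_injective (fun φ : M ≃ₗ[k] M => (φ : M → M))
    DFunLike.coe_injective
  have hne : Nonempty (M ≃ₗ[k] M) := ⟨LinearEquiv.refl k M⟩
  have hG : (0 : ℝ) < Nat.card (M ≃ₗ[k] M) := by exact_mod_cast Nat.card_pos
  have h1 := (tendsto_spanCount (k := k) (M := M)).const_mul
    ((Nat.card (A →ₐ[k] Module.End k M) : ℝ) / Nat.card (M ≃ₗ[k] M))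
  rw [mul_one] at h1
  refine tendsto_of_tendsto_of_tendsto_of_le_of_le h1 tendsto_const_nhds ?_ ?_
  · intro d
    show (Nat.card (A →ₐ[k] Module.End k M) : ℝ) / Nat.card (M ≃ₗ[k] M) *
      ((spanCount k M d : ℝ) / (Nat.card M : ℝ) ^ d) ≤ _
    rw [div_mul_div_comm, div_le_div_iff₀ (by positivity) (by positivity)]
    have h2 : Nat.card (A →ₐ[k] Module.End k M) * spanCount k M d ≤
        Nat.card (Quots k A M d) * Nat.card (M ≃ₗ[k] M) := by
      rw [← card_pairs, spanCount, ← Nat.card_prod]
      have : Finite (GenPairs k A M d) := by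
        unfold GenPairs
        infer_instance
      refine Nat.card_le_card_of_injective (fun x => (⟨(x.1, x.2.1), ?_⟩ : GenPairs k A M d)) ?_
      · show Function.Surjective (ev x.1 x.2.1)
        rw [← LinearMap.range_eq_top, ← top_le_iff]
        refine x.2.2.ge.trans (Submodule.span_le.2 ?_)
        rintro _ ⟨i, rfl⟩
        exact ⟨Pi.single i 1, ev_single _ _ i⟩
      · rintro ⟨ρ, v⟩ ⟨ρ', v'⟩ h
        have h3 := congrArg (fun x : GenPairs k A M d => x.1.1) h
        have h4 := congrArg (fun x : GenPairs k A M d => x.1.2) h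
        exact Prod.ext h3 (Subtype.ext h4)
    have h3 : (Nat.card (A →ₐ[k] Module.End k M) : ℝ) * spanCount k M d ≤
        Nat.card (Quots k A M d) * Nat.card (M ≃ₗ[k] M) := by exact_mod_cast h2
    calc (Nat.card (A →ₐ[k] Module.End k M) : ℝ) * spanCount k M d * (Nat.card M : ℝ) ^ d
        ≤ (Nat.card (Quots k A M d) * Nat.card (M ≃ₗ[k] M)) * (Nat.card M : ℝ) ^ d :=
          mul_le_mul_of_nonneg_right h3 (by positivity)
      _ = _ := by ring
  · intro d
    show (Nat.card (Quots k A M d) : ℝ) / (Nat.card M : ℝ) ^ d ≤ _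
    rw [div_le_div_iff₀ (by positivity) hG]
    have h2 : Nat.card (Quots k A M d) * Nat.card (M ≃ₗ[k] M) ≤
        Nat.card (A →ₐ[k] Module.End k M) * Nat.card M ^ d := by
      have h3 : Nat.card M ^ d = Nat.card (Fin d → M) := by rw [Nat.card_fun, Nat.card_fin]
      rw [← card_pairs, h3, ← Nat.card_prod]
      exact Nat.card_le_card_of_injective (fun x : GenPairs k A M d => x.1)
        Subtype.val_injective
    exact_mod_cast h2

end limit

end Pool.Agent.R901.QZ
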