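import Pool.Agent.R901.QZ.Base

/-!
# Submodules with given sum with a fixed submodule
-/

set_option autoImplicit false
set_option linter.unusedSectionVars false
set_option linter.style.haveILetI false

open scoped ENNReal
open PowerSeries

namespace Pool.Agent.R901.QZ

universe u v w

variable {k : Type u} [Field k]

section tl

variable {M : Type v} [AddCommGroup M] [Module k⟦X⟧ M]

/-- `X ^ n B`. -/
noncomputable def tl (n : ℕ) (B : Submodule k⟦X⟧ M) : Submodule k⟦X⟧ M :=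
  B.map (LinearMap.lsmul k⟦X⟧ M ((X : k⟦X⟧) ^ n))

theorem mem_tl {n : ℕ} {B : Submodule k⟦X⟧ M} {x : M} :
    x ∈ tl n B ↔ ∃ b ∈ B, (X : k⟦X⟧) ^ n • b = x := by
  rw [tl, Submodule.mem_map]
  rfl

theorem tl_le (n : ℕ) (B : Submodule k⟦X⟧ M) : tl n B ≤ B := by
  intro x hx
  obtain ⟨b, hb, rfl⟩ := mem_tl.1 hx
  exact B.smul_mem _ hb

theorem tl_sup (n : ℕ) (B C : Submodule k⟦X⟧ M) : tl n (B ⊔ C) = tl n B ⊔ tl n C :=
  Submodule.map_sup _ _ _

theorem tl_mono (n : ℕ) {B C : Submodule k⟦X⟧ M} (h : B ≤ C) : tl n B ≤ tl n C :=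
  Submodule.map_mono h

theorem tl_tl (m n : ℕ) (B : Submodule k⟦X⟧ M) : tl m (tl n B) = tl (m + n) B := by
  ext x
  rw [mem_tl, mem_tl]
  constructor
  · rintro ⟨b, hb, rfl⟩
    obtain ⟨c, hc, rfl⟩ := mem_tl.1 hb
    exact ⟨c, hc, by rw [smul_smul, pow_add]⟩
  · rintro ⟨b, hb, rfl⟩
    exact ⟨_, mem_tl.2 ⟨b, hb, rfl⟩, by rw [smul_smul, pow_add]⟩

theorem tl_zero (B : Submodule k⟦X⟧ M) : tl 0 B = B := by
  ext x
  rw [mem_tl]
  simp

/-- The lemma of Nakayama. -/
theorem nakayama {B N : Submodule k⟦X⟧ M} (hB : B.FG) (h : B ≤ N ⊔ tl 1 B) : B ≤ N := by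
  refine Submodule.le_of_le_smul_of_le_jacobson_bot (I := IsLocalRing.maximalIdeal k⟦X⟧) hB
    (IsLocalRing.maximalIdeal_le_jacobson _) (h.trans (sup_le_sup_left ?_ _))
  intro x hx
  obtain ⟨b, hb, rfl⟩ := mem_tl.1 hx
  refine Submodule.smul_mem_smul ?_ hb
  rw [pow_one, IsLocalRing.mem_maximalIdeal, mem_nonunits_iff]
  exact X_prime.not_isUnit

theorem nakayama_top [Module.Finite k⟦X⟧ M] {N : Submodule k⟦X⟧ M}
    (h : N ⊔ tl 1 ⊤ = ⊤) : N = ⊤ :=
  top_le_iff.1 (nakayama Module.Finite.fg_top h.ge)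

end tl

variable [Finite k]

theorem X_smul_eq_zero {M : Type v} [AddCommGroup M] [Module k⟦X⟧ M] {K : Submodule k⟦X⟧ M}
    (hK : tl 1 ⊤ ≤ K) (x : M ⧸ K) : (X : k⟦X⟧) • x = 0 := by
  obtain ⟨x, rfl⟩ := Submodule.Quotient.mk_surjective _ x
  rw [← Submodule.Quotient.mk_smul, Submodule.Quotient.mk_eq_zero]
  exact hK (mem_tl.2 ⟨x, trivial, by rw [pow_one]⟩)

/-- A presentation of a quotient killed by `X`. -/
theorem exists_pres {Q : Type v} [AddCommGroup Q] [Module k⟦X⟧ Q]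
    (hQ : ∀ x : Q, (X : k⟦X⟧) • x = 0) {r : ℕ} (hr : Nat.card Q = Nat.card k ^ r) :
    ∃ π : (Fin r → k⟦X⟧) →ₗ[k⟦X⟧] Q, Function.Surjective π ∧
      ∀ x, π x = 0 ↔ ∀ i, (X : k⟦X⟧) ∣ x i := by
  letI : Module k Q := Module.compHom Q (PowerSeries.C : k →+* k⟦X⟧)
  have hs : ∀ (s : k⟦X⟧) (x : Q), s • x = (constantCoeff s) • x := by
    intro s x
    have h1 : (X : k⟦X⟧) ∣ s - C (constantCoeff s) := by
      rw [X_dvd_iff, map_sub]
      simp
    obtain ⟨t, ht⟩ := h1
    have h2 : s = C (constantCoeff s) + X * t := by rw [← ht]; ring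
    have h3 : s • x = (C (constantCoeff s) + X * t) • x := by rw [← h2]
    rw [h3, add_smul, mul_comm, mul_smul, hQ, smul_zero, add_zero]
    rfl
  have hfin : Finite Q := Nat.finite_of_card_ne_zero (by
    rw [hr]; exact pow_ne_zero _ (zero_lt_one.trans (one_lt_q k)).ne')
  have : Module.Finite k Q := Module.Finite.of_finite
  have hrk : Module.finrank k Q = r := by
    have h1 := Module.natCard_eq_pow_finrank (K := k) (V := Q)
    rw [hr] at h1
    exact (Nat.pow_right_injective (one_lt_q k) h1).symm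
  let e : Module.Basis (Fin r) k Q := Module.finBasisOfFinrankEq k Q hrk
  refine ⟨(Pi.basisFun k⟦X⟧ (Fin r)).constr ℕ e, ?_, ?_⟩
  · intro y
    refine ⟨fun i => C (e.repr y i), ?_⟩
    rw [Module.Basis.constr_apply_fintype]
    refine Eq.trans ?_ (e.sum_repr y)
    refine Finset.sum_congr rfl fun i _ => ?_
    rw [Pi.basisFun_equivFun]
    rfl
  · intro x
    rw [Module.Basis.constr_apply_fintype]
    have h1 : ∑ i, (Pi.basisFun k⟦X⟧ (Fin r)).equivFun x i • e i =
        ∑ i, (constantCoeff (x i)) • e i := by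
      refine Finset.sum_congr rfl fun i _ => ?_
      rw [Pi.basisFun_equivFun, hs]
      rfl
    rw [h1]
    constructor
    · intro h i
      rw [X_dvd_iff]
      exact Fintype.linearIndependent_iff.1 e.linearIndependent _ h i
    · intro h
      refine Finset.sum_eq_zero fun i _ => ?_
      rw [X_dvd_iff.1 (h i), zero_smul]

/-- The main decomposition. -/
theorem decomp {M : Type v} [AddCommGroup M] [Module k⟦X⟧ M] {d : ℕ}
    (b : Module.Basis (Fin d) k⟦X⟧ M) (K₀ : Submodule k⟦X⟧ M) {r : ℕ}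
    (hr : Nat.card (M ⧸ (K₀ ⊔ tl 1 ⊤)) = Nat.card k ^ r) :
    r ≤ d ∧ ∃ (Y : Submodule k⟦X⟧ M) (_ : Nonempty (Module.Basis (Fin (d - r)) k⟦X⟧ Y))
      (e : M ≃ₗ[k⟦X⟧] (Fin r → k⟦X⟧) × Y), ∀ L : Submodule k⟦X⟧ M,
        L ⊔ K₀ = ⊤ ↔ pr (L.map (e : M →ₗ[k⟦X⟧] (Fin r → k⟦X⟧) × Y)) = ⊤ := by
  have hfree : Module.Free k⟦X⟧ M := Module.Free.of_basis b
  have hfinite : Module.Finite k⟦X⟧ M := Module.Finite.of_basis b
  obtain ⟨π, hπ, hπ'⟩ := exists_pres (k := k) (Q := M ⧸ (K₀ ⊔ tl 1 ⊤))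
    (X_smul_eq_zero le_sup_right) hr
  obtain ⟨p, hp⟩ := Module.projective_lifting_property π (K₀ ⊔ tl 1 ⊤).mkQ hπ
  have hp' : ∀ x, π (p x) = Submodule.Quotient.mk x := fun x => LinearMap.congr_fun hp x
  have hpm : ∀ x, x ∈ K₀ ⊔ tl 1 ⊤ ↔ ∀ i, (X : k⟦X⟧) ∣ p x i := by
    intro x
    rw [← hπ' (p x), hp', Submodule.Quotient.mk_eq_zero]
  -- the elements of `X S ^ r`
  have hX : ∀ a : Fin r → k⟦X⟧, (∀ i, (X : k⟦X⟧) ∣ a i) → a ∈ tl 1 (⊤ : Submodule k⟦X⟧ _) := by
    intro a ha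
    choose c hc using ha
    refine mem_tl.2 ⟨c, trivial, ?_⟩
    ext1 i
    rw [pow_one, Pi.smul_apply, smul_eq_mul, hc]
  have hX' : ∀ a : Fin r → k⟦X⟧, a ∈ tl 1 (⊤ : Submodule k⟦X⟧ _) → (∀ i, (X : k⟦X⟧) ∣ a i) := by
    intro a ha i
    obtain ⟨c, -, rfl⟩ := mem_tl.1 ha
    rw [pow_one, Pi.smul_apply, smul_eq_mul]
    exact Dvd.intro _ rfl
  have hsurj : Function.Surjective p := by
    rw [← LinearMap.range_eq_top]
    refine nakayama_top (top_le_iff.1 fun a _ => ?_)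
    obtain ⟨x, hx⟩ := Submodule.Quotient.mk_surjective _ (π a)
    have h1 : π (a - p x) = 0 := by rw [map_sub, hp', hx, sub_self]
    have h2 := hX _ ((hπ' _).1 h1)
    have h3 : a = p x + (a - p x) := by abel
    rw [h3]
    exact Submodule.add_mem_sup ⟨x, rfl⟩ h2
  obtain ⟨s, hs⟩ := Module.projective_lifting_property p LinearMap.id hsurj
  have hs' : ∀ a, p (s a) = a := fun a => LinearMap.congr_fun hs a
  let Y : Submodule k⟦X⟧ M := LinearMap.ker p
  let e : M ≃ₗ[k⟦X⟧] (Fin r → k⟦X⟧) × Y :=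
    { toFun := fun x => (p x, ⟨x - s (p x), by
        rw [LinearMap.mem_ker, map_sub, hs', sub_self]⟩)
      map_add' := fun x y => by
        refine Prod.ext (map_add p x y) (Subtype.ext ?_)
        show x + y - s (p (x + y)) = (x - s (p x)) + (y - s (p y))
        rw [map_add, map_add]
        abel
      map_smul' := fun a x => by
        refine Prod.ext (map_smul p a x) (Subtype.ext ?_)
        show a • x - s (p (a • x)) = a • (x - s (p x))
        rw [map_smul, map_smul, smul_sub]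
      invFun := fun y => s y.1 + y.2
      left_inv := fun x => by
        show s (p x) + (x - s (p x)) = x
        abel
      right_inv := fun y => by
        have hy : p (y.2 : M) = 0 := y.2.2
        refine Prod.ext ?_ (Subtype.ext ?_)
        · show p (s y.1 + y.2) = y.1
          rw [map_add, hs', hy, add_zero]
        · show s y.1 + y.2 - s (p (s y.1 + y.2)) = y.2
          rw [map_add, hs', hy, add_zero]
          abel }
  obtain ⟨n, ⟨c⟩⟩ := Submodule.nonempty_basis_of_pid b Y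
  have hrank : d = r + n := by
    have h1 := e.finrank_eq
    have hY : Module.Free k⟦X⟧ Y := Module.Free.of_basis c
    have hY' : Module.Finite k⟦X⟧ Y := Module.Finite.of_basis c
    rw [Module.finrank_prod, Module.finrank_eq_card_basis b, Module.finrank_eq_card_basis c,
      Module.finrank_fin_fun, Fintype.card_fin, Fintype.card_fin] at h1
    exact h1
  refine ⟨by omega, Y, ⟨?_⟩, e, ?_⟩
  · have : d - r = n := by omega
    exact this ▸ c
  · intro L
    have h1 : pr (L.map (e : M →ₗ[k⟦X⟧] (Fin r → k⟦X⟧) × Y)) = L.map p := by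
      ext a
      rw [mem_pr, Submodule.mem_map]
      constructor
      · rintro ⟨y, hy⟩
        obtain ⟨x, hx, hx'⟩ := Submodule.mem_map.1 hy
        exact ⟨x, hx, congrArg Prod.fst hx'⟩
      · rintro ⟨x, hx, rfl⟩
        exact ⟨(e x).2, Submodule.mem_map.2 ⟨x, hx, rfl⟩⟩
    rw [h1]
    constructor
    · intro h
      refine nakayama_top (top_le_iff.1 fun a _ => ?_)
      obtain ⟨x, rfl⟩ := hsurj a
      have hx : x ∈ L ⊔ K₀ := by rw [h]; trivial
      obtain ⟨l, hl, κ, hκ, rfl⟩ := Submodule.mem_sup.1 hx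
      rw [map_add]
      exact Submodule.add_mem_sup (Submodule.mem_map_of_mem hl)
        (hX _ ((hpm κ).1 (Submodule.mem_sup_left hκ)))
    · intro h
      refine nakayama_top (top_le_iff.1 fun x _ => ?_)
      have hx : p x ∈ L.map p := by rw [h]; trivial
      obtain ⟨l, hl, hl'⟩ := Submodule.mem_map.1 hx
      have h2 : x - l ∈ K₀ ⊔ tl 1 ⊤ := by
        rw [hpm, map_sub, hl', sub_self]
        exact fun i => dvd_zero _
      have h3 : x = l + (x - l) := by abel
      rw [h3, sup_assoc]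
      exact Submodule.add_mem_sup hl h2

end Pool.Agent.R901.QZ
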