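import Mathlib

/-!
# The zeta functions of the curve singularity `y (y - x ^ m) = 0` over a finite field
-/

set_option autoImplicit false

namespace Pool.Agent.R901.QZ

universe u

variable (k : Type u) [Field k]

/-- The local ring `R = k[[x, y]] / (y (y - x ^ m))`; here `y = X 0` and `x = X 1`. -/
abbrev Germ (m : ℕ) : Type u :=
  MvPowerSeries (Fin 2) k ⧸
    Ideal.span {(MvPowerSeries.X 0 * (MvPowerSeries.X 0 - MvPowerSeries.X 1 ^ m) :
      MvPowerSeries (Fin 2) k)}

/-- The `R`-submodules `L` of `R ^ d` such that the vector space `R ^ d / L` over `k` has the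
dimension `n`: the `k`-points of `Quot_n (R ^ d)`. -/
abbrev QuotPoints (m d n : ℕ) : Type u :=
  {L : Submodule (Germ k m) (Fin d → Germ k m) //
    Module.rank k ((Fin d → Germ k m) ⧸ L) = n}

/-- The power series `NZ(t) = (t; q)_d ^ 2 * ∑ n, #Quot_n (R ^ d)(k) t ^ n`, where `q` is the number
of elements of the finite field `k` and `(t; q)_d = ∏ i < d, (1 - q ^ i t)`. -/
noncomputable def NZ (m d : ℕ) : PowerSeries ℤ :=
  (∏ i ∈ Finset.range d, (1 - PowerSeries.C ((Nat.card k : ℤ) ^ i) * PowerSeries.X)) ^ 2 *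
    PowerSeries.mk fun n => (Nat.card (QuotPoints k m d n) : ℤ)

end Pool.Agent.R901.QZ
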