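import Mathlib
import Pool.Agent.R901.QZ.Def

/-!
# The Cohen-Lenstra zeta function of the curve singularity `y (y - x ^ m) = 0` over a finite field
-/

set_option autoImplicit false

namespace Pool.Agent.R901.QZ

universe u

variable (k : Type u) [Field k]

/-- The structures of an `R`-module on the vector space `k ^ n`: the `k`-points of the variety `C_n`
with `Coh_n (R) = [C_n / GL_n]`. -/
abbrev ModStr (m n : ℕ) : Type u := Germ k m →ₐ[k] Module.End k (Fin n → k)

/-- The number of the `k`-points of the stack `Coh_n (R)`, that is, the sum of the numbers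
`1 / #Aut (M)` over the isomorphism classes of `R`-modules `M` with `dim M = n`: the number of the
`R`-module structures on `k ^ n` divided by the order of `GL_n (k)`. -/
noncomputable def cohCount (m n : ℕ) : ℝ :=
  (Nat.card (ModStr k m n) : ℝ) / Nat.card (Module.End k (Fin n → k))ˣ

/-- The power series `(q⁻¹ t; q⁻¹)_N ^ 2 * ∑ n, #Coh_n (R)(k) t ^ n`, where `q` is the number of
elements of the finite field `k` and `(q⁻¹ t; q⁻¹)_N = ∏ i < N, (1 - q ^ (- 1 - i) t)`. -/
noncomputable def NZhat (m N : ℕ) : PowerSeries ℝ :=
  (∏ i ∈ Finset.range N,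
    (1 - PowerSeries.C (((Nat.card k : ℝ)⁻¹) ^ (i + 1)) * PowerSeries.X)) ^ 2 *
    PowerSeries.mk (cohCount k m)

end Pool.Agent.R901.QZ
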