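import Mathlib

/-!
# Sums of arbitrary families of power series with coefficients in `[0, ∞]`
-/

set_option autoImplicit false

open scoped ENNReal
open PowerSeries

namespace Pool.Agent.R901.QZ

universe u v w

/-- The sum of an arbitrary family of power series with coefficients in `[0, ∞]`. -/
noncomputable def S {α : Type u} (f : α → PowerSeries ℝ≥0∞) : PowerSeries ℝ≥0∞ :=
  PowerSeries.mk fun n => ∑' a, coeff n (f a)

section S

variable {α : Type u} {β : Type v}

theorem coeff_S (f : α → PowerSeries ℝ≥0∞) (n : ℕ) : coeff n (S f) = ∑' a, coeff n (f a) :=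
  coeff_mk _ _

theorem S_congr {f g : α → PowerSeries ℝ≥0∞} (h : ∀ a, f a = g a) : S f = S g := by
  rw [funext h]

theorem S_zero : S (fun _ : α => (0 : PowerSeries ℝ≥0∞)) = 0 := by
  ext n
  simp [coeff_S]

theorem S_mul_right (f : α → PowerSeries ℝ≥0∞) (g : PowerSeries ℝ≥0∞) :
    S (fun a => f a * g) = S f * g := by
  ext n
  simp only [coeff_S, coeff_mul]
  rw [Summable.tsum_finsetSum fun _ _ => ENNReal.summable]
  refine Finset.sum_congr rfl fun p _ => ?_
  rw [ENNReal.tsum_mul_right]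

theorem S_mul_left (g : PowerSeries ℝ≥0∞) (f : α → PowerSeries ℝ≥0∞) :
    S (fun a => g * f a) = g * S f := by
  rw [mul_comm g, ← S_mul_right]
  exact S_congr fun a => mul_comm _ _

theorem S_sigma {β : α → Type v} (f : (Σ a, β a) → PowerSeries ℝ≥0∞) :
    S f = S fun a => S fun b => f ⟨a, b⟩ := by
  ext n
  simp only [coeff_S]
  exact ENNReal.tsum_sigma' _

theorem S_equiv (e : α ≃ β) (f : β → PowerSeries ℝ≥0∞) : S (fun a => f (e a)) = S f := by
  ext n
  simp only [coeff_S]
  exact e.tsum_eq fun b => coeff n (f b)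

theorem S_comm (f : α → β → PowerSeries ℝ≥0∞) :
    (S fun a => S fun b => f a b) = S fun b => S fun a => f a b := by
  ext n
  simp only [coeff_S]
  exact ENNReal.tsum_comm

theorem S_fiber (p : α → β) (f : α → PowerSeries ℝ≥0∞) :
    S f = S fun b => S fun a : {a // p a = b} => f a := by
  rw [← S_equiv (Equiv.sigmaFiberEquiv p) f, S_sigma]
  rfl

theorem S_subtype (p : α → Prop) [DecidablePred p] (f : α → PowerSeries ℝ≥0∞) :
    (S fun a => if p a then f a else 0) = S fun a : {a // p a} => f a := by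
  ext n
  simp only [coeff_S]
  refine Eq.trans ?_ (tsum_subtype {a | p a} (fun a => coeff n (f a))).symm
  refine tsum_congr fun a => ?_
  by_cases h : p a
  · rw [if_pos h, Set.indicator_of_mem (by exact h)]
  · rw [if_neg h, Set.indicator_of_notMem (by exact h), map_zero]

theorem S_fintype [Fintype α] (f : α → PowerSeries ℝ≥0∞) : S f = ∑ a, f a := by
  ext n
  rw [coeff_S, tsum_fintype, map_sum]

theorem S_const [Finite α] (c : PowerSeries ℝ≥0∞) :
    S (fun _ : α => c) = (Nat.card α : PowerSeries ℝ≥0∞) * c := by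
  have := Fintype.ofFinite α
  rw [S_fintype, Finset.sum_const, Finset.card_univ, nsmul_eq_mul, Nat.card_eq_fintype_card]

theorem S_add (f g : α → PowerSeries ℝ≥0∞) : S (fun a => f a + g a) = S f + S g := by
  ext n
  simp only [coeff_S, map_add]
  exact ENNReal.tsum_add

theorem S_unique [Unique α] (f : α → PowerSeries ℝ≥0∞) : S f = f default := by
  rw [S_fintype, Fintype.sum_unique]

theorem S_single (a₀ : α) (f : α → PowerSeries ℝ≥0∞) (h : ∀ a, a ≠ a₀ → f a = 0) : S f = f a₀ := by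
  ext n
  rw [coeff_S, tsum_eq_single a₀ fun a ha => by rw [h a ha, map_zero]]

theorem rescale_S (c : ℝ≥0∞) (f : α → PowerSeries ℝ≥0∞) :
    rescale c (S f) = S fun a => rescale c (f a) := by
  ext n
  simp only [coeff_S, coeff_rescale]
  exact ENNReal.tsum_mul_left.symm

end S

/-- The power series `X ^ a` if `N = q ^ a`. -/
noncomputable def wt (q N : ℕ) : PowerSeries ℝ≥0∞ :=
  PowerSeries.mk fun n => if N = q ^ n then 1 else 0

/-- `N` is zero or a power of `q`. -/
def IsQ (q N : ℕ) : Prop := N = 0 ∨ ∃ a, N = q ^ a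

section wt

variable {q : ℕ}

theorem wt_pow (hq : 1 < q) (a : ℕ) : wt q (q ^ a) = X ^ a := by
  ext n
  rw [wt, coeff_mk, coeff_X_pow]
  simp only [Nat.pow_right_inj hq, eq_comm]

theorem wt_one (hq : 1 < q) : wt q 1 = 1 := by
  simpa using wt_pow hq 0

theorem wt_zero (hq : 1 < q) : wt q 0 = 0 := by
  ext n
  rw [wt, coeff_mk, if_neg (pow_pos (zero_lt_one.trans hq) n).ne, map_zero]

theorem wt_mul (hq : 1 < q) {N N' : ℕ} (h : IsQ q N) (h' : IsQ q N') :
    wt q (N * N') = wt q N * wt q N' := by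
  rcases h with rfl | ⟨a, rfl⟩
  · rw [zero_mul, wt_zero hq, zero_mul]
  · rcases h' with rfl | ⟨b, rfl⟩
    · rw [mul_zero, wt_zero hq, mul_zero]
    · rw [← pow_add, wt_pow hq, wt_pow hq, wt_pow hq, pow_add]

theorem rescale_wt (c N : ℕ) : rescale ((q : ℝ≥0∞) ^ c) (wt q N) =
    ((N ^ c : ℕ) : PowerSeries ℝ≥0∞) * wt q N := by
  ext n
  have h : (((N ^ c : ℕ) : PowerSeries ℝ≥0∞)) = C ((N ^ c : ℕ) : ℝ≥0∞) := by
    simp
  rw [h, coeff_C_mul, coeff_rescale, wt, coeff_mk]
  by_cases hN : N = q ^ n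
  · rw [if_pos hN, hN, mul_one, mul_one, ← pow_mul, ← pow_mul, Nat.cast_pow, mul_comm]
  · rw [if_neg hN, mul_zero, mul_zero]

end wt

/-- The geometric series `∑ a ^ n X ^ n`. -/
noncomputable def geo (a : ℝ≥0∞) : PowerSeries ℝ≥0∞ := PowerSeries.mk fun n => a ^ n

theorem rescale_geo (a b : ℝ≥0∞) : rescale a (geo b) = geo (a * b) := by
  ext n
  rw [geo, geo, coeff_rescale, coeff_mk, coeff_mk, mul_pow]

end Pool.Agent.R901.QZ
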