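import Pool.Agent.R901.QZ.GF

/-!
# Submodules of a product of two modules
-/

set_option autoImplicit false

open scoped ENNReal
open PowerSeries

namespace Pool.Agent.R901.QZ

universe u v w

section glue

variable {A : Type u} {V : Type v} {W : Type w} [Ring A] [AddCommGroup V] [Module A V]
  [AddCommGroup W] [Module A W]

/-- The image of a submodule of `V × W` in `V`. -/
def pr (L : Submodule A (V × W)) : Submodule A V := L.map (LinearMap.fst A V W)

/-- The intersection of a submodule of `V × W` with `W`. -/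
def ke (L : Submodule A (V × W)) : Submodule A W := L.comap (LinearMap.inr A V W)

theorem mem_pr {L : Submodule A (V × W)} {v : V} : v ∈ pr L ↔ ∃ w, (v, w) ∈ L := by
  rw [pr, Submodule.mem_map]
  constructor
  · rintro ⟨x, hx, rfl⟩
    exact ⟨x.2, hx⟩
  · rintro ⟨w, hw⟩
    exact ⟨_, hw, rfl⟩

theorem mem_ke {L : Submodule A (V × W)} {w : W} : w ∈ ke L ↔ (0, w) ∈ L := Iff.rfl

theorem mk_eq_of_mem {L : Submodule A (V × W)} {v : V} {w w' : W} (h : (v, w) ∈ L)
    (h' : (v, w') ∈ L) : (Submodule.Quotient.mk w : W ⧸ ke L) = Submodule.Quotient.mk w' := by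
  rw [Submodule.Quotient.eq, mem_ke]
  simpa using L.sub_mem h h'

/-- The linear map `pr L → W / ke L` attached to a submodule `L` of `V × W`. -/
noncomputable def glueMap (L : Submodule A (V × W)) : pr L →ₗ[A] W ⧸ ke L where
  toFun v := Submodule.Quotient.mk (mem_pr.1 v.2).choose
  map_add' v v' := by
    rw [← Submodule.Quotient.mk_add]
    exact mk_eq_of_mem (mem_pr.1 (v + v').2).choose_spec
      (L.add_mem (mem_pr.1 v.2).choose_spec (mem_pr.1 v'.2).choose_spec)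
  map_smul' a v := by
    rw [RingHom.id_apply, ← Submodule.Quotient.mk_smul]
    exact mk_eq_of_mem (mem_pr.1 (a • v).2).choose_spec
      (L.smul_mem a (mem_pr.1 v.2).choose_spec)

theorem glueMap_eq_iff (L : Submodule A (V × W)) (v : pr L) (w : W) :
    glueMap L v = Submodule.Quotient.mk w ↔ ((v : V), w) ∈ L := by
  constructor
  · intro h
    have h1 : Submodule.Quotient.mk (p := ke L) (mem_pr.1 v.2).choose =
      Submodule.Quotient.mk w := h
    rw [Submodule.Quotient.eq, mem_ke] at h1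
    simpa using L.sub_mem (mem_pr.1 v.2).choose_spec h1
  · intro h
    exact mk_eq_of_mem (mem_pr.1 v.2).choose_spec h

/-- The submodule of `V × W` attached to `L₁`, `L₂` and a linear map `L₁ → W / L₂`. -/
def glue (L₁ : Submodule A V) (L₂ : Submodule A W) (φ : L₁ →ₗ[A] W ⧸ L₂) :
    Submodule A (V × W) where
  carrier := {x | ∃ h : x.1 ∈ L₁, φ ⟨x.1, h⟩ = Submodule.Quotient.mk x.2}
  zero_mem' := ⟨L₁.zero_mem, by
    have : (⟨(0 : V × W).1, L₁.zero_mem⟩ : L₁) = 0 := rfl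
    rw [this, map_zero]
    rfl⟩
  add_mem' := by
    rintro x y ⟨hx, hx'⟩ ⟨hy, hy'⟩
    refine ⟨L₁.add_mem hx hy, ?_⟩
    have : (⟨(x + y).1, L₁.add_mem hx hy⟩ : L₁) = ⟨x.1, hx⟩ + ⟨y.1, hy⟩ := rfl
    rw [this, map_add, hx', hy']
    rfl
  smul_mem' := by
    rintro a x ⟨hx, hx'⟩
    refine ⟨L₁.smul_mem a hx, ?_⟩
    have : (⟨(a • x).1, L₁.smul_mem a hx⟩ : L₁) = a • ⟨x.1, hx⟩ := rfl
    rw [this, map_smul, hx']
    rfl

theorem mem_glue {L₁ : Submodule A V} {L₂ : Submodule A W} {φ : L₁ →ₗ[A] W ⧸ L₂} {x : V × W} :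
    x ∈ glue L₁ L₂ φ ↔ ∃ h : x.1 ∈ L₁, φ ⟨x.1, h⟩ = Submodule.Quotient.mk x.2 := Iff.rfl

@[simp] theorem pr_glue (L₁ : Submodule A V) (L₂ : Submodule A W) (φ : L₁ →ₗ[A] W ⧸ L₂) :
    pr (glue L₁ L₂ φ) = L₁ := by
  ext v
  rw [mem_pr]
  constructor
  · rintro ⟨w, h, -⟩
    exact h
  · intro h
    obtain ⟨w, hw⟩ := Submodule.Quotient.mk_surjective _ (φ ⟨v, h⟩)
    exact ⟨w, h, hw.symm⟩

@[simp] theorem ke_glue (L₁ : Submodule A V) (L₂ : Submodule A W) (φ : L₁ →ₗ[A] W ⧸ L₂) :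
    ke (glue L₁ L₂ φ) = L₂ := by
  ext w
  rw [mem_ke, mem_glue]
  have h0 : (⟨(0 : V), L₁.zero_mem⟩ : L₁) = 0 := rfl
  constructor
  · rintro ⟨h, h'⟩
    have h1 : (0 : W ⧸ L₂) = Submodule.Quotient.mk w := by
      rw [← h', ← map_zero φ]
      rfl
    exact (Submodule.Quotient.mk_eq_zero _).1 h1.symm
  · intro h
    refine ⟨L₁.zero_mem, ?_⟩
    rw [(Submodule.Quotient.mk_eq_zero _).2 (show ((0 : V), w).2 ∈ L₂ from h)]
    show φ 0 = 0
    exact map_zero φ

theorem glue_injective (L₁ : Submodule A V) (L₂ : Submodule A W) :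
    Function.Injective (glue L₁ L₂) := by
  intro φ ψ h
  ext v
  obtain ⟨w, hw⟩ := Submodule.Quotient.mk_surjective _ (φ v)
  have h1 : ((v : V), w) ∈ glue L₁ L₂ φ := ⟨v.2, hw.symm⟩
  rw [h] at h1
  obtain ⟨h2, h3⟩ := h1
  rw [← hw]
  exact h3.symm

theorem exists_glue (L : Submodule A (V × W)) (L₁ : Submodule A V) (L₂ : Submodule A W)
    (h₁ : pr L = L₁) (h₂ : ke L = L₂) : ∃ φ : L₁ →ₗ[A] W ⧸ L₂, glue L₁ L₂ φ = L := by
  subst h₁ h₂
  refine ⟨glueMap L, ?_⟩
  ext x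
  rw [mem_glue]
  constructor
  · rintro ⟨h, h'⟩
    exact (glueMap_eq_iff L ⟨x.1, h⟩ x.2).1 h'
  · intro h
    exact ⟨mem_pr.2 ⟨x.2, h⟩, (glueMap_eq_iff L ⟨x.1, _⟩ x.2).2 h⟩

/-- Submodules of `V × W` with given image and intersection. -/
noncomputable def glueEquiv (L₁ : Submodule A V) (L₂ : Submodule A W) :
    (L₁ →ₗ[A] W ⧸ L₂) ≃ {L : Submodule A (V × W) // (pr L, ke L) = (L₁, L₂)} :=
  Equiv.ofBijective (fun φ => ⟨glue L₁ L₂ φ, by rw [pr_glue, ke_glue]⟩)
    ⟨fun φ ψ h => glue_injective L₁ L₂ (congrArg Subtype.val h), fun ⟨L, hL⟩ => by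
      obtain ⟨φ, hφ⟩ := exists_glue L L₁ L₂ (congrArg Prod.fst hL) (congrArg Prod.snd hL)
      exact ⟨φ, Subtype.ext hφ⟩⟩

/-- The sum over all submodules of `V × W`. -/
theorem S_glue (f : Submodule A (V × W) → PowerSeries ℝ≥0∞) :
    S f = S fun L₁ : Submodule A V => S fun L₂ : Submodule A W =>
      S fun φ : L₁ →ₗ[A] W ⧸ L₂ => f (glue L₁ L₂ φ) := by
  rw [S_fiber (fun L => (pr L, ke L)) f,
    ← S_equiv (Equiv.sigmaEquivProd (Submodule A V) (Submodule A W)), S_sigma]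
  refine S_congr fun L₁ => S_congr fun L₂ => ?_
  exact (S_equiv (glueEquiv L₁ L₂) (fun a => f a.1)).symm

/-- The index of a submodule of `V × W`. -/
theorem card_quotient (L : Submodule A (V × W)) :
    Nat.card ((V × W) ⧸ L) = Nat.card (V ⧸ pr L) * Nat.card (W ⧸ ke L) := by
  let p : ((V × W) ⧸ L) →ₗ[A] V ⧸ pr L := L.mapQ (pr L) (LinearMap.fst A V W)
    (fun x hx => mem_pr.2 ⟨x.2, hx⟩)
  let i : (W ⧸ ke L) →ₗ[A] (V × W) ⧸ L := (ke L).mapQ L (LinearMap.inr A V W) le_rfl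
  have hp : Function.Surjective p := by
    intro y
    obtain ⟨v, rfl⟩ := Submodule.Quotient.mk_surjective _ y
    exact ⟨Submodule.Quotient.mk (v, 0), rfl⟩
  have hi : Function.Injective i := by
    rw [injective_iff_map_eq_zero]
    intro y hy
    obtain ⟨w, rfl⟩ := Submodule.Quotient.mk_surjective _ y
    have h1 : (Submodule.Quotient.mk ((0 : V), w) : (V × W) ⧸ L) = 0 := hy
    rw [Submodule.Quotient.mk_eq_zero] at h1
    exact (Submodule.Quotient.mk_eq_zero _).2 h1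
  have hr : LinearMap.range i = LinearMap.ker p := by
    ext y
    obtain ⟨⟨v, w⟩, rfl⟩ := Submodule.Quotient.mk_surjective _ y
    constructor
    · rintro ⟨z, hz⟩
      obtain ⟨w', rfl⟩ := Submodule.Quotient.mk_surjective _ z
      rw [← hz]
      show (Submodule.Quotient.mk (0 : V) : V ⧸ pr L) = 0
      rfl
    · intro h
      have h1 : (Submodule.Quotient.mk v : V ⧸ pr L) = 0 := h
      rw [Submodule.Quotient.mk_eq_zero, mem_pr] at h1
      obtain ⟨w', hw'⟩ := h1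
      refine ⟨Submodule.Quotient.mk (w - w'), ?_⟩
      show (Submodule.Quotient.mk ((0 : V), w - w') : (V × W) ⧸ L) = Submodule.Quotient.mk (v, w)
      rw [Submodule.Quotient.eq]
      have : ((0 : V), w - w') - (v, w) = -(v, w') := by
        ext <;> simp
      rw [this]
      exact L.neg_mem hw'
  have h1 : Nat.card ((V × W) ⧸ L) = Nat.card (LinearMap.ker p) *
      Nat.card (((V × W) ⧸ L) ⧸ LinearMap.ker p) := 
    Submodule.card_eq_card_quotient_mul_card _
  rw [h1, Nat.card_congr (p.quotKerEquivOfSurjective hp).toEquiv, mul_comm, ← hr,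
    ← Nat.card_congr (LinearEquiv.ofInjective i hi).toEquiv]

end glue

end Pool.Agent.R901.QZ
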