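import Pool.Agent.R901.QZ.Pol

/-!
# The numerator in terms of `1 / q`
-/

set_option autoImplicit false
set_option linter.unusedSectionVars false
set_option linter.style.haveILetI false

open PowerSeries

namespace Pool.Agent.R901.QZ

universe u v w

/-- The Gaussian binomial coefficients, by the other recursion. -/
noncomputable def gaussU : ℕ → ℕ → Polynomial ℕ
  | 0, 0 => 1
  | 0, _ + 1 => 0
  | _ + 1, 0 => 1
  | n + 1, e + 1 => Polynomial.X ^ (n - e) * gaussU n e + gaussU n (e + 1)

theorem gaussU_zero_right (n : ℕ) : gaussU n 0 = 1 := by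
  cases n <;> rfl

theorem gaussU_succ_succ (n e : ℕ) :
    gaussU (n + 1) (e + 1) = Polynomial.X ^ (n - e) * gaussU n e + gaussU n (e + 1) := rfl

theorem gaussU_eq_zero {n e : ℕ} (h : n < e) : gaussU n e = 0 := by
  induction n generalizing e with
  | zero =>
    obtain ⟨e, rfl⟩ := Nat.exists_eq_succ_of_ne_zero h.ne'
    rfl
  | succ n ih =>
    obtain ⟨e, rfl⟩ := Nat.exists_eq_succ_of_ne_zero (n := e) (by omega)
    rw [Nat.succ_eq_add_one, gaussU_succ_succ, ih (by omega), ih (by omega), mul_zero, add_zero]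

section semi

variable {A : Type u} [CommSemiring A]

theorem gauss_eq_gaussU {q x : A} (h : q * x = 1) (n : ℕ) : ∀ e ≤ n,
    (gauss n e).eval₂ (Nat.castRingHom A) q =
      q ^ (e * (n - e)) * (gaussU n e).eval₂ (Nat.castRingHom A) x := by
  induction n with
  | zero =>
    intro e he
    obtain rfl : e = 0 := by omega
    simp [gauss, gaussU]
  | succ n ih =>
    intro e he
    rcases e with _ | e
    · rw [gauss_zero_right, gaussU_zero_right]
      simp
    · rw [gauss_succ_succ, gaussU_succ_succ, Polynomial.eval₂_add, Polynomial.eval₂_add,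
        Polynomial.eval₂_mul, Polynomial.eval₂_mul, Polynomial.eval₂_pow, Polynomial.eval₂_pow,
        Polynomial.eval₂_X, Polynomial.eval₂_X, ih e (by omega)]
      have hn : n + 1 - (e + 1) = n - e := by omega
      rw [hn, mul_add]
      congr 1
      · rw [← mul_assoc]
        congr 1
        rw [add_mul, one_mul, pow_add, mul_assoc, ← mul_pow, h, one_pow, mul_one]
      · rcases Nat.lt_or_ge e n with he' | he'
        · rw [ih (e + 1) he', ← mul_assoc, ← pow_add]
          congr 2
          obtain ⟨j, rfl⟩ := Nat.exists_eq_add_of_le he'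
          have h1 : e + 1 + j - (e + 1) = j := by omega
          have h2 : e + 1 + j - e = j + 1 := by omega
          rw [h1, h2]
          ring
        · rw [gauss_eq_zero (by omega), gaussU_eq_zero (by omega)]
          simp

/-- The transfer operator. -/
noncomputable def PhiU (x s : A) (g : ℕ → A) (c : ℕ) : A :=
  ∑ e ∈ Finset.range (c + 1),
    ((gaussU c e).eval₂ (Nat.castRingHom A) x) * x ^ (e * e) * (s ^ e * g e)

theorem Phi_eq_PhiU {q x : A} (h : q * x = 1) (s : A) (d : ℕ) {f g : ℕ → A}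
    (hfg : ∀ c ≤ d, f (d - c) = g c) (c : ℕ) (hc : c ≤ d) :
    Phi q (x ^ d * s) d f (d - c) = PhiU x s g c := by
  rw [Phi, PhiU, Nat.sub_sub_self hc]
  refine Finset.sum_congr rfl fun e he => ?_
  have hec : e ≤ c := by simpa [Nat.lt_succ_iff] using he
  rw [gauss_eq_gaussU h c e hec, hfg e (hec.trans hc), mul_pow, ← pow_mul]
  obtain ⟨i, rfl⟩ := Nat.exists_eq_add_of_le hec
  obtain ⟨j, rfl⟩ := Nat.exists_eq_add_of_le hc
  have h1 : e + i - e = i := by omega
  have h2 : e + i + j - (e + i) = j := by omega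
  rw [h1, h2]
  have h3 : x ^ ((e + i + j) * e) = x ^ (e * e) * (x ^ (e * i) * x ^ (j * e)) := by
    rw [← pow_add, ← pow_add]
    congr 1
    ring
  have h4 : q ^ (e * i) * x ^ (e * i) = 1 := by rw [← mul_pow, h, one_pow]
  have h5 : q ^ (j * e) * x ^ (j * e) = 1 := by rw [← mul_pow, h, one_pow]
  calc q ^ (e * i) * (gaussU (e + i) e).eval₂ (Nat.castRingHom A) x * q ^ (j * e) *
        (x ^ ((e + i + j) * e) * s ^ e * g e)
      = (q ^ (e * i) * x ^ (e * i)) * (q ^ (j * e) * x ^ (j * e)) *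
        ((gaussU (e + i) e).eval₂ (Nat.castRingHom A) x * x ^ (e * e) * (s ^ e * g e)) := by
          rw [h3]; ring
    _ = _ := by rw [h4, h5, one_mul, one_mul]

theorem Phi_iter_eq {q x : A} (h : q * x = 1) (s : A) (d m : ℕ) {f g : ℕ → A}
    (hfg : ∀ c ≤ d, f (d - c) = g c) (c : ℕ) (hc : c ≤ d) :
    (Phi q (x ^ d * s) d)^[m] f (d - c) = (PhiU x s)^[m] g c := by
  induction m generalizing f g with
  | zero => exact hfg c hc
  | succ m ih =>
    rw [Function.iterate_succ_apply, Function.iterate_succ_apply]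
    exact ih fun c hc => Phi_eq_PhiU h s d hfg c hc

theorem PhiU_map {B : Type v} [CommSemiring B] (h : A →+* B) (x s : A) (g : ℕ → A) (c : ℕ) :
    h (PhiU x s g c) = PhiU (h x) (h s) (fun c => h (g c)) c := by
  rw [PhiU, PhiU, map_sum]
  refine Finset.sum_congr rfl fun e _ => ?_
  rw [map_mul, map_mul, map_mul, map_pow, map_pow, Polynomial.hom_eval₂]
  rw [show h.comp (Nat.castRingHom A) = Nat.castRingHom B from Subsingleton.elim _ _]

theorem PhiU_iter_map {B : Type v} [CommSemiring B] (h : A →+* B) (x s : A) (g : ℕ → A)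
    (m c : ℕ) : h ((PhiU x s)^[m] g c) = (PhiU (h x) (h s))^[m] (fun c => h (g c)) c := by
  induction m generalizing g with
  | zero => rfl
  | succ m ih =>
    rw [Function.iterate_succ_apply, Function.iterate_succ_apply, ih,
      show (fun c => h (PhiU x s g c)) = PhiU (h x) (h s) (fun c => h (g c)) from
        funext fun c => PhiU_map h x s g c]

/-- The additive order. -/
def Le (a b : A) : Prop := ∃ c, b = a + c

theorem Le.refl (a : A) : Le a a := ⟨0, (add_zero a).symm⟩

theorem Le.trans {a b c : A} (h : Le a b) (h' : Le b c) : Le a c := by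
  obtain ⟨x, rfl⟩ := h
  obtain ⟨y, rfl⟩ := h'
  exact ⟨x + y, add_assoc _ _ _⟩

theorem Le.add {a b a' b' : A} (h : Le a b) (h' : Le a' b') : Le (a + a') (b + b') := by
  obtain ⟨x, rfl⟩ := h
  obtain ⟨y, rfl⟩ := h'
  exact ⟨x + y, by ring⟩

theorem Le.mul {a b a' b' : A} (h : Le a b) (h' : Le a' b') : Le (a * a') (b * b') := by
  obtain ⟨x, rfl⟩ := h
  obtain ⟨y, rfl⟩ := h'
  exact ⟨x * a' + a * y + x * y, by ring⟩

theorem Le.zero (a : A) : Le 0 a := ⟨a, (zero_add a).symm⟩

theorem Le.sum {ι : Type v} (s : Finset ι) {f g : ι → A} (h : ∀ i ∈ s, Le (f i) (g i)) :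
    Le (∑ i ∈ s, f i) (∑ i ∈ s, g i) := by
  classical
  induction s using Finset.induction_on with
  | empty => exact Le.refl _
  | insert i s hi ih =>
    rw [Finset.sum_insert hi, Finset.sum_insert hi]
    exact (h i (Finset.mem_insert_self i s)).add (ih fun j hj => h j (Finset.mem_insert_of_mem hj))

theorem Le.map {B : Type v} [CommSemiring B] (φ : A →+* B) {a b : A} (h : Le a b) :
    Le (φ a) (φ b) := by
  obtain ⟨x, rfl⟩ := h
  exact ⟨φ x, map_add _ _ _⟩

theorem gaussU_le (n e : ℕ) : Le (gaussU n e) (gaussU (n + 1) e) := by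
  rcases e with _ | e
  · rw [gaussU_zero_right, gaussU_zero_right]
    exact Le.refl _
  · rw [gaussU_succ_succ]
    exact ⟨_, add_comm _ _⟩

theorem PhiU_le {x s : A} {g g' : ℕ → A} (h : ∀ e, Le (g e) (g' e)) (c : ℕ) :
    Le (PhiU x s g c) (PhiU x s g' c) :=
  Le.sum _ fun e _ => (Le.refl _).mul ((Le.refl _).mul (h e))

theorem PhiU_iter_le {x s : A} {g g' : ℕ → A} (h : ∀ e, Le (g e) (g' e)) (m : ℕ) (c : ℕ) :
    Le ((PhiU x s)^[m] g c) ((PhiU x s)^[m] g' c) := by
  induction m generalizing g g' with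
  | zero => exact h c
  | succ m ih =>
    rw [Function.iterate_succ_apply, Function.iterate_succ_apply]
    exact ih fun e => PhiU_le h e

theorem PhiU_le_succ {x s : A} (g : ℕ → A) (c : ℕ) :
    Le (PhiU x s g c) (PhiU x s g (c + 1)) := by
  rw [PhiU, PhiU, Finset.sum_range_succ _ (c + 1)]
  refine Le.trans (Le.sum _ fun e _ => ?_) ⟨_, rfl⟩
  refine Le.mul (Le.mul ?_ (Le.refl _)) (Le.refl _)
  exact Le.map (Polynomial.eval₂RingHom (Nat.castRingHom A) x) (gaussU_le c e)

end semi

/-- The polynomial `NZ (- t q ^ (- d))` in `u = 1 / q` and `t`. -/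
noncomputable def numU (m d : ℕ) : Polynomial (Polynomial ℕ) :=
  (PhiU (Polynomial.C Polynomial.X : Polynomial (Polynomial ℕ)) (Polynomial.X ^ 2))^[m]
    (fun c => ∏ j ∈ Finset.Ico c d, (1 + Polynomial.C (Polynomial.X ^ (j + 1)) * Polynomial.X)) d

theorem numU_le (m d : ℕ) : Le (numU (m + 1) d) (numU (m + 1) (d + 1)) := by
  rw [numU, numU]
  refine Le.trans (PhiU_iter_le (g' := fun c => ∏ j ∈ Finset.Ico c (d + 1),
      (1 + Polynomial.C (Polynomial.X ^ (j + 1)) * Polynomial.X)) (fun e => ?_) (m + 1) d) ?_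
  · rcases Nat.lt_or_ge d e with he | he
    · rw [Finset.Ico_eq_empty (by omega), Finset.Ico_eq_empty (by omega)]
      exact Le.refl _
    · rw [Finset.prod_Ico_succ_top he]
      exact ⟨_, mul_one_add _ _⟩
  · rw [Function.iterate_succ_apply']
    exact PhiU_le_succ _ d

theorem numU_coeff_le (m d n j : ℕ) :
    ((numU (m + 1) d).coeff n).coeff j ≤ ((numU (m + 1) (d + 1)).coeff n).coeff j := by
  obtain ⟨c, hc⟩ := numU_le m d
  rw [hc, Polynomial.coeff_add, Polynomial.coeff_add]
  exact Nat.le_add_right _ _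

/-- The evaluation `L = q`, `t = x ^ d X`. -/
noncomputable def evR (q x : ℝ) (d : ℕ) : Polynomial (Polynomial ℕ) →+* PowerSeries ℝ :=
  Polynomial.eval₂RingHom
    ((C : ℝ →+* PowerSeries ℝ).comp (Polynomial.eval₂RingHom (Nat.castRingHom ℝ) q)) (C (x ^ d) * X)

theorem coeff_evR (q x : ℝ) (d : ℕ) (P : Polynomial (Polynomial ℕ)) (n : ℕ) :
    coeff n (evR q x d P) = ((P.coeff n).eval₂ (Nat.castRingHom ℝ) q) * x ^ (d * n) := by
  induction P using Polynomial.induction_on' with
  | add P Q hP hQ =>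
    rw [map_add, map_add, hP, hQ, Polynomial.coeff_add, Polynomial.eval₂_add]
    ring
  | monomial i p =>
    rw [Polynomial.coeff_monomial]
    have h1 : evR q x d (Polynomial.monomial i p) =
        C (p.eval₂ (Nat.castRingHom ℝ) q * x ^ (d * i)) * X ^ i := by
      simp only [evR, Polynomial.coe_eval₂RingHom, Polynomial.eval₂_monomial, RingHom.comp_apply,
        map_mul, map_pow, mul_pow, pow_mul]
      ring
    rw [h1, coeff_C_mul, coeff_X_pow]
    by_cases h : i = n
    · subst h
      rw [if_pos rfl, if_pos rfl]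
      ring
    · rw [if_neg h, if_neg (Ne.symm h)]
      simp

theorem evR_num {q x : ℝ} (h : q * x = 1) (m d : ℕ) :
    evR q x d (num m d) = evR x 1 0 (numU m d) := by
  have hC : ∀ (q x : ℝ) (d : ℕ) (p : Polynomial ℕ), evR q x d (Polynomial.C p) =
      C (p.eval₂ (Nat.castRingHom ℝ) q) := by
    intro q x d p
    simp [evR]
  have hX : ∀ (q x : ℝ) (d : ℕ), evR q x d Polynomial.X = C (x ^ d) * X := by
    intro q x d
    simp [evR]
  have h1 := Phi_iter_map (evR q x d) (Polynomial.C Polynomial.X : Polynomial (Polynomial ℕ))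
    (Polynomial.C (Polynomial.X ^ d) * Polynomial.X ^ 2) d
    (fun r => ∏ i ∈ Finset.range r, (1 + Polynomial.C (Polynomial.X ^ i) * Polynomial.X)) m 0
  have h2 := PhiU_iter_map (evR x 1 0) (Polynomial.C Polynomial.X : Polynomial (Polynomial ℕ))
    (Polynomial.X ^ 2)
    (fun c => ∏ j ∈ Finset.Ico c d, (1 + Polynomial.C (Polynomial.X ^ (j + 1)) * Polynomial.X))
    m d
  have hqx : (C q : PowerSeries ℝ) * C x = 1 := by rw [← map_mul, h, map_one]
  have hu : evR q x d (Polynomial.C (Polynomial.X ^ d) * Polynomial.X ^ 2) =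
      (C x : PowerSeries ℝ) ^ d * X ^ 2 := by
    have e1 : evR q x d ((Polynomial.X : Polynomial (Polynomial ℕ)) ^ 2) =
        C (x ^ d * x ^ d) * X ^ 2 := by
      rw [map_pow (evR q x d), hX, mul_pow, sq (C (x ^ d)), ← map_mul]
    rw [map_mul, hC, Polynomial.eval₂_pow, Polynomial.eval₂_X, e1, ← mul_assoc, ← map_mul,
      ← map_pow (C : ℝ →+* PowerSeries ℝ) x d, ← mul_assoc, ← mul_pow, h, one_pow, one_mul]
  have hu' : evR x 1 0 ((Polynomial.X : Polynomial (Polynomial ℕ)) ^ 2) = X ^ 2 := by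
    rw [map_pow, hX, pow_zero, map_one, one_mul]
  rw [hu, hC, Polynomial.eval₂_X] at h1
  rw [hu', hC, Polynomial.eval₂_X] at h2
  rw [num, h1, numU, h2]
  have h3 := Phi_iter_eq hqx (X ^ 2 : PowerSeries ℝ) d m
    (f := fun r => evR q x d (∏ i ∈ Finset.range r,
      (1 + Polynomial.C (Polynomial.X ^ i) * Polynomial.X)))
    (g := fun c => evR x 1 0 (∏ j ∈ Finset.Ico c d,
      (1 + Polynomial.C (Polynomial.X ^ (j + 1)) * Polynomial.X))) ?_ d le_rfl
  · rw [Nat.sub_self] at h3
    exact h3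
  · intro c hc
    show evR q x d _ = evR x 1 0 _
    rw [map_prod, map_prod, Finset.prod_Ico_eq_prod_range, ← Finset.prod_range_reflect]
    refine Finset.prod_congr rfl fun i hi => ?_
    have hi' : i < d - c := Finset.mem_range.1 hi
    rw [map_add, map_add, map_one, map_one, map_mul, map_mul, hC, hC, hX, hX, pow_zero, map_one,
      one_mul, Polynomial.eval₂_pow, Polynomial.eval₂_X, Polynomial.eval₂_pow,
      Polynomial.eval₂_X, ← mul_assoc, ← map_mul]
    congr 3
    obtain ⟨j, hj⟩ := Nat.exists_eq_add_of_lt hi'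
    have h4 : d = c + i + j + 1 := by omega
    have h5 : d - c - 1 - i = j := by omega
    rw [h5, h4]
    have h6 : x ^ (c + i + j + 1) = x ^ (c + i + 1) * x ^ j := by
      rw [← pow_add]
      congr 1
      ring
    rw [h6, mul_left_comm, ← mul_pow, h, one_pow, mul_one]

end Pool.Agent.R901.QZ
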