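import Pool.Agent.R901.QZ.Cnt
import Pool.Agent.R901.QZ.Coh
import Pool.Agent.R901.QZ.Upol
import Pool.Agent.R901.QZ.Def2

/-!
# The limit
-/

set_option autoImplicit false
set_option linter.unusedSectionVars false
set_option linter.style.haveILetI false

open PowerSeries Filter

namespace Pool.Agent.R901.QZ

universe u v w

section E

variable (x : ℝ)

/-- The product `(x t; x)_N`. -/
noncomputable def EN (N : ℕ) : PowerSeries ℝ := ∏ i ∈ Finset.range N, (1 - C (x ^ (i + 1)) * X)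

theorem coeff_EN_succ (N i : ℕ) : coeff (i + 1) (EN x (N + 1)) =
    coeff (i + 1) (EN x N) - x ^ (N + 1) * coeff i (EN x N) := by
  rw [EN, Finset.prod_range_succ, ← EN, mul_sub, mul_one, map_sub, mul_left_comm, coeff_C_mul,
    coeff_succ_mul_X]

theorem coeff_EN_zero (N : ℕ) : coeff 0 (EN x N) = 1 := by
  induction N with
  | zero => simp [EN]
  | succ N ih =>
    rw [EN, Finset.prod_range_succ, ← EN, mul_sub, mul_one, map_sub, ih, mul_left_comm,
      coeff_C_mul, coeff_zero_mul_X, mul_zero, sub_zero]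

/-- The absolute values of the coefficients. -/
noncomputable def bN (N i : ℕ) : ℝ := (-1) ^ i * coeff i (EN x N)

theorem bN_zero_right (N : ℕ) : bN x N 0 = 1 := by
  rw [bN, coeff_EN_zero, pow_zero, one_mul]

theorem bN_zero_left (i : ℕ) : bN x 0 (i + 1) = 0 := by
  rw [bN, EN, Finset.range_zero, Finset.prod_empty, coeff_one, if_neg i.succ_ne_zero, mul_zero]

theorem bN_succ (N i : ℕ) : bN x (N + 1) (i + 1) = bN x N (i + 1) + x ^ (N + 1) * bN x N i := by
  rw [bN, bN, bN, coeff_EN_succ, pow_succ]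
  ring

variable {x} (hx : 0 ≤ x)

include hx

theorem bN_nonneg (N i : ℕ) : 0 ≤ bN x N i := by
  induction N generalizing i with
  | zero =>
    rcases i with _ | i
    · rw [bN_zero_right]
      exact zero_le_one
    · rw [bN_zero_left]
  | succ N ih =>
    rcases i with _ | i
    · rw [bN_zero_right]
      exact zero_le_one
    · rw [bN_succ]
      exact add_nonneg (ih _) (mul_nonneg (pow_nonneg hx _) (ih _))

theorem bN_mono (i : ℕ) : Monotone fun N => bN x N i := by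
  refine monotone_nat_of_le_succ fun N => ?_
  rcases i with _ | i
  · show bN x N 0 ≤ bN x (N + 1) 0
    rw [bN_zero_right, bN_zero_right]
  · show bN x N (i + 1) ≤ bN x (N + 1) (i + 1)
    rw [bN_succ]
    exact le_add_of_nonneg_right (mul_nonneg (pow_nonneg hx _) (bN_nonneg hx _ _))

theorem bN_le (N i : ℕ) : bN x N i ≤ (∑ j ∈ Finset.range N, x ^ (j + 1)) ^ i := by
  induction N generalizing i with
  | zero =>
    rcases i with _ | i
    · rw [bN_zero_right, pow_zero]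
    · rw [bN_zero_left]
      positivity
  | succ N ih =>
    rcases i with _ | i
    · rw [bN_zero_right, pow_zero]
    · rw [bN_succ, Finset.sum_range_succ]
      have h0 : 0 ≤ ∑ j ∈ Finset.range N, x ^ (j + 1) := Finset.sum_nonneg fun j _ => by positivity
      generalize (∑ j ∈ Finset.range N, x ^ (j + 1)) = s at *
      have h1 := ih (i + 1)
      have h2 := mul_le_mul_of_nonneg_left (ih i) (pow_nonneg hx (N + 1))
      have h3 : s ^ i ≤ (s + x ^ (N + 1)) ^ i :=
        pow_le_pow_left₀ h0 (le_add_of_nonneg_right (pow_nonneg hx _)) i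
      have h4 : s * s ^ i ≤ s * (s + x ^ (N + 1)) ^ i := mul_le_mul_of_nonneg_left h3 h0
      have h5 : x ^ (N + 1) * s ^ i ≤ x ^ (N + 1) * (s + x ^ (N + 1)) ^ i :=
        mul_le_mul_of_nonneg_left h3 (pow_nonneg hx _)
      calc bN x N (i + 1) + x ^ (N + 1) * bN x N i ≤ s ^ (i + 1) + x ^ (N + 1) * s ^ i :=
            add_le_add h1 h2
        _ = s * s ^ i + x ^ (N + 1) * s ^ i := by ring
        _ ≤ s * (s + x ^ (N + 1)) ^ i + x ^ (N + 1) * (s + x ^ (N + 1)) ^ i := add_le_add h4 h5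
        _ = (s + x ^ (N + 1)) ^ (i + 1) := by ring

theorem exists_tendsto_EN (hx1 : x < 1) (i : ℕ) :
    ∃ c, Tendsto (fun N => coeff i (EN x N)) atTop (nhds c) := by
  have hs : Summable fun j : ℕ => x ^ (j + 1) :=
    (summable_nat_add_iff 1).2 (summable_geometric_of_lt_one hx hx1)
  have hb : BddAbove (Set.range fun N => bN x N i) := by
    refine ⟨(∑' j : ℕ, x ^ (j + 1)) ^ i, ?_⟩
    rintro _ ⟨N, rfl⟩
    refine (bN_le hx N i).trans ?_
    refine pow_le_pow_left₀ (Finset.sum_nonneg fun j _ => by positivity) ?_ i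
    exact hs.sum_le_tsum _ fun j _ => by positivity
  have h1 := tendsto_atTop_ciSup (bN_mono hx i) hb
  have h2 := h1.const_mul ((-1 : ℝ) ^ i)
  refine ⟨_, h2.congr fun N => ?_⟩
  show (-1 : ℝ) ^ i * bN x N i = _
  rw [bN, ← mul_assoc, ← mul_pow]
  simp

end E

theorem rescale_C' (a r : ℝ) : rescale a (C r : PowerSeries ℝ) = C r := by
  ext n
  rw [coeff_rescale, coeff_C]
  split_ifs with h
  · rw [h, pow_zero, one_mul]
  · rw [mul_zero]

theorem tendsto_coeff_mul {f g : ℕ → PowerSeries ℝ} {a b : ℕ → ℝ}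
    (hf : ∀ i, Tendsto (fun N => coeff i (f N)) atTop (nhds (a i)))
    (hg : ∀ i, Tendsto (fun N => coeff i (g N)) atTop (nhds (b i))) (n : ℕ) :
    Tendsto (fun N => coeff n (f N * g N)) atTop
      (nhds (∑ p ∈ Finset.HasAntidiagonal.antidiagonal n, a p.1 * b p.2)) := by
  simp only [coeff_mul]
  exact tendsto_finsetSum _ fun p _ => (hf p.1).mul (hg p.2)

section main

variable {k : Type u} [Field k] [Finite k]

theorem q_pos : (0 : ℝ) < Nat.card k := by
  have := one_lt_q k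
  positivity

theorem x_lt_one : ((Nat.card k : ℝ))⁻¹ < 1 :=
  inv_lt_one_of_one_lt₀ (by exact_mod_cast one_lt_q k)

/-- The quotients of `R ^ d` isomorphic to `k ^ n` as vector spaces. -/
noncomputable def quotsEquiv (m d n : ℕ) :
    Quots k (Germ k m) (Fin n → k) d ≃ QuotPoints k m d n :=
  Equiv.subtypeEquivRight fun L => by
    constructor
    · rintro ⟨e⟩
      rw [e.rank_eq, rank_fin_fun]
    · intro h
      have h1 : Module.Finite k ((Fin d → Germ k m) ⧸ L) := by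
        rw [← Module.rank_lt_aleph0_iff, h]
        exact Cardinal.natCast_lt_aleph0
      refine ⟨LinearEquiv.ofFinrankEq _ _ ?_⟩
      rw [Module.finrank_eq_of_rank_eq h, Module.finrank_fin_fun]

theorem finite_modStr {m : ℕ} (hm : 1 ≤ m) (n : ℕ) : Finite (ModStr k m n) := by
  have h1 : Finite (QuotPoints k m n n) := finite_points k hm n n
  have h2 : Finite (Quots k (Germ k m) (Fin n → k) n) :=
    Finite.of_equiv _ (quotsEquiv m n n).symm
  exact finite_structures (Pi.basisFun k (Fin n)) (Module.Basis.span_eq _) h2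

theorem tendsto_coh {m : ℕ} (hm : 1 ≤ m) (n : ℕ) :
    Tendsto (fun d => (Nat.card (QuotPoints k m d n) : ℝ) * ((Nat.card k : ℝ)⁻¹) ^ (d * n)) atTop
      (nhds (cohCount k m n)) := by
  have h1 := tendsto_quots (k := k) (A := Germ k m) (M := Fin n → k) (finite_modStr hm n)
  have h2 : Nat.card ((Fin n → k) ≃ₗ[k] (Fin n → k)) = Nat.card (Module.End k (Fin n → k))ˣ :=
    Nat.card_congr (LinearMap.GeneralLinearGroup.generalLinearEquiv k (Fin n → k)).symm.toEquiv
  rw [h2] at h1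
  refine h1.congr fun d => ?_
  rw [Nat.card_congr (quotsEquiv m d n), Nat.card_fun, Nat.card_fin, div_eq_mul_inv,
    Nat.cast_pow, ← pow_mul, inv_pow, mul_comm n d]

/-- The values of the polynomials. -/
noncomputable def Ad (k : Type u) [Field k] (m d n : ℕ) : ℝ :=
  ((numU m d).coeff n).eval₂ (Nat.castRingHom ℝ) ((Nat.card k : ℝ)⁻¹)

theorem Ad_eq {m : ℕ} (hm : 1 ≤ m) (d n : ℕ) : Ad k m d n = (-1) ^ n *
    coeff n (EN ((Nat.card k : ℝ)⁻¹) d ^ 2 *
      PowerSeries.mk fun n => (Nat.card (QuotPoints k m d n) : ℝ) *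
        ((Nat.card k : ℝ)⁻¹) ^ (d * n)) := by
  have hq : (Nat.card k : ℝ) * (Nat.card k : ℝ)⁻¹ = 1 := mul_inv_cancel₀ q_pos.ne'
  have h1 := congrArg (coeff n) (evR_num hq m d)
  rw [coeff_evR, coeff_evR, zero_mul, one_pow, mul_one] at h1
  rw [Ad, ← h1]
  have h2 := main_Q1 k hm d n
  have h3 : (((num m d).coeff n).eval₂ (Nat.castRingHom ℝ) (Nat.card k : ℝ)) =
      ((((num m d).coeff n).eval (Nat.card k) : ℕ) : ℝ) := by
    have := Polynomial.hom_eval₂ ((num m d).coeff n) (RingHom.id ℕ) (Nat.castRingHom ℝ)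
      (Nat.card k)
    rw [← Polynomial.eval₂_id, RingHom.comp_id] at *
    exact this.symm
  have h4 : (((((num m d).coeff n).eval (Nat.card k) : ℕ) : ℤ) : ℝ) =
      (-1) ^ n * ((coeff n (NZ k m d) : ℤ) : ℝ) := by
    rw [← h2]
    push_cast
    ring
  rw [h3, ← Int.cast_natCast, h4, mul_assoc]
  congr 1
  have h5 : ((coeff n (NZ k m d) : ℤ) : ℝ) * ((Nat.card k : ℝ)⁻¹) ^ (d * n) =
      coeff n (rescale (((Nat.card k : ℝ)⁻¹) ^ d)
        (PowerSeries.map (Int.castRingHom ℝ) (NZ k m d))) := by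
    rw [coeff_rescale, coeff_map, ← pow_mul, mul_comm]
    rfl
  rw [h5, NZ, map_mul, map_pow, map_mul, map_pow]
  congr 2
  · congr 1
    rw [map_prod, map_prod, EN, ← Finset.prod_range_reflect]
    refine Finset.prod_congr rfl fun i hi => ?_
    have hi' : i < d := Finset.mem_range.1 hi
    rw [map_sub, map_sub, map_one, map_one, map_mul, map_mul, PowerSeries.map_C, rescale_C',
      PowerSeries.map_X, rescale_X, ← mul_assoc, ← map_mul]
    congr 3
    obtain ⟨j, hj⟩ := Nat.exists_eq_add_of_lt hi'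
    have h6 : d - 1 - i = j := by omega
    have h7 : d = i + 1 + j := by omega
    rw [h6, h7]
    have h8 : (Int.castRingHom ℝ) ((Nat.card k : ℤ) ^ j) = (Nat.card k : ℝ) ^ j := by simp
    rw [h8, pow_add _ (i + 1) j, mul_left_comm, ← mul_pow, hq, one_pow, mul_one]
  · ext j
    rw [coeff_rescale, coeff_map, coeff_mk, coeff_mk, ← pow_mul, mul_comm]
    simp

theorem exists_lim {m : ℕ} (hm : 1 ≤ m) (n : ℕ) : ∃ a : ℝ,
    Tendsto (fun d => Ad k m d n) atTop (nhds a) ∧
    Tendsto (fun N => (-1) ^ n * coeff n (NZhat k m N)) atTop (nhds a) := by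
  have hx0 : (0 : ℝ) ≤ (Nat.card k : ℝ)⁻¹ := inv_nonneg.2 q_pos.le
  choose c hc using exists_tendsto_EN hx0 (x_lt_one (k := k))
  have h1 : ∀ i, Tendsto (fun N => coeff i (EN ((Nat.card k : ℝ)⁻¹) N ^ 2)) atTop
      (nhds (∑ p ∈ Finset.HasAntidiagonal.antidiagonal i, c p.1 * c p.2)) := by
    intro i
    simp only [sq]
    exact tendsto_coeff_mul hc hc i
  refine ⟨(-1) ^ n * ∑ p ∈ Finset.HasAntidiagonal.antidiagonal n,
    (∑ p' ∈ Finset.HasAntidiagonal.antidiagonal p.1, c p'.1 * c p'.2) * cohCount k m p.2, ?_, ?_⟩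
  · simp only [Ad_eq hm]
    refine Tendsto.const_mul _ (tendsto_coeff_mul h1 (b := fun j => cohCount k m j)
      (fun i => ?_) n)
    simp only [coeff_mk]
    exact tendsto_coh hm i
  · refine Tendsto.const_mul _ (tendsto_coeff_mul h1 (b := fun j => cohCount k m j)
      (fun i => ?_) n)
    simp only [coeff_mk]
    exact tendsto_const_nhds

/-- The coefficients. -/
noncomputable def pc (m n j d : ℕ) : ℕ := ((numU m d).coeff n).coeff j

theorem pc_mono {m : ℕ} (hm : 1 ≤ m) (n j : ℕ) : Monotone (pc m n j) := by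
  obtain ⟨m, rfl⟩ := Nat.exists_eq_add_of_le' hm
  exact monotone_nat_of_le_succ fun d => numU_coeff_le m d n j

theorem hasSum_Ad (m d n : ℕ) :
    HasSum (fun j => (pc m n j d : ℝ) * ((Nat.card k : ℝ)⁻¹) ^ j) (Ad k m d n) := by
  rw [Ad, Polynomial.eval₂_eq_sum_range]
  refine hasSum_sum_of_ne_finset_zero fun j hj => ?_
  have h1 : ((numU m d).coeff n).coeff j = 0 :=
    Polynomial.coeff_eq_zero_of_natDegree_lt (by simpa using hj)
  rw [pc, h1, Nat.cast_zero, zero_mul]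

theorem Ad_mono {m : ℕ} (hm : 1 ≤ m) (n : ℕ) : Monotone fun d => Ad k m d n := by
  intro d d' h
  refine hasSum_le (fun j => ?_) (hasSum_Ad (k := k) m d n) (hasSum_Ad (k := k) m d' n)
  have h1 : (pc m n j d : ℝ) ≤ pc m n j d' := by exact_mod_cast pc_mono hm n j h
  exact mul_le_mul_of_nonneg_right h1 (pow_nonneg (inv_nonneg.2 q_pos.le) j)

theorem pc_bdd {m : ℕ} (hm : 1 ≤ m) (n j : ℕ) : BddAbove (Set.range (pc m n j)) := by
  obtain ⟨a, ha, -⟩ := exists_lim (k := ZMod 2) hm n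
  have h1 : ∀ d, Ad (ZMod 2) m d n ≤ a := fun d => (Ad_mono hm n).ge_of_tendsto ha d
  have hx : (0 : ℝ) < ((Nat.card (ZMod 2) : ℝ)⁻¹) ^ j := by
    have := q_pos (k := ZMod 2)
    positivity
  refine ⟨⌊a / ((Nat.card (ZMod 2) : ℝ)⁻¹) ^ j⌋₊, ?_⟩
  rintro _ ⟨d, rfl⟩
  refine Nat.le_floor ?_
  rw [le_div_iff₀ hx]
  refine le_trans ?_ (h1 d)
  exact le_hasSum (hasSum_Ad (k := ZMod 2) m d n) j fun i _ =>
    mul_nonneg (Nat.cast_nonneg _) (pow_nonneg (inv_nonneg.2 q_pos.le) i)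

/-- The coefficients of the limit. -/
noncomputable def pl (m n j : ℕ) : ℕ := ⨆ d, pc m n j d

theorem tendsto_pc {m : ℕ} (hm : 1 ≤ m) (n j : ℕ) :
    Tendsto (fun d => (pc m n j d : ℝ)) atTop (nhds (pl m n j : ℝ)) := by
  have h1 := tendsto_atTop_ciSup (pc_mono hm n j) (pc_bdd hm n j)
  exact (continuous_of_discreteTopology (f := fun i : ℕ => (i : ℝ))).continuousAt.tendsto.comp h1

theorem pc_le {m : ℕ} (hm : 1 ≤ m) (n j d : ℕ) : pc m n j d ≤ pl m n j :=
  le_ciSup (pc_bdd hm n j) d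

/-- **The second question.** -/
theorem main_Q2 {m : ℕ} (hm : 1 ≤ m) (n : ℕ) : ∃ a : ℝ,
    HasSum (fun j => (pl m n j : ℝ) * ((Nat.card k : ℝ)⁻¹) ^ j) a ∧
    Tendsto (fun N => (-1) ^ n * coeff n (NZhat k m N)) atTop (nhds a) := by
  obtain ⟨a, ha, ha'⟩ := exists_lim (k := k) hm n
  refine ⟨a, ?_, ha'⟩
  have hx : (0 : ℝ) ≤ (Nat.card k : ℝ)⁻¹ := inv_nonneg.2 q_pos.le
  have hnn : ∀ j, 0 ≤ (pl m n j : ℝ) * ((Nat.card k : ℝ)⁻¹) ^ j := fun j => by positivity
  have h1 : ∀ d, Ad k m d n ≤ a := fun d => (Ad_mono hm n).ge_of_tendsto ha d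
  have h2 : ∀ s : Finset ℕ, ∑ j ∈ s, (pl m n j : ℝ) * ((Nat.card k : ℝ)⁻¹) ^ j ≤ a := by
    intro s
    have h3 : Tendsto (fun d => ∑ j ∈ s, (pc m n j d : ℝ) * ((Nat.card k : ℝ)⁻¹) ^ j) atTop
        (nhds (∑ j ∈ s, (pl m n j : ℝ) * ((Nat.card k : ℝ)⁻¹) ^ j)) :=
      tendsto_finsetSum _ fun j _ => (tendsto_pc hm n j).mul_const _
    refine le_of_tendsto' h3 fun d => ?_
    refine le_trans ?_ (h1 d)
    exact sum_le_hasSum s (fun j _ => by positivity) (hasSum_Ad (k := k) m d n)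
  have hs : Summable fun j => (pl m n j : ℝ) * ((Nat.card k : ℝ)⁻¹) ^ j :=
    summable_of_sum_le hnn h2
  have h4 : (∑' j, (pl m n j : ℝ) * ((Nat.card k : ℝ)⁻¹) ^ j) = a := by
    refine le_antisymm (hs.tsum_le_of_sum_le h2) ?_
    refine le_of_tendsto' ha fun d => ?_
    refine hasSum_le (fun j => ?_) (hasSum_Ad (k := k) m d n) hs.hasSum
    have h5 : (pc m n j d : ℝ) ≤ pl m n j := by exact_mod_cast pc_le hm n j d
    exact mul_le_mul_of_nonneg_right h5 (pow_nonneg hx j)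
  rw [← h4]
  exact hs.hasSum

end main

end Pool.Agent.R901.QZ
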