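import Pool.Agent.R901.QZ.Stab

/-!
# The numerator
-/

set_option autoImplicit false
set_option linter.unusedSectionVars false
set_option linter.style.haveILetI false

open scoped ENNReal
open PowerSeries

namespace Pool.Agent.R901.QZ

universe u v w

section semi

variable {A : Type u} {B : Type v} [CommSemiring A] [CommSemiring B]

/-- The transfer operator. -/
noncomputable def Phi (q : A) (u : A) (d : ℕ) (f : ℕ → A) (r : ℕ) : A :=
  ∑ e ∈ Finset.range (d - r + 1),
    ((gauss (d - r) e).eval₂ (Nat.castRingHom A) q) * q ^ (r * e) * (u ^ e * f (d - e))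

theorem Phi_map (h : A →+* B) (q u : A) (d : ℕ) (f : ℕ → A) (r : ℕ) :
    h (Phi q u d f r) = Phi (h q) (h u) d (fun r => h (f r)) r := by
  rw [Phi, Phi, map_sum]
  refine Finset.sum_congr rfl fun e _ => ?_
  rw [map_mul, map_mul, map_mul, map_pow, map_pow, Polynomial.hom_eval₂]
  rw [show h.comp (Nat.castRingHom A) = Nat.castRingHom B from Subsingleton.elim _ _]

theorem Phi_iter_map (h : A →+* B) (q u : A) (d : ℕ) (f : ℕ → A) (m r : ℕ) :
    h ((Phi q u d)^[m] f r) = (Phi (h q) (h u) d)^[m] (fun r => h (f r)) r := by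
  induction m generalizing f with
  | zero => rfl
  | succ m ih =>
    rw [Function.iterate_succ_apply, Function.iterate_succ_apply, ih,
      show (fun r => h (Phi q u d f r)) = Phi (h q) (h u) d (fun r => h (f r)) from
        funext fun r => Phi_map h q u d f r]

theorem Phi_congr {q u : A} {d : ℕ} {f g : ℕ → A} (h : ∀ r ≤ d, f r = g r) (r : ℕ) :
    Phi q u d f r = Phi q u d g r := by
  rw [Phi, Phi]
  exact Finset.sum_congr rfl fun e _ => by rw [h _ (Nat.sub_le _ _)]

theorem Phi_iter_congr {q u : A} {d : ℕ} (m : ℕ) {f g : ℕ → A} (h : ∀ r ≤ d, f r = g r) :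
    ∀ r ≤ d, (Phi q u d)^[m] f r = (Phi q u d)^[m] g r := by
  induction m generalizing f g with
  | zero => exact h
  | succ m ih =>
    rw [Function.iterate_succ_apply, Function.iterate_succ_apply]
    exact ih fun r _ => Phi_congr h r

theorem Phi_mul (c : A) (q u : A) (d : ℕ) (f : ℕ → A) (r : ℕ) :
    Phi q u d (fun r => c * f r) r = c * Phi q u d f r := by
  rw [Phi, Phi, Finset.mul_sum]
  refine Finset.sum_congr rfl fun e _ => ?_
  ring

theorem Phi_iter_mul (c : A) (q u : A) (d : ℕ) (f : ℕ → A) (m r : ℕ) :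
    (Phi q u d)^[m] (fun r => c * f r) r = c * (Phi q u d)^[m] f r := by
  induction m generalizing f with
  | zero => rfl
  | succ m ih =>
    rw [Function.iterate_succ_apply, Function.iterate_succ_apply]
    have : Phi q u d (fun r => c * f r) = fun r => c * Phi q u d f r :=
      funext fun r => Phi_mul c q u d f r
    rw [this, ih]

end semi

section H

variable {k : Type u} [Field k] [Finite k] {V : Type v} [AddCommGroup V] [Module k⟦X⟧ V]

theorem Cn_eq (q d r c : ℕ) (u : PowerSeries ℝ≥0∞) (f : ℕ → PowerSeries ℝ≥0∞) :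
    Cn q (d - r) (fun e => ((q ^ (r * e) : ℕ) : PowerSeries ℝ≥0∞) * (u ^ (c + e) * f (d - e))) =
      u ^ c * Phi (q : PowerSeries ℝ≥0∞) u d f r := by
  rw [Cn, Phi, Finset.mul_sum]
  refine Finset.sum_congr rfl fun e _ => ?_
  have h1 : (gauss (d - r) e).eval₂ (Nat.castRingHom (PowerSeries ℝ≥0∞)) (q : PowerSeries ℝ≥0∞) =
      (((gauss (d - r) e).eval q : ℕ) : PowerSeries ℝ≥0∞) := by
    have := Polynomial.hom_eval₂ (gauss (d - r) e) (RingHom.id ℕ)
      (Nat.castRingHom (PowerSeries ℝ≥0∞)) q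
    rw [← Polynomial.eval₂_id, RingHom.comp_id] at *
    exact this.symm
  rw [h1, Nat.cast_pow]
  ring

theorem H_eq {d : ℕ} (b : Module.Basis (Fin d) k⟦X⟧ V) (m : ℕ) (u : PowerSeries ℝ≥0∞)
    (f : ℕ → PowerSeries ℝ≥0∞) : H k V m (fun c r => u ^ c * f r) =
      (Phi (Nat.card k : PowerSeries ℝ≥0∞) u d)^[m] f 0 := by
  induction m generalizing f with
  | zero =>
    rw [H_zero, pow_zero, one_mul]
    rfl
  | succ m ih =>
    rw [H_succ b, Function.iterate_succ_apply, ← ih]
    congr 1
    funext c r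
    exact Cn_eq _ _ _ _ _ _

end H

section nat

/-- The geometric series with natural coefficients. -/
noncomputable def geoN (a : ℕ) : PowerSeries ℕ := PowerSeries.mk fun n => a ^ n

/-- The product of the geometric series. -/
noncomputable def FN (q d r : ℕ) : PowerSeries ℕ := ∏ i ∈ Finset.range (d - r), geoN (q ^ (r + i))

/-- The generating function with natural coefficients. -/
noncomputable def ZN (q d m : ℕ) : PowerSeries ℕ :=
  FN q d 0 * (Phi (q : PowerSeries ℕ) (((q ^ d : ℕ) : PowerSeries ℕ) * X ^ 2) d)^[m] (FN q d) 0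

theorem map_FN (q d r : ℕ) :
    PowerSeries.map (Nat.castRingHom ℝ≥0∞) (FN q d r) = Fq q d r := by
  rw [FN, Fq, map_prod]
  refine Finset.prod_congr rfl fun i _ => ?_
  ext n
  rw [coeff_map, geoN, geo, coeff_mk, coeff_mk]
  simp

theorem ZS_eq_map {k : Type u} [Field k] [Finite k] {V : Type v} [AddCommGroup V]
    [Module k⟦X⟧ V] {d : ℕ} (bV : Module.Basis (Fin d) k⟦X⟧ V) (m : ℕ) :
    ZS k V m = PowerSeries.map (Nat.castRingHom ℝ≥0∞) (ZN (Nat.card k) d m) := by
  rw [ZS_eq bV, ZN, map_mul, map_FN, Phi_iter_map, map_mul, map_pow, map_natCast, map_natCast,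
    PowerSeries.map_X]
  congr 1
  have h1 : (fun c r => ((Nat.card k ^ (c * d) : ℕ) : PowerSeries ℝ≥0∞) * X ^ (2 * c) *
      Fq (Nat.card k) d r) = fun c r =>
      (((Nat.card k ^ d : ℕ) : PowerSeries ℝ≥0∞) * X ^ 2) ^ c * Fq (Nat.card k) d r := by
    funext c r
    rw [mul_pow, ← pow_mul, Nat.cast_pow, Nat.cast_pow, ← pow_mul, mul_comm c d]
  rw [h1, H_eq bV, show Fq (Nat.card k) d = fun r =>
    PowerSeries.map (Nat.castRingHom ℝ≥0∞) (FN (Nat.card k) d r) from
      funext fun r => (map_FN _ _ _).symm]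

/-- The product `(t; q)_r`. -/
noncomputable def D (q r : ℕ) : PowerSeries ℤ := ∏ i ∈ Finset.range r, (1 - C ((q : ℤ) ^ i) * X)

theorem D_mul_geo (a : ℕ) : (1 - C (a : ℤ) * X) *
    PowerSeries.map (Nat.castRingHom ℤ) (geoN a) = 1 := by
  ext n
  rw [sub_mul, one_mul, map_sub, mul_assoc, coeff_C_mul, mul_comm X]
  cases n with
  | zero => simp [geoN]
  | succ n =>
    rw [coeff_succ_mul_X, coeff_map, coeff_map, geoN, coeff_mk, coeff_mk, coeff_one,
      if_neg n.succ_ne_zero]
    simp only [Nat.coe_castRingHom, Nat.cast_pow]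
    ring

theorem D_mul_FN (q : ℕ) {d r : ℕ} (hr : r ≤ d) :
    D q d * PowerSeries.map (Nat.castRingHom ℤ) (FN q d r) = D q r := by
  obtain ⟨n, rfl⟩ := Nat.exists_eq_add_of_le hr
  rw [FN, Nat.add_sub_cancel_left, map_prod, D, Finset.prod_range_add, D, mul_assoc,
    ← Finset.prod_mul_distrib]
  have h1 : ∀ i, (1 - C ((q : ℤ) ^ (r + i)) * X) *
      PowerSeries.map (Nat.castRingHom ℤ) (geoN (q ^ (r + i))) = 1 := by
    intro i
    have := D_mul_geo (q ^ (r + i))
    rwa [Nat.cast_pow] at this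
  rw [Finset.prod_congr rfl fun i _ => h1 i, Finset.prod_const_one, mul_one]

theorem numerator_eq (q d m : ℕ) :
    D q d ^ 2 * PowerSeries.map (Nat.castRingHom ℤ) (ZN q d m) =
      (Phi (q : PowerSeries ℤ) (((q ^ d : ℕ) : PowerSeries ℤ) * X ^ 2) d)^[m] (D q) 0 := by
  rw [ZN, map_mul, Phi_iter_map, map_mul, map_pow, map_natCast, map_natCast, PowerSeries.map_X]
  have h1 : D q d * PowerSeries.map (Nat.castRingHom ℤ) (FN q d 0) = 1 := by
    rw [D_mul_FN q (Nat.zero_le d), D, Finset.range_zero, Finset.prod_empty]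
  rw [sq, mul_mul_mul_comm, h1, one_mul, ← Phi_iter_mul]
  exact Phi_iter_congr m (fun r hr => D_mul_FN q hr) 0 (Nat.zero_le d)

end nat

section poly

/-- The numerator `NZ (- t)`, as a polynomial in `t` whose coefficients are polynomials in `L` with
natural coefficients. -/
noncomputable def num (m d : ℕ) : Polynomial (Polynomial ℕ) :=
  (Phi (Polynomial.C Polynomial.X : Polynomial (Polynomial ℕ))
    (Polynomial.C (Polynomial.X ^ d) * Polynomial.X ^ 2) d)^[m]
    (fun r => ∏ i ∈ Finset.range r, (1 + Polynomial.C (Polynomial.X ^ i) * Polynomial.X)) 0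

/-- The evaluation `L = q`, `t = - X`. -/
noncomputable def evZ (q : ℕ) : Polynomial (Polynomial ℕ) →+* PowerSeries ℤ :=
  Polynomial.eval₂RingHom ((Nat.castRingHom (PowerSeries ℤ)).comp (Polynomial.evalRingHom q))
    (-X : PowerSeries ℤ)

theorem evZ_num (q m d : ℕ) : evZ q (num m d) =
    (Phi (q : PowerSeries ℤ) (((q ^ d : ℕ) : PowerSeries ℤ) * X ^ 2) d)^[m] (D q) 0 := by
  have hC : ∀ p : Polynomial ℕ, evZ q (Polynomial.C p) = ((p.eval q : ℕ) : PowerSeries ℤ) := by
    intro p
    simp [evZ]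
  have hX : evZ q Polynomial.X = -X := by simp [evZ]
  have h1 := Phi_iter_map (evZ q) (Polynomial.C Polynomial.X : Polynomial (Polynomial ℕ))
    (Polynomial.C (Polynomial.X ^ d) * Polynomial.X ^ 2) d
    (fun r => ∏ i ∈ Finset.range r, (1 + Polynomial.C (Polynomial.X ^ i) * Polynomial.X)) m 0
  have h2 : (fun r => evZ q (∏ i ∈ Finset.range r,
      (1 + Polynomial.C (Polynomial.X ^ i) * Polynomial.X))) = D q := by
    funext r
    rw [map_prod, D]
    refine Finset.prod_congr rfl fun i _ => ?_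
    rw [map_add, map_one, map_mul, hC, hX, Polynomial.eval_pow, Polynomial.eval_X, mul_neg,
      sub_eq_add_neg]
    simp
  have hu : evZ q (Polynomial.C (Polynomial.X ^ d) * Polynomial.X ^ 2) =
      ((q ^ d : ℕ) : PowerSeries ℤ) * X ^ 2 := by
    rw [map_mul, hC, Polynomial.eval_pow, Polynomial.eval_X, map_pow, hX, neg_sq]
  rw [hu, hC, Polynomial.eval_X, h2] at h1
  exact h1

theorem coeff_evZ (q : ℕ) (P : Polynomial (Polynomial ℕ)) (n : ℕ) :
    coeff n (evZ q P) = (-1) ^ n * ((P.coeff n).eval q : ℕ) := by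
  induction P using Polynomial.induction_on' with
  | add P Q hP hQ =>
    rw [map_add, map_add, hP, hQ, Polynomial.coeff_add, Polynomial.eval_add]
    push_cast
    ring
  | monomial i p =>
    rw [Polynomial.coeff_monomial]
    have h1 : evZ q (Polynomial.monomial i p) = C (((p.eval q : ℕ) : ℤ) * (-1) ^ i) * X ^ i := by
      simp only [evZ, Polynomial.coe_eval₂RingHom, Polynomial.eval₂_monomial, RingHom.comp_apply,
        Polynomial.coe_evalRingHom, Nat.coe_castRingHom, map_mul, map_pow, map_neg, map_one,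
        map_natCast, neg_pow (X : PowerSeries ℤ)]
      ring
    rw [h1, coeff_C_mul, coeff_X_pow]
    by_cases h : i = n
    · subst h
      rw [if_pos rfl, if_pos rfl]
      ring
    · rw [if_neg h, if_neg (Ne.symm h)]
      simp

theorem main_numerator (q d m n : ℕ) :
    (-1) ^ n * coeff n (D q d ^ 2 * PowerSeries.map (Nat.castRingHom ℤ) (ZN q d m)) =
      ((((num m d).coeff n).eval q : ℕ) : ℤ) := by
  rw [numerator_eq, ← evZ_num, coeff_evZ, ← mul_assoc, ← mul_pow]
  simp

end poly

end Pool.Agent.R901.QZ
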