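import Pool.Agent.R901.QZ.Sums

/-!
# The sum over the lattices
-/

set_option autoImplicit false
set_option linter.unusedSectionVars false
set_option linter.style.haveILetI false

open scoped ENNReal
open PowerSeries

namespace Pool.Agent.R901.QZ

universe u v w

section index

variable {A : Type u} {V : Type v} [Ring A] [AddCommGroup V] [Module A V]

theorem card_quot_eq_index (B : Submodule A V) : Nat.card (V ⧸ B) = B.toAddSubgroup.index := rfl

theorem card_sub_quot (B : Submodule A V) (N : Submodule A B) :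
    Nat.card (B ⧸ N) = (N.map B.subtype).toAddSubgroup.relIndex B.toAddSubgroup := by
  rw [card_quot_eq_index, AddSubgroup.relIndex]
  congr 1
  ext x
  rw [AddSubgroup.mem_addSubgroupOf, Submodule.mem_toAddSubgroup, Submodule.mem_toAddSubgroup,
    Submodule.mem_map]
  constructor
  · intro h
    exact ⟨x, h, rfl⟩
  · rintro ⟨y, hy, hyx⟩
    have : y = x := Subtype.ext hyx
    exact this ▸ hy

theorem card_quot_map (B : Submodule A V) (N : Submodule A B) :
    Nat.card (V ⧸ N.map B.subtype) = Nat.card (V ⧸ B) * Nat.card (B ⧸ N) := by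
  rw [card_sub_quot, card_quot_eq_index, card_quot_eq_index, mul_comm]
  exact (AddSubgroup.relIndex_mul_index (Submodule.map_subtype_le B N)).symm

end index

variable {k : Type u} [Field k] [Finite k]

theorem card_mod_X {M : Type v} [AddCommGroup M] [Module k⟦X⟧ M] {d : ℕ}
    (b : Module.Basis (Fin d) k⟦X⟧ M) :
    Nat.card (M ⧸ (tl 1 ⊤ : Submodule k⟦X⟧ M)) = Nat.card k ^ d := by
  let f : M →+ (Fin d → k) :=
    { toFun := fun x i => constantCoeff (b.repr x i)
      map_zero' := by ext i; simp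
      map_add' := fun x y => by ext i; simp }
  have hf : Function.Surjective f := by
    intro c
    refine ⟨∑ i, (C (c i) : k⟦X⟧) • b i, ?_⟩
    ext i
    show constantCoeff (b.repr (∑ i, (C (c i) : k⟦X⟧) • b i) i) = c i
    rw [b.repr_sum_self]
    simp
  have hk : f.ker = (tl 1 ⊤ : Submodule k⟦X⟧ M).toAddSubgroup := by
    ext x
    rw [AddMonoidHom.mem_ker, Submodule.mem_toAddSubgroup, mem_tl]
    constructor
    · intro h
      have h1 : ∀ i, ∃ t : k⟦X⟧, b.repr x i = X * t := fun i => X_dvd_iff.2 (congrFun h i)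
      choose t ht using h1
      refine ⟨∑ i, t i • b i, trivial, ?_⟩
      rw [pow_one, Finset.smul_sum]
      conv_rhs => rw [← b.sum_repr x]
      exact Finset.sum_congr rfl fun i _ => by rw [ht, mul_smul]
    · rintro ⟨y, -, rfl⟩
      ext i
      show constantCoeff (b.repr ((X : k⟦X⟧) ^ 1 • y) i) = 0
      rw [map_smul, Finsupp.smul_apply, smul_eq_mul, map_mul]
      simp
  rw [card_quot_eq_index, ← hk, AddSubgroup.index_ker, AddMonoidHom.range_eq_top.2 hf,
    AddSubgroup.card_top, Nat.card_fun, Nat.card_fin]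

section H

variable {V : Type v} [AddCommGroup V] [Module k⟦X⟧ V]

/-- The rank of the lattice `B` modulo `X ^ m V`. -/
noncomputable def rk (m : ℕ) (B : Submodule k⟦X⟧ V) : ℕ :=
  ld k (B ⧸ ((tl m ⊤ : Submodule k⟦X⟧ V).comap B.subtype ⊔ tl 1 ⊤))

/-- The sum over the lattices between `X ^ m V` and `V`. -/
noncomputable def H (k : Type u) [Field k] (V : Type v) [AddCommGroup V] [Module k⟦X⟧ V] (m : ℕ)
    (G : ℕ → ℕ → PowerSeries ℝ≥0∞) : PowerSeries ℝ≥0∞ :=
  S fun B : {B : Submodule k⟦X⟧ V // tl m ⊤ ≤ B} => G (ld k (V ⧸ B.1)) (rk m B.1)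

theorem H_zero (G : ℕ → ℕ → PowerSeries ℝ≥0∞) : H k V 0 G = G 0 0 := by
  have h0 : ∀ B : {B : Submodule k⟦X⟧ V // tl 0 ⊤ ≤ B}, B = ⟨⊤, le_top⟩ := by
    rintro ⟨B, hB⟩
    rw [tl_zero, top_le_iff] at hB
    exact Subtype.ext hB
  rw [H, S_single ⟨⊤, le_top⟩]
  · congr 1
    · refine ld_of_card ?_
      rw [pow_zero]
      exact Nat.card_unique
    · rw [rk]
      refine ld_of_card ?_
      rw [pow_zero, tl_zero, Submodule.comap_top, top_sup_eq]
      exact Nat.card_unique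
  · intro B hB
    exact absurd (h0 B) hB

theorem finite_quot_tl {d : ℕ} (b : Module.Basis (Fin d) k⟦X⟧ V) (m : ℕ)
    {B : Submodule k⟦X⟧ V} (hB : tl m ⊤ ≤ B) : Finite (V ⧸ B) := by
  induction m generalizing B with
  | zero =>
    rw [tl_zero, top_le_iff] at hB
    subst hB
    infer_instance
  | succ m ih =>
    have h1 : Finite (V ⧸ (B ⊔ tl m ⊤)) := ih le_sup_right
    obtain ⟨c⟩ := nonempty_basis_of_finite b _ h1
    have h2 : tl 1 ⊤ ≤ B.comap (B ⊔ tl m ⊤).subtype := by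
      intro x hx
      obtain ⟨⟨y, hy⟩, -, rfl⟩ := mem_tl.1 hx
      show (X : k⟦X⟧) ^ 1 • y ∈ B
      obtain ⟨y1, hy1, y2, hy2, rfl⟩ := Submodule.mem_sup.1 hy
      rw [smul_add]
      refine B.add_mem (B.smul_mem _ hy1) (hB ?_)
      obtain ⟨z, -, rfl⟩ := mem_tl.1 hy2
      refine mem_tl.2 ⟨z, trivial, ?_⟩
      rw [smul_smul, ← pow_add, add_comm]
    have h3 : Finite ((B ⊔ tl m ⊤ : Submodule k⟦X⟧ V) ⧸ B.comap (B ⊔ tl m ⊤).subtype) :=
      finite_quotient c h2
    have h4 : (B.comap (B ⊔ tl m ⊤).subtype).map (B ⊔ tl m ⊤).subtype = B := by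
      rw [Submodule.map_comap_subtype]
      exact inf_eq_right.2 le_sup_left
    have h5 := card_quot_map (B ⊔ tl m ⊤) (B.comap (B ⊔ tl m ⊤).subtype)
    rw [h4] at h5
    refine Nat.finite_of_card_ne_zero ?_
    rw [h5]
    exact mul_ne_zero Nat.card_pos.ne' Nat.card_pos.ne'

theorem map_tl_top (B : Submodule k⟦X⟧ V) (n : ℕ) :
    (tl n (⊤ : Submodule k⟦X⟧ B)).map B.subtype = tl n B := by
  ext x
  rw [Submodule.mem_map, mem_tl]
  constructor
  · rintro ⟨y, hy, rfl⟩
    obtain ⟨z, -, rfl⟩ := mem_tl.1 hy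
    exact ⟨z, z.2, rfl⟩
  · rintro ⟨z, hz, rfl⟩
    exact ⟨(X : k⟦X⟧) ^ n • ⟨z, hz⟩, mem_tl.2 ⟨_, trivial, rfl⟩, rfl⟩

/-- The lattices over a given one. -/
noncomputable def fibEquiv (m : ℕ) (B' : {B : Submodule k⟦X⟧ V // tl m ⊤ ≤ B}) :
    {L : Submodule k⟦X⟧ B'.1 // tl 1 ⊤ ≤ L ∧
      L ⊔ (tl m ⊤ : Submodule k⟦X⟧ V).comap B'.1.subtype = ⊤} ≃
    {B : {B : Submodule k⟦X⟧ V // tl (m + 1) ⊤ ≤ B} //
      (⟨B.1 ⊔ tl m ⊤, le_sup_right⟩ : {B : Submodule k⟦X⟧ V // tl m ⊤ ≤ B}) = B'} where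
  toFun L := ⟨⟨L.1.map B'.1.subtype, by
      refine le_trans ?_ (Submodule.map_mono L.2.1)
      rw [map_tl_top, add_comm, ← tl_tl]
      exact tl_mono 1 B'.2⟩, by
      refine Subtype.ext ?_
      show L.1.map B'.1.subtype ⊔ tl m ⊤ = B'.1
      have h1 := congrArg (Submodule.map B'.1.subtype) L.2.2
      rw [Submodule.map_sup, Submodule.map_comap_subtype, Submodule.map_subtype_top,
        inf_eq_right.2 B'.2] at h1
      exact h1⟩
  invFun B := ⟨B.1.1.comap B'.1.subtype, by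
      have hB : B.1.1 ⊔ tl m ⊤ = B'.1 := congrArg Subtype.val B.2
      constructor
      · rw [← Submodule.map_le_iff_le_comap, map_tl_top, ← hB, tl_sup, tl_tl, add_comm 1 m]
        exact sup_le (tl_le 1 _) B.1.2
      · have hle : B.1.1 ≤ B'.1 := by rw [← hB]; exact le_sup_left
        refine Submodule.map_injective_of_injective (Submodule.injective_subtype B'.1) ?_
        rw [Submodule.map_sup, Submodule.map_comap_subtype, Submodule.map_comap_subtype,
          Submodule.map_subtype_top, inf_eq_right.2 B'.2, inf_eq_right.2 hle, hB]⟩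
  left_inv L := Subtype.ext (Submodule.comap_map_eq_of_injective
    (Submodule.injective_subtype B'.1) L.1)
  right_inv B := by
    have hB : B.1.1 ⊔ tl m ⊤ = B'.1 := congrArg Subtype.val B.2
    have hle : B.1.1 ≤ B'.1 := by rw [← hB]; exact le_sup_left
    refine Subtype.ext (Subtype.ext ?_)
    show (B.1.1.comap B'.1.subtype).map B'.1.subtype = B.1.1
    rw [Submodule.map_comap_subtype, inf_eq_right.2 hle]

theorem H_succ {d : ℕ} (b : Module.Basis (Fin d) k⟦X⟧ V) (m : ℕ)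
    (G : ℕ → ℕ → PowerSeries ℝ≥0∞) : H k V (m + 1) G =
      H k V m (fun c r => Cn (Nat.card k) (d - r)
        (fun e => ((Nat.card k ^ (r * e) : ℕ) : PowerSeries ℝ≥0∞) * G (c + e) (d - e))) := by
  classical
  rw [H, S_fiber (fun B : {B : Submodule k⟦X⟧ V // tl (m + 1) ⊤ ≤ B} =>
    (⟨B.1 ⊔ tl m ⊤, le_sup_right⟩ : {B : Submodule k⟦X⟧ V // tl m ⊤ ≤ B})), H]
  refine S_congr fun B' => ?_
  have hfin : Finite (V ⧸ B'.1) := finite_quot_tl b m B'.2
  obtain ⟨c⟩ := nonempty_basis_of_finite b B'.1 hfin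
  have hX : tl 1 ⊤ ≤ (tl m ⊤ : Submodule k⟦X⟧ V).comap B'.1.subtype ⊔ tl 1 ⊤ := le_sup_right
  have hfin2 : Finite (B'.1 ⧸ ((tl m ⊤ : Submodule k⟦X⟧ V).comap B'.1.subtype ⊔ tl 1 ⊤)) :=
    finite_quotient c hX
  have h1 := G_lemma c ((tl m ⊤ : Submodule k⟦X⟧ V).comap B'.1.subtype) (r := rk m B'.1)
    (card_eq_pow_ld k _) (fun e => G (ld k (V ⧸ B'.1) + e) (d - e))
  rw [← h1, S_subtype, ← S_equiv (fibEquiv m B')]
  refine S_congr fun L => ?_
  have hfin3 : Finite (B'.1 ⧸ L.1) := finite_quotient c L.2.1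
  congr 1
  · show ld k (V ⧸ L.1.map B'.1.subtype) = _
    refine ld_of_card ?_
    rw [card_quot_map, card_eq_pow_ld k (V ⧸ B'.1), card_eq_pow_ld k (B'.1 ⧸ L.1), pow_add,
      ← card_eq_pow_ld k (V ⧸ B'.1), ← card_eq_pow_ld k (B'.1 ⧸ L.1)]
  · show rk (m + 1) (L.1.map B'.1.subtype) = _
    rw [rk]
    have h2 : L.1.map B'.1.subtype ⊔ tl m ⊤ = B'.1 :=
      congrArg Subtype.val (fibEquiv m B' L).2
    have h3 : tl (m + 1) ⊤ ≤ L.1.map B'.1.subtype := (fibEquiv m B' L).1.2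
    -- the index of `X B'` in `B`
    have h4 : Nat.card ((L.1.map B'.1.subtype) ⧸
        ((tl (m + 1) ⊤ : Submodule k⟦X⟧ V).comap (L.1.map B'.1.subtype).subtype ⊔ tl 1 ⊤)) =
        (tl 1 B'.1).toAddSubgroup.relIndex (L.1.map B'.1.subtype).toAddSubgroup := by
      rw [card_sub_quot, Submodule.map_sup, Submodule.map_comap_subtype, map_tl_top,
        inf_eq_right.2 h3]
      congr 2
      conv_rhs => rw [← h2]
      rw [tl_sup, tl_tl, add_comm 1 m, sup_comm]
    have h5 : (L.1.map B'.1.subtype).toAddSubgroup.relIndex B'.1.toAddSubgroup =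
        Nat.card (B'.1 ⧸ L.1) := (card_sub_quot B'.1 L.1).symm
    have h6 : (tl 1 B'.1).toAddSubgroup.relIndex B'.1.toAddSubgroup = Nat.card k ^ d := by
      rw [← card_mod_X c, card_sub_quot, map_tl_top]
    have h7 : tl 1 B'.1 ≤ L.1.map B'.1.subtype := by
      rw [← map_tl_top]
      exact Submodule.map_mono L.2.1
    have h8 := AddSubgroup.relIndex_mul_relIndex (tl 1 B'.1).toAddSubgroup
      (L.1.map B'.1.subtype).toAddSubgroup B'.1.toAddSubgroup h7 (Submodule.map_subtype_le _ _)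
    rw [h5, h6, card_eq_pow_ld k (B'.1 ⧸ L.1), ← h4] at h8
    have hq := one_lt_q k
    have h9 : ld k (B'.1 ⧸ L.1) ≤ d := by
      refine (Nat.pow_le_pow_iff_right hq).1 ?_
      exact Nat.le_of_dvd (pow_pos (zero_lt_one.trans hq) d) (Dvd.intro_left _ h8)
    refine ld_of_card ?_
    refine Nat.eq_of_mul_eq_mul_right (pow_pos (zero_lt_one.trans hq) (ld k (B'.1 ⧸ L.1))) ?_
    rw [h8, ← pow_add, Nat.sub_add_cancel h9]

end H

end Pool.Agent.R901.QZ
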