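import Pool.Agent.R901.QZ.Pol
import Pool.Agent.R901.QZ.Def

/-!
# Modules over the local ring of the curve
-/

set_option autoImplicit false
set_option linter.unusedSectionVars false
set_option linter.style.haveILetI false

open scoped ENNReal
open PowerSeries

namespace Pool.Agent.R901.QZ

universe u v w

section transport

variable {R : Type u} {S' : Type v} {M : Type w} {N : Type*} [CommRing R] [CommRing S']
  [AddCommGroup M] [Module R M] [AddCommGroup N] [Module S' N]

theorem exists_transport (Ψ : M ≃+ N) (ι : S' →+* R) (y : R) (τ : N → N)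
    (hι : ∀ s x, Ψ (ι s • x) = s • Ψ x) (hy : ∀ x, Ψ (y • x) = τ (Ψ x))
    (hgen : ∀ r, ∃ a b, r = ι a + ι b * y) :
    ∃ e : Submodule R M ≃ {L : Submodule S' N // ∀ x ∈ L, τ x ∈ L},
      ∀ L, Nat.card (N ⧸ (e L).1) = Nat.card (M ⧸ L) := by
  have hι' : ∀ s x, Ψ.symm (s • x) = ι s • Ψ.symm x := fun s x => by
    rw [AddEquiv.symm_apply_eq, hι, Ψ.apply_symm_apply]
  have hy' : ∀ x, Ψ.symm (τ x) = y • Ψ.symm x := fun x => by
    rw [AddEquiv.symm_apply_eq, hy, Ψ.apply_symm_apply]
  let e : Submodule R M ≃ {L : Submodule S' N // ∀ x ∈ L, τ x ∈ L} :=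
    { toFun := fun L => ⟨
        { carrier := {x | Ψ.symm x ∈ L}
          zero_mem' := by
            show Ψ.symm 0 ∈ L
            rw [map_zero]
            exact L.zero_mem
          add_mem' := fun {a b} ha hb => by
            show Ψ.symm (a + b) ∈ L
            rw [map_add]
            exact L.add_mem ha hb
          smul_mem' := fun s x hx => by
            show Ψ.symm (s • x) ∈ L
            rw [hι']
            exact L.smul_mem _ hx }, fun x hx => by
            show Ψ.symm (τ x) ∈ L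
            rw [hy']
            exact L.smul_mem _ hx⟩
      invFun := fun L =>
        { carrier := {x | Ψ x ∈ L.1}
          zero_mem' := by
            show Ψ 0 ∈ L.1
            rw [map_zero]
            exact L.1.zero_mem
          add_mem' := fun {a b} ha hb => by
            show Ψ (a + b) ∈ L.1
            rw [map_add]
            exact L.1.add_mem ha hb
          smul_mem' := fun r x hx => by
            show Ψ (r • x) ∈ L.1
            obtain ⟨a, b, rfl⟩ := hgen r
            rw [add_smul, mul_smul, map_add, hι, hι, hy]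
            exact L.1.add_mem (L.1.smul_mem _ hx) (L.1.smul_mem _ (L.2 _ hx)) }
      left_inv := fun L => by
        ext x
        show Ψ.symm (Ψ x) ∈ L ↔ x ∈ L
        rw [Ψ.symm_apply_apply]
      right_inv := fun L => by
        refine Subtype.ext ?_
        ext x
        show Ψ (Ψ.symm x) ∈ L.1 ↔ x ∈ L.1
        rw [Ψ.apply_symm_apply] }
  refine ⟨e, fun L => ?_⟩
  have h1 : (e L).1.toAddSubgroup = L.toAddSubgroup.map (Ψ : M →+ N) := by
    ext x
    rw [AddSubgroup.mem_map]
    constructor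
    · intro h
      exact ⟨Ψ.symm x, h, Ψ.apply_symm_apply x⟩
    · rintro ⟨z, hz, rfl⟩
      show Ψ.symm (Ψ z) ∈ L
      rw [Ψ.symm_apply_apply]
      exact hz
  rw [card_quot_eq_index, card_quot_eq_index, h1, AddSubgroup.index_map_equiv]

end transport

variable (k : Type u) [Field k]

/-- The polynomial `Y (Y - T ^ m)`. -/
noncomputable def gp (m : ℕ) : Polynomial k⟦X⟧ :=
  Polynomial.X * (Polynomial.X - Polynomial.C ((X : k⟦X⟧) ^ m))

/-- `k[[x]]` in one variable of two kinds. -/
noncomputable def oneVar : MvPowerSeries (Fin 1) k ≃ₐ[k] k⟦X⟧ :=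
  MvPowerSeries.renameEquiv k (Equiv.ofUnique (Fin 1) Unit)

theorem oneVar_X : oneVar k (MvPowerSeries.X 0) = (X : k⟦X⟧) := by
  rw [oneVar]
  simp [MvPowerSeries.renameEquiv]
  rfl

/-- Isomorphic rings have isomorphic power series rings. -/
noncomputable def mapRE {A : Type u} {B : Type v} [CommRing A] [CommRing B] (e : A ≃+* B) :
    A⟦X⟧ ≃+* B⟦X⟧ where
  __ := PowerSeries.map (e : A →+* B)
  invFun := PowerSeries.map (e.symm : B →+* A)
  left_inv f := by
    ext n
    show coeff n (PowerSeries.map (e.symm : B →+* A) (PowerSeries.map (e : A →+* B) f)) = _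
    simp
  right_inv f := by
    ext n
    show coeff n (PowerSeries.map (e : A →+* B) (PowerSeries.map (e.symm : B →+* A) f)) = _
    simp

theorem mapRE_apply {A : Type u} {B : Type v} [CommRing A] [CommRing B] (e : A ≃+* B)
    (f : A⟦X⟧) : mapRE e f = PowerSeries.map (e : A →+* B) f := rfl

/-- The isomorphism of the preparation theorem. -/
noncomputable def prep {A : Type u} [CommRing A] {g : Polynomial A} {I : Ideal A}
    (h : g.IsDistinguishedAt I) [IsAdicComplete I A] :
    (Polynomial A ⧸ Ideal.span {g}) ≃+* A⟦X⟧ ⧸ Ideal.span {(g : A⟦X⟧)} :=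
  h.algEquivQuotient.toRingEquiv

theorem prep_mk {A : Type u} [CommRing A] {g : Polynomial A} {I : Ideal A}
    (h : g.IsDistinguishedAt I) [IsAdicComplete I A] (f : Polynomial A) :
    prep h (Ideal.Quotient.mk _ f) = Ideal.Quotient.mk _ (f : A⟦X⟧) := by
  show h.algEquivQuotient (Ideal.Quotient.mk _ f) = _
  rw [Polynomial.IsDistinguishedAt.algEquivQuotient_apply]
  simp

/-- `k[[x, y]] = k[[x]][[y]]`. -/
noncomputable def twoVar : MvPowerSeries (Fin 2) k ≃+* (k⟦X⟧)⟦X⟧ :=
  (MvPowerSeries.finSuccEquiv k 1).toRingEquiv.trans (mapRE (oneVar k).toRingEquiv)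

theorem twoVar_apply (f : MvPowerSeries (Fin 2) k) : twoVar k f =
    PowerSeries.map ((oneVar k).toRingEquiv : MvPowerSeries (Fin 1) k →+* k⟦X⟧)
      (MvPowerSeries.finSuccEquiv k 1 f) := rfl

theorem twoVar_X_zero : twoVar k (MvPowerSeries.X 0) = (X : (k⟦X⟧)⟦X⟧) := by
  rw [twoVar_apply, MvPowerSeries.finSuccEquiv_X_zero, PowerSeries.map_X]

theorem twoVar_X_one : twoVar k (MvPowerSeries.X 1) = (C (X : k⟦X⟧) : (k⟦X⟧)⟦X⟧) := by
  have h := MvPowerSeries.finSuccEquiv_X_succ (R := k) (n := 1) 0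
  have h1 : (Fin.succ 0 : Fin 2) = 1 := rfl
  rw [h1] at h
  rw [twoVar_apply, h, PowerSeries.map_C]
  congr 1
  exact oneVar_X k

theorem gp_monic (m : ℕ) : (gp k m).Monic :=
  Polynomial.monic_X.mul (Polynomial.monic_X_sub_C _)

theorem gp_dist {m : ℕ} (hm : 1 ≤ m) :
    (gp k m).IsDistinguishedAt (Ideal.span {(X : k⟦X⟧)}) := by
  refine Polynomial.IsDistinguishedAt.mul ⟨⟨?_⟩, Polynomial.monic_X⟩
    ⟨⟨?_⟩, Polynomial.monic_X_sub_C _⟩
  · intro n hn
    rw [Polynomial.natDegree_X, Nat.lt_one_iff] at hn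
    subst hn
    rw [Polynomial.coeff_X_zero]
    exact Ideal.zero_mem _
  · intro n hn
    rw [Polynomial.natDegree_X_sub_C, Nat.lt_one_iff] at hn
    subst hn
    rw [Polynomial.coeff_sub, Polynomial.coeff_X_zero, Polynomial.coeff_C_zero, zero_sub]
    refine Ideal.neg_mem_iff _ |>.2 ?_
    rw [Ideal.mem_span_singleton]
    exact dvd_pow_self _ (by omega)

theorem gp_coe (m : ℕ) : ((gp k m : Polynomial k⟦X⟧) : (k⟦X⟧)⟦X⟧) = X * (X - C ((X : k⟦X⟧) ^ m)) := by
  rw [gp, Polynomial.coe_mul, Polynomial.coe_sub, Polynomial.coe_X, Polynomial.coe_C]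

/-- The local ring as a quotient of a polynomial ring. -/
noncomputable def germEquiv {m : ℕ} (hm : 1 ≤ m) : Germ k m ≃+* AdjoinRoot (gp k m) :=
  (Ideal.quotientEquiv _ (Ideal.span {((gp k m : Polynomial k⟦X⟧) : (k⟦X⟧)⟦X⟧)}) (twoVar k) (by
    rw [Ideal.map_span, Set.image_singleton, gp_coe]
    congr 2
    show _ = twoVar k _
    rw [map_mul, map_sub, map_pow (twoVar k), twoVar_X_zero, twoVar_X_one, map_pow])).trans
  (prep (gp_dist k hm)).symm

theorem germEquiv_y {m : ℕ} (hm : 1 ≤ m) :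
    germEquiv k hm (Ideal.Quotient.mk _ (MvPowerSeries.X 0)) = AdjoinRoot.root (gp k m) := by
  show (prep (gp_dist k hm)).symm (Ideal.Quotient.mk _ (twoVar k (MvPowerSeries.X 0))) = _
  rw [RingEquiv.symm_apply_eq, twoVar_X_zero]
  show _ = prep (gp_dist k hm) (Ideal.Quotient.mk _ Polynomial.X)
  rw [prep_mk, Polynomial.coe_X]

end Pool.Agent.R901.QZ
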