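import Pool.Agent.R901.QZ.Quo

/-!
# Counting the stable lattices
-/

set_option autoImplicit false
set_option linter.unusedSectionVars false
set_option linter.style.haveILetI false

open scoped ENNReal
open PowerSeries

namespace Pool.Agent.R901.QZ

universe u v w

section kercoker

variable {A : Type u} {N : Type v} [Ring A] [AddCommGroup N] [Module A N] [Finite N]

theorem card_ker_eq (f : N →ₗ[A] N) :
    Nat.card (LinearMap.ker f) = Nat.card (N ⧸ LinearMap.range f) := by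
  have h1 : Nat.card N = Nat.card (LinearMap.ker f) * Nat.card (N ⧸ LinearMap.ker f) :=
    Submodule.card_eq_card_quotient_mul_card _
  have h2 : Nat.card N = Nat.card (LinearMap.range f) * Nat.card (N ⧸ LinearMap.range f) :=
    Submodule.card_eq_card_quotient_mul_card _
  rw [Nat.card_congr f.quotKerEquivRange.toEquiv, h2, mul_comm (Nat.card (LinearMap.ker f))] at h1
  exact (Nat.eq_of_mul_eq_mul_left Nat.card_pos h1).symm

open scoped Classical in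
theorem card_solutions (f : N →ₗ[A] N) (c₀ : N) :
    Nat.card {c : N // c₀ + f c = 0} =
      if c₀ ∈ LinearMap.range f then Nat.card (N ⧸ LinearMap.range f) else 0 := by
  by_cases h : c₀ ∈ LinearMap.range f
  · rw [if_pos h, ← card_ker_eq]
    obtain ⟨c₁, hc₁⟩ := h
    refine Nat.card_congr
      { toFun := fun c => ⟨c.1 + c₁, ?_⟩
        invFun := fun c => ⟨c.1 - c₁, ?_⟩
        left_inv := fun c => Subtype.ext (by simp)
        right_inv := fun c => Subtype.ext (by simp) }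
    · rw [LinearMap.mem_ker, map_add, hc₁, add_comm]
      exact c.2
    · have : f c.1 = 0 := c.2
      rw [map_sub, hc₁, this]
      abel
  · rw [if_neg h]
    have : IsEmpty {c : N // c₀ + f c = 0} := by
      refine ⟨fun c => h ⟨-c.1, ?_⟩⟩
      rw [map_neg]
      exact (eq_neg_of_add_eq_zero_left c.2).symm
    exact Nat.card_of_isEmpty

end kercoker

variable {k : Type u} [Field k] [Finite k]

section count

variable {V : Type v} [AddCommGroup V] [Module k⟦X⟧ V]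

/-- `L` is stable under `(a, b) ↦ (0, a + X ^ m b)`. -/
def Stable (m : ℕ) (L : Submodule k⟦X⟧ (V × V)) : Prop :=
  ∀ x ∈ L, ((0 : V), x.1 + (X : k⟦X⟧) ^ m • x.2) ∈ L

theorem stable_glue (m : ℕ) (L₁ L₂ : Submodule k⟦X⟧ V) (φ : L₁ →ₗ[k⟦X⟧] V ⧸ L₂) :
    Stable m (glue L₁ L₂ φ) ↔
      ∀ a : L₁, (Submodule.Quotient.mk (a : V) : V ⧸ L₂) + (X : k⟦X⟧) ^ m • φ a = 0 := by
  constructor
  · intro h a
    obtain ⟨w, hw⟩ := Submodule.Quotient.mk_surjective _ (φ a)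
    have h1 : ((a : V), w) ∈ glue L₁ L₂ φ := ⟨a.2, hw.symm⟩
    have h2 := h _ h1
    rw [← mem_ke, ke_glue] at h2
    rw [← hw, ← Submodule.Quotient.mk_smul, ← Submodule.Quotient.mk_add,
      Submodule.Quotient.mk_eq_zero]
    exact h2
  · rintro h x ⟨hx, hx'⟩
    rw [← mem_ke, ke_glue]
    have h1 := h ⟨x.1, hx⟩
    rw [hx', ← Submodule.Quotient.mk_smul, ← Submodule.Quotient.mk_add,
      Submodule.Quotient.mk_eq_zero] at h1
    exact h1

theorem map_mkQ_tl (m : ℕ) (L₂ : Submodule k⟦X⟧ V) :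
    (tl m (⊤ : Submodule k⟦X⟧ V)).map L₂.mkQ =
      LinearMap.range (LinearMap.lsmul k⟦X⟧ (V ⧸ L₂) ((X : k⟦X⟧) ^ m)) := by
  ext y
  rw [Submodule.mem_map, LinearMap.mem_range]
  constructor
  · rintro ⟨x, hx, rfl⟩
    obtain ⟨z, -, rfl⟩ := mem_tl.1 hx
    exact ⟨Submodule.Quotient.mk z, rfl⟩
  · rintro ⟨z, rfl⟩
    obtain ⟨z, rfl⟩ := Submodule.Quotient.mk_surjective _ z
    exact ⟨(X : k⟦X⟧) ^ m • z, mem_tl.2 ⟨z, trivial, rfl⟩, rfl⟩

open scoped Classical in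
/-- The number of gluings. -/
theorem card_gluings {d : ℕ} (m : ℕ) (L₁ L₂ : Submodule k⟦X⟧ V)
    (b : Module.Basis (Fin d) k⟦X⟧ L₁) [Finite (V ⧸ L₂)] :
    Nat.card {φ : L₁ →ₗ[k⟦X⟧] V ⧸ L₂ // Stable m (glue L₁ L₂ φ)} =
      if L₁ ≤ L₂ ⊔ tl m ⊤ then Nat.card (V ⧸ (L₂ ⊔ tl m ⊤)) ^ d else 0 := by
  let f := LinearMap.lsmul k⟦X⟧ (V ⧸ L₂) ((X : k⟦X⟧) ^ m)
  let e : {φ : L₁ →ₗ[k⟦X⟧] V ⧸ L₂ // Stable m (glue L₁ L₂ φ)} ≃
      {c : Fin d → V ⧸ L₂ // ∀ i, (Submodule.Quotient.mk (b i : V) : V ⧸ L₂) + f (c i) = 0} :=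
    (b.constr ℕ (M' := V ⧸ L₂)).symm.toEquiv.subtypeEquiv (fun φ => by
      rw [stable_glue]
      constructor
      · intro h i
        exact h (b i)
      · intro h
        have h1 : (L₂.mkQ ∘ₗ L₁.subtype + f ∘ₗ φ) = 0 := b.ext h
        exact fun a => LinearMap.congr_fun h1 a)
  rw [Nat.card_congr e, Nat.card_congr (Equiv.subtypePiEquivPi (α := Fin d)
    (β := fun _ => V ⧸ L₂)
    (p := fun i c => (Submodule.Quotient.mk (b i : V) : V ⧸ L₂) + f c = 0)), Nat.card_pi]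
  have h1 : ∀ i, Nat.card {c : V ⧸ L₂ // (Submodule.Quotient.mk (b i : V) : V ⧸ L₂) + f c = 0} =
      if (b i : V) ∈ L₂ ⊔ tl m ⊤ then Nat.card (V ⧸ (L₂ ⊔ tl m ⊤)) else 0 := by
    intro i
    rw [card_solutions f]
    have h2 : (Submodule.Quotient.mk (b i : V) : V ⧸ L₂) ∈ LinearMap.range f ↔
        (b i : V) ∈ L₂ ⊔ tl m ⊤ := by
      rw [← map_mkQ_tl, ← Submodule.comap_map_mkQ, Submodule.mem_comap]
      rfl
    have h3 : Nat.card ((V ⧸ L₂) ⧸ LinearMap.range f) = Nat.card (V ⧸ (L₂ ⊔ tl m ⊤)) := by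
      rw [← map_mkQ_tl]
      exact Nat.card_congr
        (Submodule.quotientQuotientEquivQuotientSup L₂ (tl m ⊤)).toEquiv
    rw [h3]
    by_cases h : (b i : V) ∈ L₂ ⊔ tl m ⊤
    · rw [if_pos h, if_pos (h2.2 h)]
    · rw [if_neg h, if_neg (fun h' => h (h2.1 h'))]
  rw [Finset.prod_congr rfl fun i _ => h1 i]
  by_cases h : L₁ ≤ L₂ ⊔ tl m ⊤
  · rw [if_pos h, Finset.prod_congr rfl fun i _ => if_pos (h (b i).2), Finset.prod_const,
      Finset.card_univ, Fintype.card_fin]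
  · rw [if_neg h]
    have h2 : ∃ i, (b i : V) ∉ L₂ ⊔ tl m ⊤ := by
      by_contra! hall
      refine h fun x hx => ?_
      have h3 : x = ∑ i, b.repr ⟨x, hx⟩ i • (b i : V) := by
        have h4 := congrArg Subtype.val (b.sum_repr ⟨x, hx⟩)
        refine h4.symm.trans ?_
        rw [Submodule.coe_sum]
        rfl
      rw [h3]
      exact Submodule.sum_mem _ fun i _ => Submodule.smul_mem _ _ (hall i)
    obtain ⟨i, hi⟩ := h2
    exact Finset.prod_eq_zero (Finset.mem_univ i) (if_neg hi)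

open scoped Classical in
theorem S_gluings {d : ℕ} (bV : Module.Basis (Fin d) k⟦X⟧ V) (m : ℕ)
    (L₁ L₂ : Submodule k⟦X⟧ V) :
    (S fun φ : L₁ →ₗ[k⟦X⟧] V ⧸ L₂ => if Stable m (glue L₁ L₂ φ) then
      wt (Nat.card k) (Nat.card ((V × V) ⧸ glue L₁ L₂ φ)) else 0) =
      (if L₁ ≤ L₂ ⊔ tl m ⊤ then wt (Nat.card k) (Nat.card (V ⧸ L₁)) else 0) *
        (((Nat.card (V ⧸ (L₂ ⊔ tl m ⊤)) ^ d : ℕ) : PowerSeries ℝ≥0∞) *
          wt (Nat.card k) (Nat.card (V ⧸ L₂))) := by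
  have h1 : ∀ φ : L₁ →ₗ[k⟦X⟧] V ⧸ L₂, wt (Nat.card k) (Nat.card ((V × V) ⧸ glue L₁ L₂ φ)) =
      wt (Nat.card k) (Nat.card (V ⧸ L₁)) * wt (Nat.card k) (Nat.card (V ⧸ L₂)) := fun φ => by
    rw [card_quotient, pr_glue, ke_glue, wt_mul (one_lt_q k) (isQ_card k _) (isQ_card k _)]
  have h0 : ∀ φ : L₁ →ₗ[k⟦X⟧] V ⧸ L₂, (if Stable m (glue L₁ L₂ φ) then
      wt (Nat.card k) (Nat.card ((V × V) ⧸ glue L₁ L₂ φ)) else 0) =
      if Stable m (glue L₁ L₂ φ) then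
      wt (Nat.card k) (Nat.card (V ⧸ L₁)) * wt (Nat.card k) (Nat.card (V ⧸ L₂)) else 0 := by
    intro φ
    rw [h1]
  rw [S_congr h0]
  by_cases hf1 : Finite (V ⧸ L₁)
  · by_cases hf2 : Finite (V ⧸ L₂)
    · obtain ⟨b⟩ := nonempty_basis_of_finite bV L₁ hf1
      have := finite_hom (N := V ⧸ L₂) b
      rw [S_subtype, S_const, card_gluings m L₁ L₂ b]
      by_cases h : L₁ ≤ L₂ ⊔ tl m ⊤
      · rw [if_pos h, if_pos h]
        ring
      · rw [if_neg h, if_neg h, Nat.cast_zero, zero_mul, zero_mul]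
    · rw [not_finite_iff_infinite] at hf2
      rw [Nat.card_eq_zero_of_infinite (α := V ⧸ L₂), wt_zero (one_lt_q k), mul_zero, mul_zero,
        mul_zero]
      refine (S_congr fun φ => ?_).trans S_zero
      rw [ite_self]
  · rw [not_finite_iff_infinite] at hf1
    rw [Nat.card_eq_zero_of_infinite (α := V ⧸ L₁), wt_zero (one_lt_q k), zero_mul, ite_self,
      zero_mul]
    refine (S_congr fun φ => ?_).trans S_zero
    rw [ite_self]

open scoped Classical in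
/-- The sum over the submodules of `B`. -/
theorem S_le (B : Submodule k⟦X⟧ V) :
    (S fun L₁ : Submodule k⟦X⟧ V => if L₁ ≤ B then wt (Nat.card k) (Nat.card (V ⧸ L₁)) else 0) =
      wt (Nat.card k) (Nat.card (V ⧸ B)) * Z k B := by
  rw [S_subtype, ← S_equiv (Submodule.MapSubtype.orderIso B).toEquiv, Z, ← S_mul_left]
  refine S_congr fun L => ?_
  show wt (Nat.card k) (Nat.card (V ⧸ L.map B.subtype)) = _
  rw [card_quot_map, wt_mul (one_lt_q k) (isQ_card k _) (isQ_card k _)]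

/-- The lattices `L₂` with `L₂ + X ^ m V = B`. -/
noncomputable def fibEquiv' (m : ℕ) (B : {B : Submodule k⟦X⟧ V // tl m ⊤ ≤ B}) :
    {L : Submodule k⟦X⟧ B.1 // L ⊔ (tl m ⊤ : Submodule k⟦X⟧ V).comap B.1.subtype = ⊤} ≃
    {L : Submodule k⟦X⟧ V //
      (⟨L ⊔ tl m ⊤, le_sup_right⟩ : {B : Submodule k⟦X⟧ V // tl m ⊤ ≤ B}) = B} where
  toFun L := ⟨L.1.map B.1.subtype, by
      refine Subtype.ext ?_
      show L.1.map B.1.subtype ⊔ tl m ⊤ = B.1
      have h1 := congrArg (Submodule.map B.1.subtype) L.2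
      rw [Submodule.map_sup, Submodule.map_comap_subtype, Submodule.map_subtype_top,
        inf_eq_right.2 B.2] at h1
      exact h1⟩
  invFun L := ⟨L.1.comap B.1.subtype, by
      have hB : L.1 ⊔ tl m ⊤ = B.1 := congrArg Subtype.val L.2
      have hle : L.1 ≤ B.1 := by rw [← hB]; exact le_sup_left
      refine Submodule.map_injective_of_injective (Submodule.injective_subtype B.1) ?_
      rw [Submodule.map_sup, Submodule.map_comap_subtype, Submodule.map_comap_subtype,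
        Submodule.map_subtype_top, inf_eq_right.2 B.2, inf_eq_right.2 hle, hB]⟩
  left_inv L := Subtype.ext (Submodule.comap_map_eq_of_injective
    (Submodule.injective_subtype B.1) L.1)
  right_inv L := by
    have hB : L.1 ⊔ tl m ⊤ = B.1 := congrArg Subtype.val L.2
    have hle : L.1 ≤ B.1 := by rw [← hB]; exact le_sup_left
    refine Subtype.ext ?_
    show (L.1.comap B.1.subtype).map B.1.subtype = L.1
    rw [Submodule.map_comap_subtype, inf_eq_right.2 hle]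

/-- The generating function of the stable lattices. -/
noncomputable def ZS (k : Type u) [Field k] (V : Type v) [AddCommGroup V] [Module k⟦X⟧ V]
    (m : ℕ) : PowerSeries ℝ≥0∞ :=
  S fun L : {L : Submodule k⟦X⟧ (V × V) // Stable m L} =>
    wt (Nat.card k) (Nat.card ((V × V) ⧸ L.1))

/-- The product of the geometric series. -/
noncomputable def Fq (q d r : ℕ) : PowerSeries ℝ≥0∞ :=
  ∏ i ∈ Finset.range (d - r), geo ((q : ℝ≥0∞) ^ (r + i))

theorem ZS_eq {d : ℕ} (bV : Module.Basis (Fin d) k⟦X⟧ V) (m : ℕ) :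
    ZS k V m = Fq (Nat.card k) d 0 * H k V m (fun c r =>
      ((Nat.card k ^ (c * d) : ℕ) : PowerSeries ℝ≥0∞) * X ^ (2 * c) * Fq (Nat.card k) d r) := by
  classical
  have h0 : Fq (Nat.card k) d 0 = ∏ i ∈ Finset.range d, geo ((Nat.card k : ℝ≥0∞) ^ i) := by
    rw [Fq, Nat.sub_zero]
    simp only [zero_add]
  rw [ZS, ← S_subtype (Stable m) fun L : Submodule k⟦X⟧ (V × V) =>
    wt (Nat.card k) (Nat.card ((V × V) ⧸ L)), S_glue]
  have h1 : ∀ L₁ L₂ : Submodule k⟦X⟧ V, _ := S_gluings bV m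
  rw [S_congr fun L₁ => S_congr fun L₂ => h1 L₁ L₂, S_comm]
  rw [S_congr fun L₂ => S_mul_right _ _, S_congr fun L₂ : Submodule k⟦X⟧ V =>
    congrArg (· * (((Nat.card (V ⧸ (L₂ ⊔ tl m ⊤)) ^ d : ℕ) : PowerSeries ℝ≥0∞) *
          wt (Nat.card k) (Nat.card (V ⧸ L₂)))) (S_le (L₂ ⊔ tl m ⊤))]
  rw [S_fiber (fun L : Submodule k⟦X⟧ V =>
    (⟨L ⊔ tl m ⊤, le_sup_right⟩ : {B : Submodule k⟦X⟧ V // tl m ⊤ ≤ B})), H, ← S_mul_left]
  refine S_congr fun B => ?_
  have hfin : Finite (V ⧸ B.1) := finite_quot_tl bV m B.2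
  obtain ⟨c⟩ := nonempty_basis_of_finite bV B.1 hfin
  have hX : tl 1 ⊤ ≤ (tl m ⊤ : Submodule k⟦X⟧ V).comap B.1.subtype ⊔ tl 1 ⊤ := le_sup_right
  have hfin2 : Finite (B.1 ⧸ ((tl m ⊤ : Submodule k⟦X⟧ V).comap B.1.subtype ⊔ tl 1 ⊤)) :=
    finite_quotient c hX
  have h2 := F_lemma c ((tl m ⊤ : Submodule k⟦X⟧ V).comap B.1.subtype) (r := rk m B.1)
    (card_eq_pow_ld k _)
  rw [S_subtype] at h2
  have h3 : (S fun L : {L : Submodule k⟦X⟧ V //
      (⟨L ⊔ tl m ⊤, le_sup_right⟩ : {B : Submodule k⟦X⟧ V // tl m ⊤ ≤ B}) = B} =>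
      wt (Nat.card k) (Nat.card (V ⧸ L.1))) =
      wt (Nat.card k) (Nat.card (V ⧸ B.1)) * Fq (Nat.card k) d (rk m B.1) := by
    rw [Fq, ← h2, ← S_mul_left, ← S_equiv (fibEquiv' m B)]
    refine S_congr fun L => ?_
    show wt (Nat.card k) (Nat.card (V ⧸ L.1.map B.1.subtype)) = _
    rw [card_quot_map, wt_mul (one_lt_q k) (isQ_card k _) (isQ_card k _)]
  have h4 : ∀ L : {L : Submodule k⟦X⟧ V //
      (⟨L ⊔ tl m ⊤, le_sup_right⟩ : {B : Submodule k⟦X⟧ V // tl m ⊤ ≤ B}) = B},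
      wt (Nat.card k) (Nat.card (V ⧸ (L.1 ⊔ tl m ⊤))) * Z k ↥(L.1 ⊔ tl m ⊤) *
        (((Nat.card (V ⧸ (L.1 ⊔ tl m ⊤)) ^ d : ℕ) : PowerSeries ℝ≥0∞) *
          wt (Nat.card k) (Nat.card (V ⧸ L.1))) =
      (wt (Nat.card k) (Nat.card (V ⧸ B.1)) * Z k B.1 *
        ((Nat.card (V ⧸ B.1) ^ d : ℕ) : PowerSeries ℝ≥0∞)) *
          wt (Nat.card k) (Nat.card (V ⧸ L.1)) := by
    intro L
    have h5 : L.1 ⊔ tl m ⊤ = B.1 := congrArg Subtype.val L.2
    rw [h5]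
    ring
  rw [S_congr h4, S_mul_left, h3, Z_free k c, ← h0, card_eq_pow_ld k (V ⧸ B.1),
    wt_pow (one_lt_q k), ← pow_mul]
  ring

end count

end Pool.Agent.R901.QZ
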