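import Pool.Agent.R901.QZ.Decomp

/-!
# Sums over submodules with given sum with a fixed submodule
-/

set_option autoImplicit false
set_option linter.unusedSectionVars false

open scoped ENNReal
open PowerSeries

namespace Pool.Agent.R901.QZ

universe u v w

theorem S_pair {α : Type u} (a b : α) (hab : a ≠ b) (f : α → PowerSeries ℝ≥0∞)
    (h : ∀ x, x ≠ a → x ≠ b → f x = 0) : S f = f a + f b := by
  classical
  have h1 : ∀ x, f x = (if x = a then f x else 0) + (if x = b then f x else 0) := by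
    intro x
    by_cases hxa : x = a
    · subst hxa
      rw [if_pos rfl, if_neg hab, add_zero]
    · rw [if_neg hxa, zero_add]
      by_cases hxb : x = b
      · rw [if_pos hxb]
      · rw [if_neg hxb, h x hxa hxb]
  rw [S_congr h1, S_add, S_single a _ fun x hx => if_neg hx, S_single b _ fun x hx => if_neg hx,
    if_pos rfl, if_pos rfl]

/-- The Gaussian binomial coefficients. -/
noncomputable def gauss : ℕ → ℕ → Polynomial ℕ
  | 0, 0 => 1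
  | 0, _ + 1 => 0
  | _ + 1, 0 => 1
  | n + 1, e + 1 => gauss n e + Polynomial.X ^ (e + 1) * gauss n (e + 1)

theorem gauss_zero_right (n : ℕ) : gauss n 0 = 1 := by
  cases n <;> rfl

theorem gauss_succ_succ (n e : ℕ) :
    gauss (n + 1) (e + 1) = gauss n e + Polynomial.X ^ (e + 1) * gauss n (e + 1) := rfl

theorem gauss_eq_zero {n e : ℕ} (h : n < e) : gauss n e = 0 := by
  induction n generalizing e with
  | zero =>
    obtain ⟨e, rfl⟩ := Nat.exists_eq_succ_of_ne_zero h.ne'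
    rfl
  | succ n ih =>
    obtain ⟨e, rfl⟩ := Nat.exists_eq_succ_of_ne_zero (n := e) (by omega)
    rw [Nat.succ_eq_add_one, gauss_succ_succ, ih (by omega), ih (by omega), mul_zero, add_zero]

/-- `∑ e, [n choose e]_q g e`. -/
noncomputable def Cn (q n : ℕ) (g : ℕ → PowerSeries ℝ≥0∞) : PowerSeries ℝ≥0∞ :=
  ∑ e ∈ Finset.range (n + 1), (((gauss n e).eval q : ℕ) : PowerSeries ℝ≥0∞) * g e

theorem Cn_zero (q : ℕ) (g : ℕ → PowerSeries ℝ≥0∞) : Cn q 0 g = g 0 := by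
  simp [Cn, gauss]

theorem Cn_succ (q n : ℕ) (g : ℕ → PowerSeries ℝ≥0∞) : Cn q (n + 1) g =
    Cn q n (fun e => g (e + 1)) + Cn q n (fun e => ((q ^ e : ℕ) : PowerSeries ℝ≥0∞) * g e) := by
  have h1 : Cn q n (fun e => ((q ^ e : ℕ) : PowerSeries ℝ≥0∞) * g e) = g 0 +
      ∑ e ∈ Finset.range (n + 1), (((gauss n (e + 1)).eval q : ℕ) : PowerSeries ℝ≥0∞) *
        (((q ^ (e + 1) : ℕ) : PowerSeries ℝ≥0∞) * g (e + 1)) := by
    rw [Cn, Finset.sum_range_succ' _ n, Finset.sum_range_succ _ n, gauss_eq_zero (n.lt_succ_self),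
      gauss_zero_right]
    simp [add_comm]
  rw [h1, Cn, Finset.sum_range_succ', gauss_zero_right, Cn, add_left_comm, add_comm]
  congr 1
  · simp
  · rw [← Finset.sum_add_distrib]
    refine Finset.sum_congr rfl fun e _ => ?_
    rw [gauss_succ_succ]
    simp only [Polynomial.eval_add, Polynomial.eval_mul, Polynomial.eval_pow, Polynomial.eval_X,
      Nat.cast_add, Nat.cast_mul]
    ring

theorem Cn_congr {q n : ℕ} {g g' : ℕ → PowerSeries ℝ≥0∞} (h : ∀ e ≤ n, g e = g' e) :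
    Cn q n g = Cn q n g' :=
  Finset.sum_congr rfl fun e he => by rw [h e (by simpa [Nat.lt_succ_iff] using he)]

variable {k : Type u} [Field k] [Finite k]

/-- The dimension of a finite vector space. -/
noncomputable def ld (k : Type u) (M : Type v) : ℕ := Nat.log (Nat.card k) (Nat.card M)

variable (k) in
theorem card_eq_pow_ld (M : Type v) [AddCommGroup M] [Module k⟦X⟧ M] [Finite M] :
    Nat.card M = Nat.card k ^ ld k M := by
  rcases isQ_card k M with h | ⟨a, h⟩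
  · exact absurd h Nat.card_pos.ne'
  · rw [ld, h, Nat.log_pow (one_lt_q k)]

theorem ld_of_card {M : Type v} {a : ℕ} (h : Nat.card M = Nat.card k ^ a) : ld k M = a := by
  rw [ld, h, Nat.log_pow (one_lt_q k)]

section F

open scoped Classical in
theorem F_lemma {M : Type v} [AddCommGroup M] [Module k⟦X⟧ M] {d : ℕ}
    (b : Module.Basis (Fin d) k⟦X⟧ M) (K₀ : Submodule k⟦X⟧ M) {r : ℕ}
    (hr : Nat.card (M ⧸ (K₀ ⊔ tl 1 ⊤)) = Nat.card k ^ r) :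
    (S fun L : Submodule k⟦X⟧ M => if L ⊔ K₀ = ⊤ then wt (Nat.card k) (Nat.card (M ⧸ L)) else 0) =
      ∏ i ∈ Finset.range (d - r), geo ((Nat.card k : ℝ≥0∞) ^ (r + i)) := by
  obtain ⟨hrd, Y, ⟨c⟩, e, he⟩ := decomp b K₀ hr
  let G : Submodule k⟦X⟧ ((Fin r → k⟦X⟧) × Y) → PowerSeries ℝ≥0∞ := fun L' =>
    if pr L' = ⊤ then wt (Nat.card k) (Nat.card (((Fin r → k⟦X⟧) × Y) ⧸ L')) else 0
  have h1 : ∀ L : Submodule k⟦X⟧ M,
      (if L ⊔ K₀ = ⊤ then wt (Nat.card k) (Nat.card (M ⧸ L)) else 0) =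
      G ((Submodule.orderIsoMapComap e).toEquiv L) := by
    intro L
    show _ = if pr (L.map (e : M →ₗ[k⟦X⟧] (Fin r → k⟦X⟧) × Y)) = ⊤ then _ else _
    by_cases h : L ⊔ K₀ = ⊤
    · rw [if_pos h, if_pos ((he L).1 h)]
      congr 1
      exact Nat.card_congr (Submodule.Quotient.equiv L _ e rfl).toEquiv
    · rw [if_neg h, if_neg (fun h' => h ((he L).2 h'))]
  rw [S_congr h1]
  refine (S_equiv (Submodule.orderIsoMapComap e).toEquiv G).trans ?_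
  rw [S_glue, S_single ⊤]
  · have hb : Module.Basis (Fin r) k⟦X⟧ (⊤ : Submodule k⟦X⟧ (Fin r → k⟦X⟧)) :=
      (Pi.basisFun k⟦X⟧ (Fin r)).map Submodule.topEquiv.symm
    have h2 : ∀ L₂ : Submodule k⟦X⟧ Y, (S fun φ : (⊤ : Submodule k⟦X⟧ (Fin r → k⟦X⟧)) →ₗ[k⟦X⟧]
        Y ⧸ L₂ => if pr (glue ⊤ L₂ φ) = ⊤ then
          wt (Nat.card k) (Nat.card (((Fin r → k⟦X⟧) × Y) ⧸ glue ⊤ L₂ φ)) else 0) =
        rescale ((Nat.card k : ℝ≥0∞) ^ r) (wt (Nat.card k) (Nat.card (Y ⧸ L₂))) := by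
      intro L₂
      have h3 := S_hom hb L₂
      have h4 : Nat.card ((Fin r → k⟦X⟧) ⧸ (⊤ : Submodule k⟦X⟧ (Fin r → k⟦X⟧))) = 1 :=
        Nat.card_unique
      rw [h4, wt_one (one_lt_q k), one_mul] at h3
      rw [← h3]
      refine S_congr fun φ => ?_
      rw [pr_glue, if_pos rfl]
    rw [S_congr h2, ← rescale_S, ← Z, Z_free k c, map_prod]
    simp only [rescale_geo, pow_add]
  · intro L₁ hL₁
    refine (S_congr fun L₂ => ?_).trans S_zero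
    refine (S_congr fun φ => ?_).trans S_zero
    exact if_neg fun h => hL₁ (by rwa [pr_glue] at h)

end F

section G

theorem finite_quotient {M : Type v} [AddCommGroup M] [Module k⟦X⟧ M] {d : ℕ}
    (b : Module.Basis (Fin d) k⟦X⟧ M) {L : Submodule k⟦X⟧ M} (hL : tl 1 ⊤ ≤ L) :
    Finite (M ⧸ L) := by
  have h1 : Function.Surjective fun c : Fin d → k =>
      (Submodule.Quotient.mk (∑ i, (C (c i) : k⟦X⟧) • b i) : M ⧸ L) := by
    intro y
    obtain ⟨x, rfl⟩ := Submodule.Quotient.mk_surjective _ y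
    refine ⟨fun i => constantCoeff (b.repr x i), ?_⟩
    show Submodule.Quotient.mk _ = Submodule.Quotient.mk _
    rw [Submodule.Quotient.eq]
    have h3 : (∑ i, (C (constantCoeff (b.repr x i)) : k⟦X⟧) • b i) - x =
        ∑ i, ((C (constantCoeff (b.repr x i)) : k⟦X⟧) - b.repr x i) • b i := by
      simp only [sub_smul, Finset.sum_sub_distrib, b.sum_repr]
    rw [h3]
    refine Submodule.sum_mem _ fun i _ => ?_
    have h2 : (X : k⟦X⟧) ∣ C (constantCoeff (b.repr x i)) - b.repr x i := by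
      rw [X_dvd_iff, map_sub]
      simp
    obtain ⟨t, ht⟩ := h2
    rw [ht, mul_smul]
    exact hL (mem_tl.2 ⟨_, trivial, by rw [pow_one]⟩)
  exact Finite.of_surjective _ h1

theorem tl_le_glue_iff {V : Type v} {W : Type w} [AddCommGroup V] [Module k⟦X⟧ V]
    [AddCommGroup W] [Module k⟦X⟧ W] (L₂ : Submodule k⟦X⟧ W)
    (φ : (⊤ : Submodule k⟦X⟧ V) →ₗ[k⟦X⟧] W ⧸ L₂) : tl 1 ⊤ ≤ glue ⊤ L₂ φ ↔ tl 1 ⊤ ≤ L₂ := by
  constructor
  · intro h x hx
    obtain ⟨w, -, rfl⟩ := mem_tl.1 hx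
    have h1 : ((0 : V), (X : k⟦X⟧) ^ 1 • w) ∈ glue ⊤ L₂ φ :=
      h (mem_tl.2 ⟨(0, w), trivial, by ext <;> simp⟩)
    rw [← mem_ke, ke_glue] at h1
    exact h1
  · intro h x hx
    obtain ⟨⟨v, w⟩, -, rfl⟩ := mem_tl.1 hx
    refine ⟨trivial, ?_⟩
    have h1 : (⟨((X : k⟦X⟧) ^ 1 • (v, w)).1, trivial⟩ : (⊤ : Submodule k⟦X⟧ V)) =
      (X : k⟦X⟧) • ⟨v, trivial⟩ := Subtype.ext (by simp)
    rw [h1, map_smul, X_smul_eq_zero h]
    symm
    rw [Submodule.Quotient.mk_eq_zero]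
    exact h (mem_tl.2 ⟨w, trivial, rfl⟩)

/-- Sums over the submodules containing `X M`. -/
noncomputable def Sg (k : Type u) [Field k] (M : Type v) [AddCommGroup M] [Module k⟦X⟧ M]
    (g : ℕ → PowerSeries ℝ≥0∞) : PowerSeries ℝ≥0∞ :=
  S fun L : {L : Submodule k⟦X⟧ M // tl 1 ⊤ ≤ L} => g (ld k (M ⧸ L.1))

theorem tl_map_top {M : Type v} {N : Type w} [AddCommGroup M] [Module k⟦X⟧ M] [AddCommGroup N]
    [Module k⟦X⟧ N] (e : M ≃ₗ[k⟦X⟧] N) (L : Submodule k⟦X⟧ M) :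
    tl 1 ⊤ ≤ L ↔ tl 1 ⊤ ≤ L.map (e : M →ₗ[k⟦X⟧] N) := by
  constructor
  · intro h x hx
    obtain ⟨y, -, rfl⟩ := mem_tl.1 hx
    refine Submodule.mem_map.2 ⟨(X : k⟦X⟧) ^ 1 • e.symm y, h (mem_tl.2 ⟨_, trivial, rfl⟩), ?_⟩
    simp
  · intro h x hx
    obtain ⟨y, -, rfl⟩ := mem_tl.1 hx
    have h1 : (X : k⟦X⟧) ^ 1 • e y ∈ L.map (e : M →ₗ[k⟦X⟧] N) :=
      h (mem_tl.2 ⟨_, trivial, rfl⟩)
    obtain ⟨z, hz, hz'⟩ := Submodule.mem_map.1 h1
    have h2 : z = (X : k⟦X⟧) ^ 1 • y := e.injective (by simpa using hz')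
    rw [← h2]
    exact hz

theorem Sg_congr {M : Type v} {N : Type w} [AddCommGroup M] [Module k⟦X⟧ M] [AddCommGroup N]
    [Module k⟦X⟧ N] (e : M ≃ₗ[k⟦X⟧] N) (g : ℕ → PowerSeries ℝ≥0∞) : Sg k M g = Sg k N g := by
  rw [Sg, Sg, ← S_equiv ((Submodule.orderIsoMapComap e).toEquiv.subtypeEquiv fun L =>
    tl_map_top e L)]
  refine S_congr fun L => ?_
  congr 1
  rw [ld, ld]
  congr 1
  exact Nat.card_congr (Submodule.Quotient.equiv L.1 _ e rfl).toEquiv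

open scoped Classical in
theorem Sg_def (M : Type v) [AddCommGroup M] [Module k⟦X⟧ M]
    (g : ℕ → PowerSeries ℝ≥0∞) : Sg k M g =
      S fun L : Submodule k⟦X⟧ M => if tl 1 ⊤ ≤ L then g (ld k (M ⧸ L)) else 0 := by
  rw [S_subtype]
  rfl

theorem S_glue_top {V : Type v} {W : Type w} [AddCommGroup V] [Module k⟦X⟧ V]
    [AddCommGroup W] [Module k⟦X⟧ W] {r n : ℕ} (b : Module.Basis (Fin r) k⟦X⟧ V)
    (c : Module.Basis (Fin n) k⟦X⟧ W) (g : ℕ → PowerSeries ℝ≥0∞) (L₂ : Submodule k⟦X⟧ W)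
    (hL₂ : tl 1 ⊤ ≤ L₂) :
    (S fun φ : (⊤ : Submodule k⟦X⟧ V) →ₗ[k⟦X⟧] W ⧸ L₂ => g (ld k ((V × W) ⧸ glue ⊤ L₂ φ))) =
      ((Nat.card k ^ (r * ld k (W ⧸ L₂)) : ℕ) : PowerSeries ℝ≥0∞) * g (ld k (W ⧸ L₂)) := by
  have hfin : Finite (W ⧸ L₂) := finite_quotient c hL₂
  have hb : Module.Basis (Fin r) k⟦X⟧ (⊤ : Submodule k⟦X⟧ V) := b.map Submodule.topEquiv.symm
  have h1 : ∀ φ : (⊤ : Submodule k⟦X⟧ V) →ₗ[k⟦X⟧] W ⧸ L₂,
      g (ld k ((V × W) ⧸ glue ⊤ L₂ φ)) = g (ld k (W ⧸ L₂)) := by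
    intro φ
    have h4 : Nat.card (V ⧸ (⊤ : Submodule k⟦X⟧ V)) = 1 := Nat.card_unique
    rw [ld, card_quotient, pr_glue, ke_glue, h4, one_mul, ld]
  have := finite_hom (N := W ⧸ L₂) hb
  rw [S_congr h1, S_const, card_hom hb, card_eq_pow_ld k (W ⧸ L₂), ← pow_mul,
    mul_comm r (ld k (W ⧸ L₂))]

open scoped Classical in
theorem Sg_prod (n : ℕ) (g : ℕ → PowerSeries ℝ≥0∞) :
    Sg k (k⟦X⟧ × (Fin n → k⟦X⟧)) g = Sg k (Fin n → k⟦X⟧) (fun e => g (e + 1)) +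
      Sg k (Fin n → k⟦X⟧) (fun e => ((Nat.card k ^ e : ℕ) : PowerSeries ℝ≥0∞) * g e) := by
  have hne : (Ideal.span {(X : k⟦X⟧) ^ 1} : Ideal k⟦X⟧) ≠ ⊤ := by
    intro h
    rw [Ideal.span_singleton_eq_top, pow_one] at h
    exact X_prime.not_isUnit h
  rw [Sg_def, S_glue, S_pair (Ideal.span {(X : k⟦X⟧) ^ 1}) ⊤ hne]
  · congr 1
    · rw [Sg_def]
      refine S_congr fun L₂ => ?_
      have hm : ((X : k⟦X⟧) ^ 1) ∈ (Ideal.span {(X : k⟦X⟧) ^ 1} : Ideal k⟦X⟧) :=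
        Ideal.subset_span rfl
      have h1 : ∀ φ : (Ideal.span {(X : k⟦X⟧) ^ 1} : Submodule k⟦X⟧ k⟦X⟧) →ₗ[k⟦X⟧]
          (Fin n → k⟦X⟧) ⧸ L₂, tl 1 ⊤ ≤ glue (Ideal.span {(X : k⟦X⟧) ^ 1}) L₂ φ → φ = 0 := by
        intro φ hφ
        have h2 : ((X : k⟦X⟧) ^ 1, (0 : Fin n → k⟦X⟧)) ∈
            glue (Ideal.span {(X : k⟦X⟧) ^ 1} : Submodule k⟦X⟧ k⟦X⟧) L₂ φ :=
          hφ (mem_tl.2 ⟨(1, 0), trivial, by ext <;> simp⟩)
        obtain ⟨h3, h4⟩ := h2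
        have h5 : φ ⟨(X : k⟦X⟧) ^ 1, hm⟩ = 0 := h4
        ext ⟨a, ha⟩
        obtain ⟨t, rfl⟩ := Ideal.mem_span_singleton'.1 ha
        have h6 : (⟨t * (X : k⟦X⟧) ^ 1, ha⟩ :
            (Ideal.span {(X : k⟦X⟧) ^ 1} : Submodule k⟦X⟧ k⟦X⟧)) = t • ⟨(X : k⟦X⟧) ^ 1, hm⟩ := rfl
        rw [h6, map_smul, h5, smul_zero]
        rfl
      rw [S_single 0]
      · by_cases h : tl 1 ⊤ ≤ L₂
        · rw [if_pos h, if_pos]
          · congr 1
            have hfin : Finite ((Fin n → k⟦X⟧) ⧸ L₂) :=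
              finite_quotient (Pi.basisFun k⟦X⟧ (Fin n)) h
            refine ld_of_card ?_
            rw [card_quotient, pr_glue, ke_glue, card_quot_X_pow, card_eq_pow_ld k
              ((Fin n → k⟦X⟧) ⧸ L₂), ← pow_add, add_comm]
          · intro x hx
            obtain ⟨⟨v, w⟩, -, rfl⟩ := mem_tl.1 hx
            refine ⟨Ideal.mem_span_singleton'.2 ⟨v, mul_comm _ _⟩, ?_⟩
            rw [LinearMap.zero_apply]
            symm
            rw [Submodule.Quotient.mk_eq_zero]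
            exact h (mem_tl.2 ⟨w, trivial, rfl⟩)
        · rw [if_neg h, if_neg]
          intro h'
          refine h fun x hx => ?_
          obtain ⟨w, -, rfl⟩ := mem_tl.1 hx
          have h2 : ((0 : k⟦X⟧), (X : k⟦X⟧) ^ 1 • w) ∈ glue
              (Ideal.span {(X : k⟦X⟧) ^ 1} : Submodule k⟦X⟧ k⟦X⟧) L₂ 0 :=
            h' (mem_tl.2 ⟨(0, w), trivial, by ext <;> simp⟩)
          rw [← mem_ke, ke_glue] at h2
          exact h2
      · intro φ hφ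
        rw [if_neg fun h => hφ (h1 φ h)]
    · rw [Sg_def]
      refine S_congr fun L₂ => ?_
      by_cases h : tl 1 ⊤ ≤ L₂
      · rw [if_pos h]
        have h1 := S_glue_top (Module.Basis.singleton (Fin 1) k⟦X⟧)
          (Pi.basisFun k⟦X⟧ (Fin n)) g L₂ h
        rw [one_mul] at h1
        rw [← h1]
        refine S_congr fun φ => ?_
        rw [if_pos ((tl_le_glue_iff L₂ φ).2 h)]
      · rw [if_neg h]
        refine (S_congr fun φ => ?_).trans S_zero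
        rw [if_neg (fun h' => h ((tl_le_glue_iff L₂ φ).1 h'))]
  · intro L₁ h1 h2
    refine (S_congr fun L₂ => ?_).trans S_zero
    refine (S_congr fun φ => ?_).trans S_zero
    rw [if_neg]
    intro h3
    have h4 : ((X : k⟦X⟧) ^ 1, (0 : Fin n → k⟦X⟧)) ∈ glue L₁ L₂ φ :=
      h3 (mem_tl.2 ⟨(1, 0), trivial, by ext <;> simp⟩)
    obtain ⟨h5, -⟩ := h4
    have h6 : L₁ ≠ ⊥ := by
      rintro rfl
      exact pow_ne_zero 1 X_ne_zero ((Submodule.mem_bot _).1 h5)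
    obtain ⟨a, rfl⟩ := exists_eq_span k L₁ h6
    have h7 : (X : k⟦X⟧) ^ a ∣ X ^ 1 := Ideal.mem_span_singleton.1 h5
    have h8 : a ≤ 1 := (pow_dvd_pow_iff X_ne_zero X_prime.not_isUnit).1 h7
    interval_cases a
    · exact h2 (by rw [pow_zero]; exact Ideal.span_singleton_one)
    · exact h1 rfl

theorem Sg_fin (n : ℕ) (g : ℕ → PowerSeries ℝ≥0∞) :
    Sg k (Fin n → k⟦X⟧) g = Cn (Nat.card k) n g := by
  induction n generalizing g with
  | zero =>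
    rw [Cn_zero, Sg, S_single ⟨⊤, le_top⟩]
    · congr 1
      refine ld_of_card ?_
      rw [pow_zero]
      exact Nat.card_unique
    · intro L hL
      exact absurd (Subtype.ext (Subsingleton.elim _ _)) hL
  | succ n ih =>
    rw [Sg_congr (Fin.consLinearEquiv k⟦X⟧ (fun _ : Fin (n + 1) => k⟦X⟧)).symm, Sg_prod, ih, ih,
      Cn_succ]

theorem Sg_free {M : Type v} [AddCommGroup M] [Module k⟦X⟧ M] {n : ℕ}
    (b : Module.Basis (Fin n) k⟦X⟧ M) (g : ℕ → PowerSeries ℝ≥0∞) :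
    Sg k M g = Cn (Nat.card k) n g := by
  rw [Sg_congr b.equivFun, Sg_fin]

open scoped Classical in
theorem G_lemma {M : Type v} [AddCommGroup M] [Module k⟦X⟧ M] {d : ℕ}
    (b : Module.Basis (Fin d) k⟦X⟧ M) (K₀ : Submodule k⟦X⟧ M) {r : ℕ}
    (hr : Nat.card (M ⧸ (K₀ ⊔ tl 1 ⊤)) = Nat.card k ^ r) (g : ℕ → PowerSeries ℝ≥0∞) :
    (S fun L : Submodule k⟦X⟧ M => if tl 1 ⊤ ≤ L ∧ L ⊔ K₀ = ⊤ then g (ld k (M ⧸ L)) else 0) =
      Cn (Nat.card k) (d - r)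
        (fun e => ((Nat.card k ^ (r * e) : ℕ) : PowerSeries ℝ≥0∞) * g e) := by
  obtain ⟨hrd, Y, ⟨c⟩, e, he⟩ := decomp b K₀ hr
  let G : Submodule k⟦X⟧ ((Fin r → k⟦X⟧) × Y) → PowerSeries ℝ≥0∞ := fun L' =>
    if tl 1 ⊤ ≤ L' ∧ pr L' = ⊤ then g (ld k (((Fin r → k⟦X⟧) × Y) ⧸ L')) else 0
  have h1 : ∀ L : Submodule k⟦X⟧ M,
      (if tl 1 ⊤ ≤ L ∧ L ⊔ K₀ = ⊤ then g (ld k (M ⧸ L)) else 0) =
      G ((Submodule.orderIsoMapComap e).toEquiv L) := by
    intro L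
    show _ = if tl 1 ⊤ ≤ L.map (e : M →ₗ[k⟦X⟧] (Fin r → k⟦X⟧) × Y) ∧
      pr (L.map (e : M →ₗ[k⟦X⟧] (Fin r → k⟦X⟧) × Y)) = ⊤ then _ else _
    by_cases h : tl 1 ⊤ ≤ L ∧ L ⊔ K₀ = ⊤
    · rw [if_pos h, if_pos ⟨(tl_map_top e L).1 h.1, (he L).1 h.2⟩]
      congr 1
      rw [ld, ld]
      congr 1
      exact Nat.card_congr (Submodule.Quotient.equiv L _ e rfl).toEquiv
    · rw [if_neg h, if_neg (fun h' => h ⟨(tl_map_top e L).2 h'.1, (he L).2 h'.2⟩)]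
  rw [S_congr h1]
  refine (S_equiv (Submodule.orderIsoMapComap e).toEquiv G).trans ?_
  rw [S_glue, S_single ⊤]
  · rw [← Sg_free c, Sg_def]
    refine S_congr fun L₂ => ?_
    by_cases h : tl 1 ⊤ ≤ L₂
    · rw [if_pos h, ← S_glue_top (Pi.basisFun k⟦X⟧ (Fin r)) c g L₂ h]
      refine S_congr fun φ => ?_
      exact if_pos ⟨(tl_le_glue_iff L₂ φ).2 h, pr_glue _ _ _⟩
    · rw [if_neg h]
      refine (S_congr fun φ => ?_).trans S_zero
      exact if_neg fun h' => h ((tl_le_glue_iff L₂ φ).1 h'.1)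
  · intro L₁ hL₁
    refine (S_congr fun L₂ => ?_).trans S_zero
    refine (S_congr fun φ => ?_).trans S_zero
    exact if_neg fun h => hL₁ (by have := h.2; rwa [pr_glue] at this)

end G

end Pool.Agent.R901.QZ
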